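import Pool.Agent.DEH.MeanSq

open Complex Pool.Agent.ANT Filter

namespace Pool.Agent.DEH

/-- The level `N exp(-(log N)^ε)`. -/
noncomputable def lev (ε : ℝ) (N : ℕ) : ℝ := N * Real.exp (-(Real.log N) ^ ε)

lemma lev_le (ε : ℝ) (N : ℕ) : lev ε N ≤ N := by
  unfold lev
  have : Real.exp (-(Real.log N) ^ ε) ≤ 1 := by
    rw [Real.exp_le_one_iff]
    have := Real.rpow_nonneg (Real.log_natCast_nonneg N) ε
    linarith
  exact mul_le_of_le_one_right (Nat.cast_nonneg N) this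

/-- Eventually `√X (log X)^a ≤ X`. -/
lemma eventually_log_pow_le (a : ℕ) {δ : ℝ} (hδ : 0 < δ) :
    ∀ᶠ X : ℕ in atTop, Real.log X ^ a ≤ (X:ℝ) ^ δ := by
  obtain ⟨L, hL, hlog⟩ := log_pow_le_rpow a (show (0:ℝ) < δ/2 by positivity)
  have h1 : Tendsto (fun n : ℕ => (n:ℝ) ^ (δ/2)) atTop atTop :=
    (tendsto_rpow_atTop (by positivity)).comp tendsto_natCast_atTop_atTop
  filter_upwards [h1.eventually_ge_atTop L, eventually_ge_atTop 1] with X hX hX1
  have hX1' : (1:ℝ) ≤ X := by exact_mod_cast hX1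
  have hX0 : (0:ℝ) < X := by linarith
  calc Real.log X ^ a ≤ L * (X:ℝ) ^ (δ/2) := hlog X hX1'
    _ ≤ (X:ℝ) ^ (δ/2) * (X:ℝ) ^ (δ/2) := by gcongr
    _ = (X:ℝ) ^ δ := by rw [← Real.rpow_add hX0]; congr 1; ring

/-- The bad `N` for one weight. -/
def Bad (g : ℕ → ℝ) (ε : ℝ) (A : ℕ) : Set ℕ := {N | (N:ℝ) / Real.log N ^ A < D g N (lev ε N)}

open Classical in
lemma count_bad {g : ℕ → ℝ} (hg : Good g) (A A' : ℕ) {ε : ℝ} (hε : 0 < ε) (hε1 : ε ≤ 1) :
    ∃ C : ℝ, 0 < C ∧ ∀ᶠ X : ℕ in atTop,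
      (((Finset.Ioc 0 X).filter (fun N => N ∈ Bad g ε A)).card : ℝ) ≤ C * X / Real.log X ^ A' := by
  obtain ⟨m, hm⟩ : ∃ m : ℕ, (11 + 2 * A + 3 * A' : ℝ) ≤ 2 * m * ε := by
    obtain ⟨m, hm⟩ := exists_nat_ge ((11 + 2 * A + 3 * A' : ℝ) / (2 * ε))
    refine ⟨m, ?_⟩
    rw [div_le_iff₀ (by positivity)] at hm
    linarith
  obtain ⟨C, hC, hms⟩ := mean_square hg m
  refine ⟨C * 4 ^ m * 2 ^ 11 + 1, by positivity, ?_⟩
  filter_upwards [eventually_log_pow_le A' (show (0:ℝ) < 1/2 by norm_num), eventually_ge_atTop 3]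
    with X hXlog hX3
  have hXR3 : (3:ℝ) ≤ X := by exact_mod_cast hX3
  have hX0 : (0:ℝ) < X := by linarith
  have hlX := one_le_log hXR3
  have hlX0 : 0 < Real.log X := by linarith
  set X1 : ℝ := X / Real.log X ^ A' with hX1
  have hX1s : √(X:ℝ) ≤ X1 := by
    rw [hX1, le_div_iff₀ (by positivity)]
    calc √(X:ℝ) * Real.log X ^ A' ≤ √(X:ℝ) * (X:ℝ) ^ (1/2:ℝ) := by gcongr
      _ = X := by rw [← Real.sqrt_eq_rpow]; exact Real.mul_self_sqrt hX0.le
  have hX10 : 0 < X1 := by positivity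
  set L : ℝ := Real.log X ^ ε / 2 with hL
  have hL0 : 0 < L := by
    have : 0 < Real.log X ^ ε := Real.rpow_pos_of_pos hlX0 ε
    positivity
  have hsum := hms X L hX3 hL0
  set Bd := (Finset.Ioc 0 X).filter (fun N => N ∈ Bad g ε A) with hBd
  set B1 := Bd.filter (fun N : ℕ => (N:ℝ) ≤ X1) with hB1
  set B2 := Bd.filter (fun N : ℕ => ¬ (N:ℝ) ≤ X1) with hB2
  have hcard : Bd.card = B1.card + B2.card := (Finset.card_filter_add_card_filter_not _).symm
  have hc1 : (B1.card : ℝ) ≤ X1 := by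
    have h1 : B1 ⊆ Finset.Ioc 0 ⌊X1⌋₊ := by
      intro N hN
      obtain ⟨h2, h3⟩ := Finset.mem_filter.mp hN
      have h4 := (Finset.mem_Ioc.mp (Finset.mem_filter.mp h2).1).1
      exact Finset.mem_Ioc.mpr ⟨h4, Nat.le_floor h3⟩
    have h2 := Finset.card_le_card h1
    rw [Nat.card_Ioc, Nat.sub_zero] at h2
    calc (B1.card : ℝ) ≤ (⌊X1⌋₊ : ℝ) := by exact_mod_cast h2
      _ ≤ X1 := Nat.floor_le hX10.le
  -- lower bound of VV on B2
  have hlow : ∀ N ∈ B2, X1 / Real.log X ^ A ≤ VV g X L N := by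
    intro N hN
    obtain ⟨h2, h3⟩ := Finset.mem_filter.mp hN
    obtain ⟨h4, h5⟩ := Finset.mem_filter.mp h2
    obtain ⟨h6, h7⟩ := Finset.mem_Ioc.mp h4
    push Not at h3
    have hN0 : (0:ℝ) < N := by exact_mod_cast h6
    have hNX : (N:ℝ) ≤ X := by exact_mod_cast h7
    have hsN : √(X:ℝ) ≤ N := by linarith
    have hlN : Real.log X / 2 ≤ Real.log N := by
      have := Real.log_le_log (Real.sqrt_pos.mpr hX0) hsN
      rwa [Real.log_sqrt hX0.le] at this
    have hlN0 : 0 < Real.log N := by linarith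
    have hlNX : Real.log N ≤ Real.log X := Real.log_le_log hN0 hNX
    have hbad : (N:ℝ) / Real.log N ^ A < D g N (lev ε N) := h5
    have hD : D g N (lev ε N) ≤ VV g X L N := by
      refine D_le_VV h6 h7 (lev_le ε N) fun q hq1 hq2 => ?_
      have hq0 : (0:ℝ) < q := by exact_mod_cast (by omega : 0 < q)
      have h8 : Real.log N ^ ε ≤ Real.log ((N:ℝ) / q) := by
        have h9 : Real.log q ≤ Real.log (lev ε N) := Real.log_le_log hq0 hq2
        unfold lev at h9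
        rw [Real.log_mul hN0.ne' (Real.exp_pos _).ne', Real.log_exp] at h9
        rw [Real.log_div hN0.ne' hq0.ne']
        linarith
      have h10 : Real.log ((N:ℝ) / q) ≤ Real.log ((X:ℝ) / q) :=
        Real.log_le_log (by positivity) (by gcongr)
      have h11 : L ≤ Real.log N ^ ε := by
        calc L = Real.log X ^ ε * (1/2) := by rw [hL]; ring
          _ ≤ Real.log X ^ ε * (1/2:ℝ) ^ ε := by
              gcongr
              calc (1/2:ℝ) = (1/2:ℝ) ^ (1:ℝ) := (Real.rpow_one _).symm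
                _ ≤ (1/2:ℝ) ^ ε := Real.rpow_le_rpow_of_exponent_ge (by norm_num) (by norm_num) hε1
          _ = (Real.log X / 2) ^ ε := by
              rw [← Real.mul_rpow hlX0.le (by norm_num)]; congr 1; ring
          _ ≤ Real.log N ^ ε := Real.rpow_le_rpow (by positivity) hlN hε.le
      linarith
    calc X1 / Real.log X ^ A ≤ N / Real.log N ^ A := by gcongr
      _ ≤ VV g X L N := by linarith
  have hc2 : (B2.card : ℝ) * (X1 / Real.log X ^ A) ^ 2 ≤
      C * (1 + Real.log X) ^ 11 * (X:ℝ) ^ 3 / L ^ (2 * m) := by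
    calc (B2.card : ℝ) * (X1 / Real.log X ^ A) ^ 2 = ∑ _N ∈ B2, (X1 / Real.log X ^ A) ^ 2 := by
          rw [Finset.sum_const, nsmul_eq_mul]
      _ ≤ ∑ N ∈ B2, VV g X L N ^ 2 := by
          refine Finset.sum_le_sum fun N hN => ?_
          have := hlow N hN
          have : 0 ≤ X1 / Real.log X ^ A := by positivity
          gcongr
      _ ≤ ∑ N ∈ Finset.Ioc 0 X, VV g X L N ^ 2 := by
          refine Finset.sum_le_sum_of_subset_of_nonneg ?_ fun _ _ _ => by positivity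
          exact (Finset.filter_subset _ _).trans (Finset.filter_subset _ _)
      _ ≤ _ := hsum
  have hLpow : Real.log X ^ (11 + 2 * A + 3 * A') ≤ 4 ^ m * L ^ (2 * m) := by
    have h1 : (4:ℝ) ^ m * L ^ (2 * m) = Real.log X ^ (2 * m * ε) := by
      rw [hL, div_pow, show (4:ℝ) = 2 ^ 2 by norm_num, ← pow_mul, mul_div_cancel₀ _ (by positivity),
        ← Real.rpow_natCast, ← Real.rpow_mul hlX0.le]
      congr 1
      push_cast; ring
    rw [h1, ← Real.rpow_natCast]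
    refine Real.rpow_le_rpow_of_exponent_le hlX ?_
    push_cast
    exact hm
  have hc3 : (B2.card : ℝ) ≤ C * 4 ^ m * 2 ^ 11 * X1 := by
    have hden : 0 < (X1 / Real.log X ^ A) ^ 2 := by positivity
    have h1 : (B2.card : ℝ) ≤
        (C * (1 + Real.log X) ^ 11 * (X:ℝ) ^ 3 / L ^ (2 * m)) / (X1 / Real.log X ^ A) ^ 2 := by
      rw [le_div_iff₀ hden]; exact hc2
    refine h1.trans ?_
    rw [div_le_iff₀ hden]
    calc C * (1 + Real.log X) ^ 11 * (X:ℝ) ^ 3 / L ^ (2 * m)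
        ≤ C * (2 * Real.log X) ^ 11 * (X:ℝ) ^ 3 / (Real.log X ^ (11 + 2 * A + 3 * A') / 4 ^ m) := by
          gcongr
          · linarith
          · rw [div_le_iff₀ (by positivity)]
            linarith
      _ = C * 4 ^ m * 2 ^ 11 * X1 * (X1 / Real.log X ^ A) ^ 2 := by
          rw [hX1, show 11 + 2 * A + 3 * A' = 11 + A + A + A' + A' + A' by ring]
          simp only [pow_add]
          field_simp
  calc (Bd.card : ℝ) = B1.card + B2.card := by rw [hcard]; push_cast; ring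
    _ ≤ X1 + C * 4 ^ m * 2 ^ 11 * X1 := add_le_add hc1 hc3
    _ = _ := by rw [hX1]; ring

/-- level comparison -/
lemma lev_mono {ε ε' : ℝ} (h : ε ≤ ε') {N : ℕ} (hN : 3 ≤ N) : lev ε' N ≤ lev ε N := by
  unfold lev
  have h1 := one_le_log (show (3:ℝ) ≤ N by exact_mod_cast hN)
  have := Real.rpow_le_rpow_of_exponent_le h1 h
  gcongr

/-- The nested bad sets. -/
def BadK (k : ℕ) : Set ℕ :=
  {N | 3 ≤ N ∧ (N ∈ Bad g1 (1/((k:ℝ)+1)) k ∨ N ∈ Bad g2 (1/((k:ℝ)+1)) k)}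

lemma BadK_mono {j k : ℕ} (h : j ≤ k) : BadK j ⊆ BadK k := by
  rintro N ⟨h3, hN⟩
  have h1 := one_le_log (show (3:ℝ) ≤ N by exact_mod_cast h3)
  have hlev : lev (1/((j:ℝ)+1)) N ≤ lev (1/((k:ℝ)+1)) N := by
    refine lev_mono ?_ h3
    gcongr
  have hN0 : (0:ℝ) ≤ N := Nat.cast_nonneg N
  have hthr : (N:ℝ) / Real.log N ^ k ≤ N / Real.log N ^ j := by
    have : Real.log N ^ j ≤ Real.log N ^ k := pow_le_pow_right₀ h1 h
    gcongr
  refine ⟨h3, ?_⟩
  rcases hN with hN | hN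
  · exact Or.inl (lt_of_le_of_lt hthr (lt_of_lt_of_le hN (D_mono g1 N hlev)))
  · exact Or.inr (lt_of_le_of_lt hthr (lt_of_lt_of_le hN (D_mono g2 N hlev)))

open Classical in
lemma count_badK (k : ℕ) : ∀ᶠ X : ℕ in atTop,
    (((Finset.Ioc 0 X).filter (fun N => N ∈ BadK k)).card : ℝ) ≤ X / Real.log X ^ k := by
  have hε : (0:ℝ) < 1/((k:ℝ)+1) := by positivity
  have hε1 : 1/((k:ℝ)+1) ≤ 1 := by
    rw [div_le_one (by positivity)]
    have : (0:ℝ) ≤ k := Nat.cast_nonneg k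
    linarith
  obtain ⟨C1, hC1, h1⟩ := count_bad good_g1 k (k+1) hε hε1
  obtain ⟨C2, hC2, h2⟩ := count_bad good_g2 k (k+1) hε hε1
  have hlogt : Tendsto (fun n : ℕ => Real.log (n:ℝ)) atTop atTop :=
    Real.tendsto_log_atTop.comp tendsto_natCast_atTop_atTop
  filter_upwards [h1, h2, hlogt.eventually_ge_atTop (C1 + C2), eventually_ge_atTop 3]
    with X hX1 hX2 hXC hX3
  have hXR3 : (3:ℝ) ≤ X := by exact_mod_cast hX3
  have hX0 : (0:ℝ) < X := by linarith
  have hlX := one_le_log hXR3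
  have hlX0 : 0 < Real.log X := by linarith
  have hsub : (Finset.Ioc 0 X).filter (fun N => N ∈ BadK k) ⊆
      (Finset.Ioc 0 X).filter (fun N => N ∈ Bad g1 (1/((k:ℝ)+1)) k) ∪
      (Finset.Ioc 0 X).filter (fun N => N ∈ Bad g2 (1/((k:ℝ)+1)) k) := by
    intro N hN
    obtain ⟨h3, h4, h5⟩ := Finset.mem_filter.mp hN
    rcases h5 with h5 | h5
    · exact Finset.mem_union_left _ (Finset.mem_filter.mpr ⟨h3, h5⟩)
    · exact Finset.mem_union_right _ (Finset.mem_filter.mpr ⟨h3, h5⟩)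
  calc _ ≤ ((((Finset.Ioc 0 X).filter (fun N => N ∈ Bad g1 (1/((k:ℝ)+1)) k)).card +
        ((Finset.Ioc 0 X).filter (fun N => N ∈ Bad g2 (1/((k:ℝ)+1)) k)).card : ℕ) : ℝ) := by
        exact_mod_cast (Finset.card_le_card hsub).trans (Finset.card_union_le _ _)
    _ ≤ C1 * X / Real.log X ^ (k+1) + C2 * X / Real.log X ^ (k+1) := by
        push_cast
        exact add_le_add hX1 hX2
    _ = (C1 + C2) * X / Real.log X ^ (k+1) := by ring
    _ ≤ Real.log X * X / Real.log X ^ (k+1) := by gcongr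
    _ = X / Real.log X ^ k := by rw [pow_succ]; field_simp

end Pool.Agent.DEH
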