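import Mathlib

namespace Pool.Agent.DEH

/-- `g₁(m) = μ(m)`. -/
noncomputable def g1 (m : ℕ) : ℝ := ((ArithmeticFunction.moebius m : ℤ) : ℝ)

/-- `g₂(m) = μ(m) log m`. -/
noncomputable def g2 (m : ℕ) : ℝ := ((ArithmeticFunction.moebius m : ℤ) : ℝ) * Real.log m

/-- `E_g(N; q) = ∑_{1 ≤ n < N, n ≡ N (mod q)} Λ(n) g(N - n)`. -/
noncomputable def E (g : ℕ → ℝ) (N q : ℕ) : ℝ :=
  ∑ n ∈ (Finset.Ico 1 N).filter (fun n => n ≡ N [MOD q]),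
    ArithmeticFunction.vonMangoldt n * g (N - n)

/-- The full sum `∑_{1 ≤ n < N} Λ(n) g(N - n)`. -/
noncomputable def S (g : ℕ → ℝ) (N : ℕ) : ℝ :=
  ∑ n ∈ Finset.Ico 1 N, ArithmeticFunction.vonMangoldt n * g (N - n)

/-- The discrepancy with level `Q`:
`D_g(N, Q) = ∑_{q ≤ Q, (q, N) = 1} |E_g(N; q) - S_g(N) / φ(q)|`. -/
noncomputable def D (g : ℕ → ℝ) (N : ℕ) (Q : ℝ) : ℝ :=
  ∑ q ∈ (Finset.Icc 1 ⌊Q⌋₊).filter (fun q => q.Coprime N),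
    |E g N q - 1 / (Nat.totient q : ℝ) * S g N|

end Pool.Agent.DEH
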