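import Pool.Agent.DEH.Defs

namespace Pool.Agent.DEH

/-- The discrepancy without main term and without coprimality condition:
`D*_g(N, Q) = ∑_{q ≤ Q} |E_g(N; q)|`. -/
noncomputable def Dstar (g : ℕ → ℝ) (N : ℕ) (Q : ℝ) : ℝ := ∑ q ∈ Finset.Icc 1 ⌊Q⌋₊, |E g N q|

end Pool.Agent.DEH
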