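import Pool.Agent.DEH.MeanSq
import Pool.Agent.DEH.Defs2

open Complex Pool.Agent.ANT Filter

namespace Pool.Agent.DEH

/-- `θ(x) > x/2` for large `x`. -/
lemma ev_theta : ∀ᶠ x : ℝ in atTop, x / 2 < Chebyshev.theta x := by
  obtain ⟨C, hC, h⟩ := theta_ap 1 (show (0:ℝ) < 1 by norm_num)
  filter_upwards [Real.tendsto_log_atTop.eventually_gt_atTop (2 * C), eventually_ge_atTop (3:ℝ)]
    with x hx hx3
  have hx0 : 0 < x := by linarith
  have hl := one_le_log hx3
  have h1 := h 1 (1 : ZMod 1) isUnit_one x hx3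
  have h2 : ∑ p ∈ (Finset.Icc 1 ⌊x⌋₊).filter (fun p : ℕ => p.Prime ∧ (p : ZMod 1) = 1), Real.log p =
      Chebyshev.theta x := by
    unfold Chebyshev.theta
    have : Finset.Ioc 0 ⌊x⌋₊ = Finset.Icc 1 ⌊x⌋₊ := rfl
    rw [this]
    congr 1
    refine Finset.filter_congr fun p _ => ?_
    constructor
    · rintro ⟨h, _⟩; exact h
    · intro h; exact ⟨h, Subsingleton.elim _ _⟩
  rw [h2] at h1
  simp only [Nat.cast_one, Nat.totient_one, div_one, Real.one_rpow, mul_one, pow_one] at h1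
  have h3 : C * x / Real.log x < x / 2 := by
    rw [div_lt_div_iff₀ (by linarith) (by norm_num)]
    nlinarith
  rw [abs_le] at h1
  linarith [h1.1]

/-- A small prime not dividing `N`. -/
lemma ev_prime : ∀ᶠ N : ℕ in atTop, ∃ p : ℕ, p.Prime ∧ ¬ p ∣ N ∧ (p:ℝ) ≤ 2 * Real.log N := by
  have hlogt : Tendsto (fun n : ℕ => 2 * Real.log (n:ℝ)) atTop atTop :=
    (Real.tendsto_log_atTop.comp tendsto_natCast_atTop_atTop).const_mul_atTop (by norm_num)
  filter_upwards [hlogt.eventually ev_theta, eventually_ge_atTop 1] with N hN hN1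
  by_contra hcon
  push Not at hcon
  have hN0 : 0 < N := by omega
  set x : ℝ := 2 * Real.log N with hx
  have hx0 : 0 ≤ x := by
    have := Real.log_natCast_nonneg N
    positivity
  have hdvd : primorial ⌊x⌋₊ ∣ N := by
    unfold primorial
    refine Finset.prod_primes_dvd N (fun p hp => (Finset.mem_filter.mp hp).2.prime) fun p hp => ?_
    obtain ⟨h1, h2⟩ := Finset.mem_filter.mp hp
    by_contra hnd
    have h3 := hcon p h2 hnd
    have h4 : p ≤ ⌊x⌋₊ := by have := Finset.mem_range.mp h1; omega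
    have h5 : (p:ℝ) ≤ x := (Nat.cast_le.mpr h4).trans (Nat.floor_le hx0)
    linarith
  have h1 := Nat.le_of_dvd hN0 hdvd
  rw [Chebyshev.theta_eq_log_primorial] at hN
  have h2 : Real.log (primorial ⌊x⌋₊) ≤ Real.log N :=
    Real.log_le_log (by exact_mod_cast primorial_pos _) (by exact_mod_cast h1)
  have : x / 2 = Real.log N := by rw [hx]; ring
  linarith

/-- weights supported on squarefree integers with `|g(m)| ≤ 1 + log m` -/
def SqfW (g : ℕ → ℝ) : Prop := ∀ m : ℕ, |g m| ≤ 1 + Real.log m ∧ (¬ Squarefree m → g m = 0)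

lemma sqf_g1 : SqfW g1 := by
  intro m
  constructor
  · have h1 : |g1 m| ≤ 1 := by
      unfold g1
      have := ArithmeticFunction.abs_moebius_le_one (n := m)
      exact_mod_cast this
    have := Real.log_natCast_nonneg m
    linarith
  · intro h; unfold g1; rw [ArithmeticFunction.moebius_eq_zero_of_not_squarefree h]; simp

lemma sqf_g2 : SqfW g2 := by
  intro m
  have hl := Real.log_natCast_nonneg m
  constructor
  · have h1 : |((ArithmeticFunction.moebius m : ℤ) : ℝ)| ≤ 1 := by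
      have := ArithmeticFunction.abs_moebius_le_one (n := m)
      exact_mod_cast this
    unfold g2
    rw [abs_mul, abs_of_nonneg hl]
    nlinarith
  · intro h; unfold g2; rw [ArithmeticFunction.moebius_eq_zero_of_not_squarefree h]; simp

lemma E_sq_eq_zero {g : ℕ → ℝ} (hg : SqfW g) {p : ℕ} (hp : p.Prime) (N : ℕ) : E g N (p ^ 2) = 0 := by
  unfold E
  refine Finset.sum_eq_zero fun n hn => ?_
  obtain ⟨h1, h2⟩ := Finset.mem_filter.mp hn
  obtain ⟨h3, h4⟩ := Finset.mem_Ico.mp h1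
  have h5 : p ^ 2 ∣ N - n := (Nat.modEq_iff_dvd' h4.le).mp h2
  have h6 : ¬ Squarefree (N - n) := by
    intro hsq
    have := hsq p (by rwa [← sq])
    exact hp.one_lt.ne' (Nat.isUnit_iff.mp this)
  rw [(hg (N - n)).2 h6, mul_zero]

/-- the full sum is controlled by the discrepancy -/
lemma S_le_D {g : ℕ → ℝ} (hg : SqfW g) {p N : ℕ} {Q : ℝ} (hp : p.Prime) (hpN : ¬ p ∣ N)
    (hQ : (p:ℝ) ^ 2 ≤ Q) : |S g N| ≤ (p:ℝ) ^ 2 * D g N Q := by
  have hp0 : (0:ℝ) < p := by exact_mod_cast hp.pos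
  have hφ : (0:ℝ) < (Nat.totient (p^2) : ℝ) := by
    exact_mod_cast Nat.totient_pos.mpr (pow_pos hp.pos 2)
  have hφ2 : (Nat.totient (p^2) : ℝ) ≤ (p:ℝ) ^ 2 := by exact_mod_cast Nat.totient_le _
  have h1 : 1 / (Nat.totient (p^2) : ℝ) * |S g N| ≤ D g N Q := by
    unfold D
    have hmem : p ^ 2 ∈ (Finset.Icc 1 ⌊Q⌋₊).filter (fun q => q.Coprime N) := by
      refine Finset.mem_filter.mpr ⟨Finset.mem_Icc.mpr ⟨Nat.one_le_pow _ _ hp.pos, ?_⟩, ?_⟩
      · refine Nat.le_floor ?_
        push_cast; exact hQ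
      · exact Nat.Coprime.pow_left 2 ((Nat.Prime.coprime_iff_not_dvd hp).mpr hpN)
    refine le_trans ?_ (Finset.single_le_sum (f := fun q => |E g N q - 1 / (Nat.totient q : ℝ) * S g N|)
      (fun _ _ => abs_nonneg _) hmem)
    rw [E_sq_eq_zero hg hp, zero_sub, abs_neg, abs_mul, abs_of_pos (by positivity :
      (0:ℝ) < 1 / (Nat.totient (p^2) : ℝ))]
  have hD : 0 ≤ D g N Q := Finset.sum_nonneg fun _ _ => abs_nonneg _
  calc |S g N| = (Nat.totient (p^2) : ℝ) * (1 / (Nat.totient (p^2) : ℝ) * |S g N|) := by field_simp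
    _ ≤ (p:ℝ) ^ 2 * D g N Q := mul_le_mul hφ2 h1 (by positivity) (by positivity)

lemma sum_totient_le {N : ℕ} {Q : ℝ} (hQ : Q ≤ N) :
    ∑ q ∈ Finset.Icc 1 ⌊Q⌋₊, 1 / (q.totient : ℝ) ≤ (1 + Real.log N) ^ 2 := by
  have hfl : ⌊Q⌋₊ ≤ N := by
    have := Nat.floor_le_floor hQ
    rwa [Nat.floor_natCast] at this
  have h0 := Hs_nonneg N
  calc _ ≤ ∑ q ∈ Finset.Ioc 0 N, tauR q / q := by
        calc _ ≤ ∑ q ∈ Finset.Icc 1 ⌊Q⌋₊, tauR q / q := by
              refine Finset.sum_le_sum fun q hq => ?_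
              have := (Finset.mem_Icc.mp hq).1
              exact one_div_totient_le (by omega)
          _ ≤ _ := by
              refine Finset.sum_le_sum_of_subset_of_nonneg ?_ fun q _ _ =>
                div_nonneg (tauR_nonneg q) (Nat.cast_nonneg _)
              intro q hq
              obtain ⟨h1, h2⟩ := Finset.mem_Icc.mp hq
              exact Finset.mem_Ioc.mpr ⟨h1, h2.trans hfl⟩
    _ ≤ Hs N ^ 2 := sum_tau_div_le N
    _ ≤ _ := by
        gcongr
        exact Hs_le N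

/-- the terms with `(q, N) > 1` -/
lemma noncoprime_le : ∃ C : ℝ, 0 < C ∧ ∀ g : ℕ → ℝ, SqfW g → ∀ N : ℕ, 1 ≤ N → ∀ Q : ℝ,
    ∑ q ∈ (Finset.Icc 1 ⌊Q⌋₊).filter (fun q => ¬ q.Coprime N), |E g N q| ≤ C * √(N:ℝ) := by
  obtain ⟨C1, hC1, h1⟩ := tauR_le_rpow (show (0:ℝ) < 1/4 by norm_num)
  obtain ⟨C2, hC2, h2⟩ := log_pow_le_rpow 3 (show (0:ℝ) < 1/4 by norm_num)
  refine ⟨C1 * (2 * 8 * C2 + 8), by positivity, fun g hg N hN Q => ?_⟩
  have hN0 : (0:ℝ) < N := by exact_mod_cast (by omega : 0 < N)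
  have hN1 : (1:ℝ) ≤ N := by exact_mod_cast hN
  have hlN : 0 ≤ Real.log N := Real.log_natCast_nonneg N
  have hterm : ∀ q ∈ (Finset.Icc 1 ⌊Q⌋₊).filter (fun q => ¬ q.Coprime N), |E g N q| ≤
      ∑ n ∈ (Finset.Ioc 0 N).filter (fun n => ¬ n.Coprime N),
        if n < N ∧ q ∣ N - n then ArithmeticFunction.vonMangoldt n * (1 + Real.log N) else 0 := by
    intro q hq
    obtain ⟨hq1, hq2⟩ := Finset.mem_filter.mp hq
    unfold E
    rw [Finset.sum_filter, Finset.sum_filter]
    refine (Finset.abs_sum_le_sum_abs _ _).trans ?_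
    calc _ ≤ ∑ n ∈ Finset.Ico 1 N, (if ¬ n.Coprime N then
          (if n < N ∧ q ∣ N - n then ArithmeticFunction.vonMangoldt n * (1 + Real.log N) else 0) else 0) := by
          refine Finset.sum_le_sum fun n hn => ?_
          obtain ⟨hn1, hn2⟩ := Finset.mem_Ico.mp hn
          have hΛ : 0 ≤ ArithmeticFunction.vonMangoldt n := ArithmeticFunction.vonMangoldt_nonneg
          by_cases hmod : n ≡ N [MOD q]
          · have hdvd : q ∣ N - n := (Nat.modEq_iff_dvd' hn2.le).mp hmod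
            rw [if_pos hmod]
            have hnc : ¬ n.Coprime N := by
              obtain ⟨p, hp, hpq, hpN⟩ := Nat.Prime.not_coprime_iff_dvd.mp hq2
              refine Nat.Prime.not_coprime_iff_dvd.mpr ⟨p, hp, ?_, hpN⟩
              have h3 : p ∣ N - n := hpq.trans hdvd
              have h4 : N - (N - n) = n := Nat.sub_sub_self hn2.le
              rw [← h4]
              exact Nat.dvd_sub hpN h3
            rw [if_pos hnc, if_pos ⟨hn2, hdvd⟩, abs_mul, abs_of_nonneg hΛ]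
            refine mul_le_mul_of_nonneg_left ?_ hΛ
            refine (hg (N - n)).1.trans ?_
            have : Real.log ((N - n : ℕ) : ℝ) ≤ Real.log N :=
              Real.log_le_log (by exact_mod_cast (by omega : 0 < N - n))
                (by exact_mod_cast Nat.sub_le _ _)
            linarith
          · rw [if_neg hmod, abs_zero]
            have hpos : 0 ≤ ArithmeticFunction.vonMangoldt n * (1 + Real.log N) := by positivity
            split_ifs <;> first | exact le_rfl | exact hpos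
      _ ≤ _ := by
          refine Finset.sum_le_sum_of_subset_of_nonneg ?_ fun n _ _ => ?_
          · intro n hn
            obtain ⟨hn1, hn2⟩ := Finset.mem_Ico.mp hn
            exact Finset.mem_Ioc.mpr ⟨hn1, hn2.le⟩
          · have hΛ : 0 ≤ ArithmeticFunction.vonMangoldt n := ArithmeticFunction.vonMangoldt_nonneg
            have hpos : 0 ≤ ArithmeticFunction.vonMangoldt n * (1 + Real.log N) := by positivity
            split_ifs <;> first | exact le_rfl | exact hpos
  have hτ : ∀ n ∈ (Finset.Ioc 0 N).filter (fun n => ¬ n.Coprime N),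
      ∑ q ∈ (Finset.Icc 1 ⌊Q⌋₊).filter (fun q => ¬ q.Coprime N),
        (if n < N ∧ q ∣ N - n then ArithmeticFunction.vonMangoldt n * (1 + Real.log N) else 0) ≤
      (C1 * (N:ℝ) ^ (1/4:ℝ) * (1 + Real.log N)) * ArithmeticFunction.vonMangoldt n := by
    intro n _
    have hΛ : 0 ≤ ArithmeticFunction.vonMangoldt n := ArithmeticFunction.vonMangoldt_nonneg
    by_cases hnN : n < N
    · have hsub : 0 < N - n := by omega
      rw [← Finset.sum_filter, Finset.sum_const, nsmul_eq_mul]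
      have hcard : ((((Finset.Icc 1 ⌊Q⌋₊).filter (fun q => ¬ q.Coprime N)).filter
          (fun q => n < N ∧ q ∣ N - n)).card : ℝ) ≤ C1 * (N:ℝ) ^ (1/4:ℝ) := by
        calc _ ≤ tauR (N - n) := by
              unfold tauR
              refine Nat.cast_le.mpr (Finset.card_le_card fun q hq => ?_)
              exact Nat.mem_divisors.mpr ⟨(Finset.mem_filter.mp hq).2.2, hsub.ne'⟩
          _ ≤ C1 * ((N - n : ℕ) : ℝ) ^ (1/4:ℝ) := h1 _ hsub.ne'
          _ ≤ _ := by
              have : ((N - n : ℕ) : ℝ) ≤ N := by exact_mod_cast Nat.sub_le _ _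
              gcongr
      calc _ ≤ (C1 * (N:ℝ) ^ (1/4:ℝ)) * (ArithmeticFunction.vonMangoldt n * (1 + Real.log N)) := by
            gcongr
        _ = _ := by ring
    · refine le_trans (le_of_eq (Finset.sum_eq_zero fun q _ => ?_)) (by positivity)
      rw [if_neg (fun h => hnN h.1)]
  have h3 := sum_vonMangoldt_not_coprime_le (q := N) (N := N) (by omega) (by omega)
  have h4 := card_primeFactors_le_log (q := N) (by omega)
  calc _ ≤ ∑ q ∈ (Finset.Icc 1 ⌊Q⌋₊).filter (fun q => ¬ q.Coprime N),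
        ∑ n ∈ (Finset.Ioc 0 N).filter (fun n => ¬ n.Coprime N),
        (if n < N ∧ q ∣ N - n then ArithmeticFunction.vonMangoldt n * (1 + Real.log N) else 0) :=
        Finset.sum_le_sum hterm
    _ ≤ ∑ n ∈ (Finset.Ioc 0 N).filter (fun n => ¬ n.Coprime N),
        (C1 * (N:ℝ) ^ (1/4:ℝ) * (1 + Real.log N)) * ArithmeticFunction.vonMangoldt n := by
        rw [Finset.sum_comm]
        exact Finset.sum_le_sum hτ
    _ = (C1 * (N:ℝ) ^ (1/4:ℝ) * (1 + Real.log N)) *
        ∑ n ∈ (Finset.Ioc 0 N).filter (fun n => ¬ n.Coprime N), ArithmeticFunction.vonMangoldt n := by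
        rw [Finset.mul_sum]
    _ ≤ (C1 * (N:ℝ) ^ (1/4:ℝ) * (1 + Real.log N)) * ((2 * Real.log N) * Real.log N) := by
        gcongr
        exact h3.trans (by gcongr)
    _ = C1 * (N:ℝ) ^ (1/4:ℝ) * (2 * Real.log N ^ 2 + 2 * Real.log N ^ 3) := by ring
    _ ≤ C1 * (N:ℝ) ^ (1/4:ℝ) * ((2 * 8 * C2 + 8) * (N:ℝ) ^ (1/4:ℝ)) := by
        have h5 := h2 N hN1
        have h6 : (1:ℝ) ≤ (N:ℝ) ^ (1/4:ℝ) := Real.one_le_rpow hN1 (by norm_num)
        have h7 : Real.log N ^ 2 ≤ 1 + Real.log N ^ 3 := by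
          rcases le_or_gt (Real.log N) 1 with h | h
          · have : Real.log N ^ 2 ≤ 1 := pow_le_one₀ hlN h
            have : 0 ≤ Real.log N ^ 3 := by positivity
            linarith
          · have : Real.log N ^ 2 ≤ Real.log N ^ 3 := pow_le_pow_right₀ h.le (by norm_num)
            linarith
        have h8 : 2 * Real.log N ^ 2 + 2 * Real.log N ^ 3 ≤ (2 * 8 * C2 + 8) * (N:ℝ) ^ (1/4:ℝ) := by
          nlinarith
        gcongr
    _ = C1 * (2 * 8 * C2 + 8) * ((N:ℝ) ^ (1/4:ℝ) * (N:ℝ) ^ (1/4:ℝ)) := by ring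
    _ = _ := by
        rw [← Real.rpow_add hN0, Real.sqrt_eq_rpow]; norm_num

lemma Dstar_split (g : ℕ → ℝ) (N : ℕ) (Q : ℝ) : Dstar g N Q =
    ∑ q ∈ (Finset.Icc 1 ⌊Q⌋₊).filter (fun q => q.Coprime N), |E g N q| +
    ∑ q ∈ (Finset.Icc 1 ⌊Q⌋₊).filter (fun q => ¬ q.Coprime N), |E g N q| :=
  (Finset.sum_filter_add_sum_filter_not _ _ _).symm

end Pool.Agent.DEH
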