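import Pool.Agent.DEH.Weights

open Complex Pool.Agent.ANT

namespace Pool.Agent.DEH

lemma two_pow_omega_le_tau {q : ℕ} (hq : q ≠ 0) : (2:ℝ) ^ q.primeFactors.card ≤ tauR q := by
  unfold tauR
  rw [Nat.card_divisors hq]
  push_cast
  rw [← Finset.prod_const]
  refine Finset.prod_le_prod (fun _ _ => by norm_num) fun p hp => ?_
  have hp' := Nat.prime_of_mem_primeFactors hp
  have ha : 1 ≤ q.factorization p :=
    (hp'.dvd_iff_one_le_factorization hq).mp (Nat.dvd_of_mem_primeFactors hp)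
  have : (1:ℝ) ≤ q.factorization p := by exact_mod_cast ha
  linarith

lemma four_pow_omega_le_tau {q : ℕ} (hq : q ≠ 0) : (4:ℝ) ^ q.primeFactors.card ≤ tauR q ^ 2 := by
  have h := two_pow_omega_le_tau hq
  calc (4:ℝ) ^ q.primeFactors.card = ((2:ℝ) ^ q.primeFactors.card) ^ 2 := by
        rw [← pow_mul, mul_comm, pow_mul]; norm_num
    _ ≤ _ := by gcongr

lemma one_div_totient_le {q : ℕ} (hq : q ≠ 0) : 1 / (q.totient : ℝ) ≤ tauR q / q := by
  have hq0 : (0:ℝ) < q := by exact_mod_cast Nat.pos_of_ne_zero hq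
  have hφ : (0:ℝ) < q.totient := by exact_mod_cast Nat.totient_pos.mpr (Nat.pos_of_ne_zero hq)
  have h1 : (q.totient : ℝ) = q * ∏ p ∈ q.primeFactors, (1 - (p:ℝ)⁻¹) := by
    have := Nat.totient_eq_mul_prod_factors q
    have h2 : ((q.totient : ℚ) : ℝ) = ((q * ∏ p ∈ q.primeFactors, (1 - (p:ℚ)⁻¹) : ℚ) : ℝ) := by
      rw [this]
    push_cast at h2
    exact h2
  have h2 : (1/2:ℝ) ^ q.primeFactors.card ≤ ∏ p ∈ q.primeFactors, (1 - (p:ℝ)⁻¹) := by
    rw [← Finset.prod_const]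
    refine Finset.prod_le_prod (fun _ _ => by norm_num) fun p hp => ?_
    have hp2 : (2:ℝ) ≤ p := by exact_mod_cast (Nat.prime_of_mem_primeFactors hp).two_le
    have : (p:ℝ)⁻¹ ≤ 1/2 := by
      rw [inv_le_comm₀ (by linarith) (by norm_num)]; linarith
    linarith
  have h3 : (q:ℝ) ≤ tauR q * q.totient := by
    have h4 := two_pow_omega_le_tau hq
    calc (q:ℝ) = q * ((2:ℝ) ^ q.primeFactors.card * (1/2:ℝ) ^ q.primeFactors.card) := by
          rw [← mul_pow]; norm_num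
      _ ≤ q * (tauR q * ∏ p ∈ q.primeFactors, (1 - (p:ℝ)⁻¹)) := by
          have := tauR_nonneg q
          gcongr
      _ = tauR q * q.totient := by rw [h1]; ring
  rw [div_le_div_iff₀ hφ hq0]
  linarith

/-- The moduli considered. -/
noncomputable def Sq (X : ℕ) (L : ℝ) : Finset ℕ :=
  (Finset.Ioc 0 X).filter (fun q => L ≤ Real.log ((X:ℝ) / q))

/-- The majorant of the discrepancy. -/
noncomputable def VV (g : ℕ → ℝ) (X : ℕ) (L : ℝ) (N : ℕ) : ℝ :=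
  ∑ q ∈ Sq X L, (|E g N q| + 1 / (q.totient : ℝ) * |S g N|)

lemma mean_square {g : ℕ → ℝ} (hg : Good g) (m : ℕ) : ∃ C : ℝ, 0 < C ∧ ∀ (X : ℕ) (L : ℝ), 3 ≤ X →
    0 < L → ∑ N ∈ Finset.Ioc 0 X, VV g X L N ^ 2 ≤
      C * (1 + Real.log X) ^ 11 * (X:ℝ) ^ 3 / L ^ (2 * m) := by
  obtain ⟨C', hC', hgood⟩ := hg m
  refine ⟨24 * C' ^ 2, by positivity, fun X L hX hL => ?_⟩
  have hX0 : (0:ℝ) < X := by positivity
  have hX1 : (1:ℝ) ≤ X := by exact_mod_cast (by omega : 1 ≤ X)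
  set LL := 1 + Real.log X with hLL
  have hLL1 : 1 ≤ LL := by
    have := Real.log_natCast_nonneg X
    linarith
  set T : ℝ := 6 * X * LL with hT
  set b : ℝ := C' * LL * (X / L ^ m) with hb
  have hb0 : 0 < b := by positivity
  set w : ℕ → ℝ := fun q => 4 ^ q.primeFactors.card / q with hw
  have hw0 : ∀ q ∈ Sq X L, 0 < w q := by
    intro q hq
    have h1 := (Finset.mem_Ioc.mp (Finset.mem_filter.mp hq).1).1
    have : (0:ℝ) < q := by exact_mod_cast h1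
    simp only [hw]; positivity
  -- mean squares
  have hEq : ∀ q ∈ Sq X L, ∑ N ∈ Finset.Ioc 0 X, E g N q ^ 2 ≤ (b * w q) ^ 2 * T := by
    intro q hq
    obtain ⟨hq1, hq2⟩ := Finset.mem_filter.mp hq
    obtain ⟨hq3, hq4⟩ := Finset.mem_Ioc.mp hq1
    have hq0 : (0:ℝ) < q := by exact_mod_cast hq3
    have h1 := E_mean_square (g := g) (q := q) (X := X) (hgood q X hq3)
    refine h1.trans ?_
    rw [hT]
    have hdiv : 1 ≤ X / q := (Nat.le_div_iff_mul_le hq3).mpr (by omega)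
    have h2 : phim m ((X / q : ℕ) : ℝ) ≤ (X / q) / L ^ m := by
      refine (phim_mono m (by exact_mod_cast hdiv) Nat.cast_div_le).trans ?_
      unfold phim
      gcongr
      have : (0:ℝ) ≤ m := Nat.cast_nonneg m
      linarith
    have h3 := phim_nat_nonneg m (X / q)
    have h4 : C' * LL * 4 ^ q.primeFactors.card * phim m ((X / q : ℕ) : ℝ) ≤ b * w q := by
      calc _ ≤ C' * LL * 4 ^ q.primeFactors.card * ((X / q) / L ^ m) := by gcongr
        _ = _ := by rw [hb, hw]; ring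
    gcongr
  rcases Finset.eq_empty_or_nonempty (Sq X L) with hempty | ⟨q0, hq0⟩
  · have : ∀ N ∈ Finset.Ioc 0 X, VV g X L N ^ 2 = 0 := by
      intro N _; unfold VV; rw [hempty]; simp
    rw [Finset.sum_congr rfl this]
    simp only [Finset.sum_const_zero]
    positivity
  have h1mem : 1 ∈ Sq X L := by
    obtain ⟨hq1, hq2⟩ := Finset.mem_filter.mp hq0
    obtain ⟨hq3, hq4⟩ := Finset.mem_Ioc.mp hq1
    refine Finset.mem_filter.mpr ⟨Finset.mem_Ioc.mpr ⟨by norm_num, by omega⟩, hq2.trans ?_⟩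
    have hq0' : (1:ℝ) ≤ q0 := by exact_mod_cast hq3
    refine Real.log_le_log (by positivity) ?_
    push_cast
    gcongr
  have hE1 : ∑ N ∈ Finset.Ioc 0 X, S g N ^ 2 ≤ b ^ 2 * T := by
    have h2 := hEq 1 h1mem
    have hw1 : w 1 = 1 := by simp [hw]
    rw [hw1, mul_one] at h2
    calc _ = ∑ N ∈ Finset.Ioc 0 X, E g N 1 ^ 2 := by simp_rw [E_one]
      _ ≤ _ := h2
  -- weights
  have hsub : Sq X L ⊆ Finset.Ioc 0 X := Finset.filter_subset _ _
  have hHs : Hs X ≤ LL := Hs_le X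
  have hHs0 := Hs_nonneg X
  have hW : ∑ q ∈ Sq X L, w q ≤ LL ^ 4 := by
    calc ∑ q ∈ Sq X L, w q ≤ ∑ q ∈ Sq X L, tauR q ^ 2 / q := by
          refine Finset.sum_le_sum fun q hq => ?_
          have h1 := (Finset.mem_Ioc.mp (hsub hq)).1
          simp only [hw]
          gcongr
          exact four_pow_omega_le_tau (by omega)
      _ ≤ ∑ q ∈ Finset.Ioc 0 X, tauR q ^ 2 / q :=
          Finset.sum_le_sum_of_subset_of_nonneg hsub fun _ _ _ => by positivity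
      _ ≤ Hs X ^ 4 := sum_tau_sq_div_le X
      _ ≤ LL ^ 4 := by gcongr
  have hW0 : 0 ≤ ∑ q ∈ Sq X L, w q := Finset.sum_nonneg fun q hq => (hw0 q hq).le
  have hΦ : ∑ q ∈ Sq X L, 1 / (q.totient : ℝ) ≤ LL ^ 2 := by
    calc _ ≤ ∑ q ∈ Sq X L, tauR q / q := by
          refine Finset.sum_le_sum fun q hq => ?_
          have h1 := (Finset.mem_Ioc.mp (hsub hq)).1
          exact one_div_totient_le (by omega)
      _ ≤ ∑ q ∈ Finset.Ioc 0 X, tauR q / q :=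
          Finset.sum_le_sum_of_subset_of_nonneg hsub fun q _ _ =>
            div_nonneg (tauR_nonneg q) (Nat.cast_nonneg _)
      _ ≤ Hs X ^ 2 := sum_tau_div_le X
      _ ≤ LL ^ 2 := by gcongr
  have hΦ0 : 0 ≤ ∑ q ∈ Sq X L, 1 / (q.totient : ℝ) := Finset.sum_nonneg fun _ _ => by positivity
  -- Cauchy–Schwarz for fixed N
  have hCS : ∀ N : ℕ, (∑ q ∈ Sq X L, |E g N q|) ^ 2 ≤
      (∑ q ∈ Sq X L, w q) * ∑ q ∈ Sq X L, (E g N q) ^ 2 / w q := by
    intro N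
    have h2 := Finset.sum_mul_sq_le_sq_mul_sq (Sq X L) (fun q => √(w q)) (fun q => |E g N q| / √(w q))
    have e1 : ∑ q ∈ Sq X L, √(w q) * (|E g N q| / √(w q)) = ∑ q ∈ Sq X L, |E g N q| := by
      refine Finset.sum_congr rfl fun q hq => ?_
      have := Real.sqrt_pos.mpr (hw0 q hq)
      field_simp
    have e2 : ∑ q ∈ Sq X L, √(w q) ^ 2 = ∑ q ∈ Sq X L, w q :=
      Finset.sum_congr rfl fun q hq => Real.sq_sqrt (hw0 q hq).le
    have e3 : ∑ q ∈ Sq X L, (|E g N q| / √(w q)) ^ 2 = ∑ q ∈ Sq X L, (E g N q) ^ 2 / w q := by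
      refine Finset.sum_congr rfl fun q hq => ?_
      rw [div_pow, Real.sq_sqrt (hw0 q hq).le, sq_abs]
    rw [e1, e2, e3] at h2
    exact h2
  have hpart1 : ∑ N ∈ Finset.Ioc 0 X, (∑ q ∈ Sq X L, |E g N q|) ^ 2 ≤ LL ^ 8 * b ^ 2 * T := by
    calc _ ≤ ∑ N ∈ Finset.Ioc 0 X, (∑ q ∈ Sq X L, w q) * ∑ q ∈ Sq X L, (E g N q) ^ 2 / w q :=
          Finset.sum_le_sum fun N _ => hCS N
      _ = (∑ q ∈ Sq X L, w q) * ∑ q ∈ Sq X L, (∑ N ∈ Finset.Ioc 0 X, (E g N q) ^ 2) / w q := by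
          rw [← Finset.mul_sum, Finset.sum_comm]
          simp_rw [Finset.sum_div]
      _ ≤ (∑ q ∈ Sq X L, w q) * ∑ q ∈ Sq X L, (b ^ 2 * T) * w q := by
          refine mul_le_mul_of_nonneg_left (Finset.sum_le_sum fun q hq => ?_) hW0
          rw [div_le_iff₀ (hw0 q hq)]
          refine (hEq q hq).trans (le_of_eq ?_)
          ring
      _ = (∑ q ∈ Sq X L, w q) ^ 2 * (b ^ 2 * T) := by rw [← Finset.mul_sum]; ring
      _ ≤ (LL ^ 4) ^ 2 * (b ^ 2 * T) := by gcongr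
      _ = _ := by ring
  have hpart2 : ∑ N ∈ Finset.Ioc 0 X, (∑ q ∈ Sq X L, 1 / (q.totient : ℝ) * |S g N|) ^ 2 ≤
      LL ^ 4 * b ^ 2 * T := by
    calc _ = ∑ N ∈ Finset.Ioc 0 X, (∑ q ∈ Sq X L, 1 / (q.totient : ℝ)) ^ 2 * S g N ^ 2 := by
          refine Finset.sum_congr rfl fun N _ => ?_
          rw [← Finset.sum_mul, mul_pow, sq_abs]
      _ = (∑ q ∈ Sq X L, 1 / (q.totient : ℝ)) ^ 2 * ∑ N ∈ Finset.Ioc 0 X, S g N ^ 2 := by
          rw [Finset.mul_sum]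
      _ ≤ (LL ^ 2) ^ 2 * (b ^ 2 * T) := by
          have : 0 ≤ ∑ N ∈ Finset.Ioc 0 X, S g N ^ 2 := Finset.sum_nonneg fun _ _ => by positivity
          gcongr
      _ = _ := by ring
  have hT0 : 0 < T := by positivity
  calc ∑ N ∈ Finset.Ioc 0 X, VV g X L N ^ 2
      ≤ ∑ N ∈ Finset.Ioc 0 X, (2 * (∑ q ∈ Sq X L, |E g N q|) ^ 2 +
          2 * (∑ q ∈ Sq X L, 1 / (q.totient : ℝ) * |S g N|) ^ 2) := by
        refine Finset.sum_le_sum fun N _ => ?_
        unfold VV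
        rw [Finset.sum_add_distrib]
        nlinarith [sq_nonneg ((∑ q ∈ Sq X L, |E g N q|) -
          ∑ q ∈ Sq X L, 1 / (q.totient : ℝ) * |S g N|)]
    _ = 2 * ∑ N ∈ Finset.Ioc 0 X, (∑ q ∈ Sq X L, |E g N q|) ^ 2 +
        2 * ∑ N ∈ Finset.Ioc 0 X, (∑ q ∈ Sq X L, 1 / (q.totient : ℝ) * |S g N|) ^ 2 := by
        rw [Finset.sum_add_distrib, ← Finset.mul_sum, ← Finset.mul_sum]
    _ ≤ 2 * (LL ^ 8 * b ^ 2 * T) + 2 * (LL ^ 4 * b ^ 2 * T) := by gcongr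
    _ ≤ 2 * (LL ^ 8 * b ^ 2 * T) + 2 * (LL ^ 8 * b ^ 2 * T) := by
        have : LL ^ 4 ≤ LL ^ 8 := pow_le_pow_right₀ hLL1 (by norm_num)
        gcongr
    _ = 24 * C' ^ 2 * LL ^ 11 * (X:ℝ) ^ 3 / L ^ (2 * m) := by
        rw [hb, hT, pow_mul' L 2 m]
        field_simp
        ring

lemma D_le_VV {g : ℕ → ℝ} {N X : ℕ} {L Q : ℝ} (hN : 1 ≤ N) (hNX : N ≤ X) (hQN : Q ≤ N)
    (hQ : ∀ q : ℕ, 1 ≤ q → (q:ℝ) ≤ Q → L ≤ Real.log ((X:ℝ) / q)) : D g N Q ≤ VV g X L N := by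
  unfold D VV
  calc _ ≤ ∑ q ∈ (Finset.Icc 1 ⌊Q⌋₊).filter (fun q => q.Coprime N),
        (|E g N q| + 1 / (q.totient : ℝ) * |S g N|) := by
        refine Finset.sum_le_sum fun q _ => ?_
        refine (abs_sub _ _).trans ?_
        rw [abs_mul, abs_of_nonneg (by positivity : (0:ℝ) ≤ 1 / (q.totient : ℝ))]
    _ ≤ _ := by
        refine Finset.sum_le_sum_of_subset_of_nonneg ?_ fun _ _ _ => by positivity
        intro q hq
        obtain ⟨h1, h2⟩ := Finset.mem_filter.mp hq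
        obtain ⟨h3, h4⟩ := Finset.mem_Icc.mp h1
        have hQ0 : 0 ≤ Q := by
          by_contra hcon
          rw [Nat.floor_of_nonpos (by linarith)] at h4
          omega
        have h5 : (q:ℝ) ≤ Q := (Nat.cast_le.mpr h4).trans (Nat.floor_le hQ0)
        refine Finset.mem_filter.mpr ⟨Finset.mem_Ioc.mpr ⟨h3, ?_⟩, hQ q h3 h5⟩
        have : (q:ℝ) ≤ X := h5.trans (hQN.trans (by exact_mod_cast hNX))
        exact_mod_cast this

end Pool.Agent.DEH
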