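import Pool.Agent.Lib.ANT.WeylE

open Complex Polynomial Pool.Agent.ANT

namespace Pool.Agent.DEH

/-- Descent from the coefficients of `γ (F(c + q l) - b) / q` to `γ`. -/
lemma arc_descent {d : ℕ} (hd : 1 ≤ d) {q r : ℕ} (hq : 0 < q) (T : ℕ → ℤ) {a M1 M2 H P γ : ℝ}
    (hTd : (T d : ℝ) = a) (ha : 1 ≤ a) (hM1 : 0 ≤ M1) (hM2 : 1 ≤ M2) (hH : 0 ≤ H) (hP : 1 ≤ P)
    (hn : ∀ j, 1 ≤ j → j ≤ d → nn (r * (γ * (q:ℝ) ^ (j-1) * T j)) ≤ M1 / P ^ j)
    (hT : ∀ j, 1 ≤ j → j < d → |(T j : ℝ)| ≤ H * (q:ℝ) ^ (d - j))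
    (hg : ∀ j, 1 ≤ j → j < d → ((Int.gcd (T j) q : ℕ) : ℝ) ≤ M2)
    (hbig : (a + H) * M2 ^ (d-1) * M1 * q < P) :
    ∃ D : ℕ, 0 < D ∧ (D:ℝ) ≤ a * M2 ^ (d-1) ∧
      nn (((r * D : ℕ) : ℝ) * γ) ≤ M2 ^ (d-1) * M1 / (P ^ d * (q:ℝ) ^ (d-1)) := by
  have hqR : (0:ℝ) < q := by exact_mod_cast hq
  have hq1 : (1:ℝ) ≤ q := by exact_mod_cast hq
  have hP0 : 0 < P := by linarith
  have ha0 : 0 < a := by linarith
  have hind : ∀ i, 1 ≤ i → i ≤ d → ∃ (D : ℕ) (m : ℤ), 0 < D ∧ (D:ℝ) ≤ a * M2 ^ (i-1) ∧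
      |(r:ℝ) * D * (q:ℝ) ^ (d - i) * γ - m| ≤ (D / a) * (M1 / (P ^ d * (q:ℝ) ^ (i-1))) := by
    intro i hi
    induction i, hi using Nat.le_induction with
    | base =>
      intro _
      have hTpos : 0 < T d := by
        have : (0:ℝ) < T d := by rw [hTd]; exact ha0
        exact_mod_cast this
      refine ⟨(T d).toNat, round ((r:ℝ) * (γ * (q:ℝ) ^ (d-1) * T d)), by omega, ?_, ?_⟩
      · have : (((T d).toNat : ℕ) : ℝ) = T d := by exact_mod_cast Int.toNat_of_nonneg hTpos.le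
        rw [this, hTd]; simp
      · have h0 : (((T d).toNat : ℕ) : ℝ) = T d := by exact_mod_cast Int.toNat_of_nonneg hTpos.le
        have h1 := hn d hd le_rfl
        unfold nn at h1
        rw [h0, hTd, div_self ha0.ne', one_mul]
        rw [hTd] at h1
        have e1 : (r:ℝ) * a * (q:ℝ) ^ (d-1) * γ = r * (γ * (q:ℝ) ^ (d-1) * a) := by ring
        rw [e1]
        simpa using h1
    | succ i hi ih =>
      intro hid
      obtain ⟨D, m, hD, hDM, hDm⟩ := ih (by omega)
      have hj1 : 1 ≤ d - i := by omega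
      have hj2 : d - i < d := by omega
      set t := T (d - i) with ht
      set m' := round ((r:ℝ) * (γ * (q:ℝ) ^ (d - i - 1) * t)) with hm'
      have h1 := hn (d - i) hj1 hj2.le
      unfold nn at h1
      rw [← ht, ← hm'] at h1
      have hTt := hT (d - i) hj1 hj2
      rw [← ht, show d - (d - i) = i by omega] at hTt
      have hDR : (0:ℝ) < D := by exact_mod_cast hD
      have hDM' : (D:ℝ) ≤ a * M2 ^ (d-1) := hDM.trans (by
        have := pow_le_pow_right₀ hM2 (show i - 1 ≤ d - 1 by omega)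
        gcongr)
      -- the integer identity
      have hint : m * t = D * q * m' := by
        have h2 : |((m * t - D * q * m' : ℤ) : ℝ)| < 1 := by
          have e1 : ((m * t - D * q * m' : ℤ) : ℝ) =
              D * q * ((r:ℝ) * (γ * (q:ℝ) ^ (d - i - 1) * t) - m') -
                t * ((r:ℝ) * D * (q:ℝ) ^ (d - i) * γ - m) := by
            have : (q:ℝ) ^ (d - i) = q ^ (d - i - 1) * q := by
              rw [← pow_succ]; congr 1; omega
            rw [this]
            push_cast; ring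
          rw [e1]
          refine lt_of_le_of_lt (abs_sub _ _) ?_
          rw [abs_mul (D * q : ℝ), abs_mul (t:ℝ), abs_of_pos (by positivity : (0:ℝ) < D * q)]
          have h3 : (D:ℝ) * q * |(r:ℝ) * (γ * (q:ℝ) ^ (d - i - 1) * t) - m'| ≤
              (a * M2 ^ (d-1)) * q * (M1 / P) := by
            have h4 : M1 / P ^ (d - i) ≤ M1 / P := by
              have : P ≤ P ^ (d - i) := le_self_pow₀ hP (by omega)
              gcongr
            have h5 := h1.trans h4
            gcongr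
          have h4 : |(t:ℝ)| * |(r:ℝ) * D * (q:ℝ) ^ (d - i) * γ - m| ≤
              H * M2 ^ (d-1) * q * (M1 / P) := by
            have h5 : (D:ℝ) / a ≤ M2 ^ (d-1) := by
              rw [div_le_iff₀ ha0]; linarith
            calc |(t:ℝ)| * |(r:ℝ) * D * (q:ℝ) ^ (d - i) * γ - m|
                ≤ (H * (q:ℝ) ^ i) * (M2 ^ (d-1) * (M1 / (P ^ d * (q:ℝ) ^ (i-1)))) := by
                  have := hDm.trans (mul_le_mul_of_nonneg_right h5 (by positivity))
                  gcongr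
              _ = H * M2 ^ (d-1) * q * (M1 / P ^ d) := by
                  have : (q:ℝ) ^ i = q ^ (i-1) * q := by rw [← pow_succ]; congr 1; omega
                  rw [this]; field_simp
              _ ≤ H * M2 ^ (d-1) * q * (M1 / P) := by
                  have : P ≤ P ^ d := le_self_pow₀ hP (by omega)
                  gcongr
          have h6 : (a * M2 ^ (d-1)) * q * (M1 / P) + H * M2 ^ (d-1) * q * (M1 / P) =
              (a + H) * M2 ^ (d-1) * M1 * q / P := by ring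
          have h7 : (a + H) * M2 ^ (d-1) * M1 * q / P < 1 := by
            rw [div_lt_one hP0]; exact hbig
          linarith
        have h3 : |m * t - D * q * m'| < 1 := by exact_mod_cast h2
        have := Int.abs_lt_one_iff.mp h3
        linarith
      set e := Int.gcd t q with he
      have he0 : 0 < e := Int.gcd_pos_of_ne_zero_right _ (by exact_mod_cast hq.ne')
      have hdvd : (q:ℤ) ∣ m * e := by
        have h2 : (q:ℤ) ∣ m * t := ⟨D * m', by rw [hint]; ring⟩
        have h3 : (q:ℤ) ∣ m * q := dvd_mul_left _ _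
        have h4 := Int.dvd_coe_gcd h2 h3
        rw [Int.gcd_mul_left] at h4
        push_cast at h4
        rw [← he] at h4
        have h5 : |m| * (e:ℤ) = |m * e| := by rw [abs_mul, abs_of_nonneg (by positivity : (0:ℤ) ≤ e)]
        rw [h5] at h4
        exact (dvd_abs _ _).mp h4
      obtain ⟨m2, hm2⟩ := hdvd
      have heR : (0:ℝ) < e := by exact_mod_cast he0
      refine ⟨D * e, m2, by positivity, ?_, ?_⟩
      · have h2 := hg (d - i) hj1 hj2
        rw [← ht, ← he] at h2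
        push_cast
        calc (D:ℝ) * e ≤ (a * M2 ^ (i-1)) * M2 := by gcongr
          _ = a * M2 ^ (i + 1 - 1) := by
              rw [mul_assoc, ← pow_succ]; congr 2; omega
      · have hm2' : (m2:ℝ) = m * e / q := by
          have : (m:ℝ) * e = q * m2 := by exact_mod_cast hm2
          rw [this]; field_simp
        have hqd : (q:ℝ) ^ (d - i) = q ^ (d - (i+1)) * q := by rw [← pow_succ]; congr 1; omega
        have hqi : (q:ℝ) ^ (i + 1 - 1) = q ^ (i-1) * q := by rw [← pow_succ]; congr 1; omega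
        have e1 : (r:ℝ) * ((D * e : ℕ) : ℝ) * (q:ℝ) ^ (d - (i+1)) * γ - m2 =
            (e / q) * ((r:ℝ) * D * (q:ℝ) ^ (d - i) * γ - m) := by
          rw [hm2', hqd]; push_cast; field_simp
        rw [e1, abs_mul, abs_of_pos (by positivity : (0:ℝ) < e / q)]
        calc (e:ℝ) / q * |(r:ℝ) * D * (q:ℝ) ^ (d - i) * γ - m|
            ≤ (e / q) * ((D / a) * (M1 / (P ^ d * (q:ℝ) ^ (i-1)))) := by gcongr
          _ = _ := by rw [hqi]; push_cast; field_simp
  obtain ⟨D, m, hD, hDM, hDm⟩ := hind d hd le_rfl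
  refine ⟨D, hD, hDM, ?_⟩
  have h1 := nn_le_abs_sub_int (((r * D : ℕ) : ℝ) * γ) m
  refine h1.trans ?_
  rw [Nat.sub_self, pow_zero, mul_one] at hDm
  push_cast
  have h5 : (D:ℝ) / a ≤ M2 ^ (d-1) := by
    rw [div_le_iff₀ ha0]; linarith
  calc |(r:ℝ) * D * γ - m| ≤ (D / a) * (M1 / (P ^ d * (q:ℝ) ^ (d-1))) := hDm
    _ ≤ M2 ^ (d-1) * (M1 / (P ^ d * (q:ℝ) ^ (d-1))) := by gcongr
    _ = _ := by ring

/-- Counting frequencies close to a rational with denominator `ρ`. -/
lemma count_near {M ρ : ℕ} (hM : 0 < M) (hρ : 0 < ρ) {δ : ℝ} (hδ : 0 ≤ δ) :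
    (((Finset.range M).filter (fun s : ℕ => nn (ρ * ((s:ℝ) / M)) ≤ δ)).card : ℝ) ≤
      (ρ + 1) * (2 * δ * M + 1) := by
  classical
  have hMR : (0:ℝ) < M := by exact_mod_cast hM
  have hρR : (0:ℝ) < ρ := by exact_mod_cast hρ
  have hρ1 : (1:ℝ) ≤ ρ := by exact_mod_cast hρ
  set S := (Finset.range M).filter (fun s : ℕ => nn (ρ * ((s:ℝ) / M)) ≤ δ) with hS
  have hmaps : ∀ s ∈ S, (round ((ρ:ℝ) * ((s:ℝ) / M))) ∈ Finset.Icc (0:ℤ) ρ := by
    intro s hs
    have h1 := Finset.mem_range.mp (Finset.mem_filter.mp hs).1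
    have h2 : (s:ℝ) / M ≤ 1 := by
      rw [div_le_one hMR]; exact_mod_cast h1.le
    have h3 : (0:ℝ) ≤ (s:ℝ) / M := by positivity
    rw [round_eq]
    refine Finset.mem_Icc.mpr ⟨Int.floor_nonneg.mpr (by positivity), ?_⟩
    have h4 : (ρ:ℝ) * ((s:ℝ) / M) + 1/2 < ((ρ:ℤ) : ℝ) + 1 := by
      push_cast
      have := mul_le_mul_of_nonneg_left h2 hρR.le
      linarith
    have h5 := Int.floor_lt.mpr (show (ρ:ℝ) * ((s:ℝ) / M) + 1/2 < (((ρ:ℤ) + 1 : ℤ) : ℝ) by
      push_cast at h4 ⊢; exact h4)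
    omega
  have hcard := Finset.card_eq_sum_card_fiberwise hmaps
  have hfib : ∀ k ∈ Finset.Icc (0:ℤ) ρ,
      (((S.filter (fun s : ℕ => round ((ρ:ℝ) * ((s:ℝ) / M)) = k)).card : ℕ) : ℝ) ≤ 2 * δ * M + 1 := by
    intro k _
    set x : ℝ := (k - δ) * M / ρ with hx
    set y : ℝ := (k + δ) * M / ρ with hy
    have hxy : x ≤ y := by rw [hx, hy]; gcongr; linarith
    have hsub : (S.filter (fun s : ℕ => round ((ρ:ℝ) * ((s:ℝ) / M)) = k)).card ≤
        (Finset.Icc ⌈x⌉ ⌊y⌋).card := by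
      refine Finset.card_le_card_of_injOn (fun s : ℕ => (s:ℤ)) ?_ ?_
      · intro s hs
        obtain ⟨h1, h2⟩ := Finset.mem_filter.mp hs
        have h3 := (Finset.mem_filter.mp h1).2
        unfold nn at h3
        rw [h2] at h3
        obtain ⟨h4, h5⟩ := abs_le.mp h3
        refine Finset.mem_coe.mpr (Finset.mem_Icc.mpr ⟨Int.ceil_le.mpr ?_, Int.le_floor.mpr ?_⟩)
        · rw [hx, div_le_iff₀ hρR]
          push_cast
          have : (ρ:ℝ) * ((s:ℝ) / M) * M = s * ρ := by field_simp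
          nlinarith
        · rw [hy, le_div_iff₀ hρR]
          push_cast
          have : (ρ:ℝ) * ((s:ℝ) / M) * M = s * ρ := by field_simp
          nlinarith
      · intro a _ b _ hab
        have hab' : (a:ℤ) = b := hab
        exact_mod_cast hab'
    have h1 : ((Finset.Icc ⌈x⌉ ⌊y⌋).card : ℝ) ≤ y - x + 1 := by
      rw [Int.card_Icc]
      have h2 : (((⌊y⌋ + 1 - ⌈x⌉).toNat : ℕ) : ℝ) ≤ max (((⌊y⌋ + 1 - ⌈x⌉ : ℤ)) : ℝ) 0 := by
        rw [← Int.cast_natCast, Int.toNat_eq_max]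
        push_cast
        exact le_rfl
      refine h2.trans (max_le ?_ (by linarith))
      push_cast
      have := Int.floor_le y
      have := Int.le_ceil x
      linarith
    have h2 : y - x ≤ 2 * δ * M := by
      rw [hx, hy, ← sub_div]
      have : (k + δ) * (M:ℝ) - (k - δ) * M = 2 * δ * M := by ring
      rw [this]
      exact div_le_self (by positivity) hρ1
    calc _ ≤ ((Finset.Icc ⌈x⌉ ⌊y⌋).card : ℝ) := by exact_mod_cast hsub
      _ ≤ _ := by linarith
  rw [hcard]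
  push_cast
  calc _ ≤ ∑ _k ∈ Finset.Icc (0:ℤ) ρ, (2 * δ * M + 1) := Finset.sum_le_sum hfib
    _ = _ := by
        rw [Finset.sum_const, nsmul_eq_mul, Int.card_Icc]
        congr 1
        have : ((ρ:ℤ) + 1 - 0).toNat = ρ + 1 := by omega
        rw [this]; push_cast; ring

end Pool.Agent.DEH
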