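import Pool.Agent.DEH.Defs
import Pool.Agent.Lib.ANT.Major
import Pool.Agent.Lib.ANT.Parseval
import Pool.Agent.Lib.ANT.SW

open Complex Pool.Agent.ANT

namespace Pool.Agent.DEH

lemma E_one (g : ℕ → ℝ) (N : ℕ) : E g N 1 = S g N := by
  unfold E S
  congr 1
  exact Finset.filter_true_of_mem fun n _ => Nat.modEq_one

lemma D_mono (g : ℕ → ℝ) (N : ℕ) {Q Q' : ℝ} (h : Q ≤ Q') : D g N Q ≤ D g N Q' := by
  unfold D
  refine Finset.sum_le_sum_of_subset_of_nonneg ?_ fun _ _ _ => abs_nonneg _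
  intro q hq
  obtain ⟨h1, h2⟩ := Finset.mem_filter.mp hq
  obtain ⟨h3, h4⟩ := Finset.mem_Icc.mp h1
  exact Finset.mem_filter.mpr ⟨Finset.mem_Icc.mpr ⟨h3, h4.trans (Nat.floor_le_floor h)⟩, h2⟩

/-- A weight whose exponential sums over multiples of `q` are uniformly small. -/
def Good (g : ℕ → ℝ) : Prop := ∀ m : ℕ, ∃ C : ℝ, 0 < C ∧ ∀ (q X : ℕ), 1 ≤ q → ∀ α : ℝ,
  ‖∑ n ∈ Finset.Ioc 0 X, (if q ∣ n then (g n : ℂ) else 0) * ee (n * α)‖ ≤
    C * (1 + Real.log X) * 4 ^ q.primeFactors.card * phim m ((X / q : ℕ) : ℝ)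

lemma muC_mul' {q k : ℕ} : muC (q * k) = if k.Coprime q then muC q * muC k else 0 := by
  unfold muC
  split_ifs with h
  · rw [ArithmeticFunction.isMultiplicative_moebius.map_mul_of_coprime h.symm]
    push_cast; ring
  · have : ¬ Squarefree (q * k) := fun hsq => h (Nat.coprime_of_squarefree_mul hsq).symm
    rw [ArithmeticFunction.moebius_eq_zero_of_not_squarefree this]
    simp

/-- rotations -/
def RotClass : Set (ℕ → ℂ) := {g | ∃ α : ℝ, g = fun n : ℕ => ee (n * α)}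

lemma rot_closed : DilClosed RotClass := by
  rintro g ⟨α, rfl⟩ p _
  refine ⟨p * α, ?_⟩
  ext n
  show ee (((p * n : ℕ) : ℝ) * α) = ee (n * (p * α))
  congr 1
  push_cast; ring

/-- Reindexing multiples of `q`. -/
lemma sum_multiples {q X : ℕ} (hq : 1 ≤ q) (h : ℕ → ℂ) :
    ∑ n ∈ Finset.Ioc 0 X, (if q ∣ n then h n else 0) = ∑ k ∈ Finset.Ioc 0 (X / q), h (q * k) := by
  rw [← Finset.sum_filter]
  symm
  refine Finset.sum_bij' (fun k _ => q * k) (fun n _ => n / q) ?_ ?_ ?_ ?_ ?_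
  · intro k hk
    obtain ⟨hk3, hk4⟩ := Finset.mem_Ioc.mp hk
    refine Finset.mem_filter.mpr ⟨Finset.mem_Ioc.mpr ⟨Nat.mul_pos hq hk3, ?_⟩, dvd_mul_right q k⟩
    rw [mul_comm]; exact (Nat.le_div_iff_mul_le hq).mp hk4
  · intro n hn
    obtain ⟨hn1, hn2⟩ := Finset.mem_filter.mp hn
    obtain ⟨hn4, hn5⟩ := Finset.mem_Ioc.mp hn1
    obtain ⟨k, rfl⟩ := hn2
    have hk : 0 < k := Nat.pos_of_ne_zero (by rintro rfl; simp at hn4)
    rw [Nat.mul_div_cancel_left _ hq]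
    refine Finset.mem_Ioc.mpr ⟨hk, ?_⟩
    rw [Nat.le_div_iff_mul_le hq, mul_comm]; exact hn5
  · intro k _
    exact Nat.mul_div_cancel_left _ hq
  · intro n hn
    exact Nat.mul_div_cancel' (Finset.mem_filter.mp hn).2
  · intro k _; rfl

lemma mu_mult_bound (m : ℕ) : ∃ C : ℝ, 0 < C ∧ ∀ (q X : ℕ), 1 ≤ q → ∀ α : ℝ,
    ‖∑ n ∈ Finset.Ioc 0 X, (if q ∣ n then muC n * ee (n * α) else 0)‖ ≤
    C * 4 ^ q.primeFactors.card * phim m ((X / q : ℕ) : ℝ) := by
  obtain ⟨C, hC, h⟩ := davenport m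
  refine ⟨C, hC, fun q X hq α => ?_⟩
  have hq0 : q ≠ 0 := by omega
  have h1 := SS_remove rot_closed hC.le (m := m) (by
    rintro g ⟨α, rfl⟩ N
    exact h N α) q.primeFactors (fun p hp => Nat.prime_of_mem_primeFactors hp)
    (fun n : ℕ => ee (n * (q * α))) ⟨q * α, rfl⟩ (X / q)
  rw [SS_primeFactors hq0] at h1
  rw [sum_multiples hq (fun n => muC n * ee (n * α))]
  have e1 : ∑ k ∈ Finset.Ioc 0 (X / q), muC (q * k) * ee (((q * k : ℕ):ℝ) * α) =
      muC q * ∑ n ∈ (Finset.Ioc 0 (X/q)).filter (fun n => n.Coprime q), muC n * ee (n * (q * α)) := by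
    rw [Finset.mul_sum, Finset.sum_filter]
    refine Finset.sum_congr rfl fun k _ => ?_
    rw [muC_mul']
    have : (((q * k : ℕ):ℝ) * α) = k * (q * α) := by push_cast; ring
    rw [this]
    split_ifs
    · ring
    · ring
  rw [e1, norm_mul]
  calc ‖muC q‖ * _ ≤ 1 * (4 ^ q.primeFactors.card * C * phim m ((X / q : ℕ) : ℝ)) :=
        mul_le_mul (norm_muC_le q) h1 (norm_nonneg _) zero_le_one
    _ = _ := by ring

lemma good_g1 : Good g1 := by
  intro m
  obtain ⟨C, hC, h⟩ := mu_mult_bound m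
  refine ⟨C, hC, fun q X hq α => ?_⟩
  have e1 : ∑ n ∈ Finset.Ioc 0 X, (if q ∣ n then (g1 n : ℂ) else 0) * ee (n * α) =
      ∑ n ∈ Finset.Ioc 0 X, (if q ∣ n then muC n * ee (n * α) else 0) := by
    refine Finset.sum_congr rfl fun n _ => ?_
    split_ifs
    · unfold g1 muC; push_cast; ring
    · ring
  rw [e1]
  have hlX : 0 ≤ Real.log X := Real.log_natCast_nonneg X
  have hph := phim_nat_nonneg m (X / q)
  calc _ ≤ _ := h q X hq α
    _ = C * 1 * 4 ^ q.primeFactors.card * phim m ((X / q : ℕ) : ℝ) := by ring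
    _ ≤ _ := by
      gcongr
      linarith

lemma good_g2 : Good g2 := by
  intro m
  obtain ⟨C, hC, h⟩ := mu_mult_bound m
  refine ⟨2 * C, by positivity, fun q X hq α => ?_⟩
  have hlX : 0 ≤ Real.log X := Real.log_natCast_nonneg X
  have hph := phim_nat_nonneg m (X / q)
  rcases Nat.eq_zero_or_pos X with rfl | hX
  · simp [phim]
  have hX1 : (1:ℝ) ≤ X := by exact_mod_cast hX
  set b : ℕ → ℂ := fun n => if q ∣ n then muC n * ee (n * α) else 0 with hb
  set T : ℝ := C * 4 ^ q.primeFactors.card * phim m ((X / q : ℕ) : ℝ) with hT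
  have hT0 : 0 ≤ T := by positivity
  have hpart : ∀ u, u ≤ X → ‖∑ n ∈ Finset.Ioc 0 u, b n‖ ≤ T := by
    intro u hu
    refine (h q u hq α).trans ?_
    have := phim_nat_mono m (Nat.div_le_div_right hu (c := q))
    rw [hT]
    gcongr
  set w : ℕ → ℝ := fun n => max (Real.log X - Real.log n) 0 with hw
  have h1 : ‖∑ n ∈ Finset.Ioc 0 X, b n * (w n : ℂ)‖ ≤ T * w 1 := by
    refine abel_Ioc (fun n _ => le_max_right _ _) (fun n hn => ?_) hpart
    refine max_le_max ?_ le_rfl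
    have : Real.log n ≤ Real.log ((n+1:ℕ):ℝ) :=
      Real.log_le_log (by exact_mod_cast hn) (by push_cast; linarith)
    linarith
  have hw1 : w 1 = Real.log X := by
    rw [hw]; simp [hlX]
  have h2 : ∑ n ∈ Finset.Ioc 0 X, (if q ∣ n then (g2 n : ℂ) else 0) * ee (n * α) =
      (Real.log X : ℂ) * ∑ n ∈ Finset.Ioc 0 X, b n - ∑ n ∈ Finset.Ioc 0 X, b n * (w n : ℂ) := by
    rw [Finset.mul_sum, ← Finset.sum_sub_distrib]
    refine Finset.sum_congr rfl fun n hn => ?_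
    obtain ⟨hn1, hn2⟩ := Finset.mem_Ioc.mp hn
    have : w n = Real.log X - Real.log n := by
      rw [hw]
      refine max_eq_left (sub_nonneg.mpr (Real.log_le_log (by exact_mod_cast hn1) ?_))
      exact_mod_cast hn2
    rw [this]
    simp only [hb]
    split_ifs
    · unfold g2 muC; push_cast; ring
    · push_cast; ring
  rw [h2]
  calc _ ≤ ‖(Real.log X : ℂ) * ∑ n ∈ Finset.Ioc 0 X, b n‖ + ‖∑ n ∈ Finset.Ioc 0 X, b n * (w n : ℂ)‖ :=
        norm_sub_le _ _
    _ ≤ Real.log X * T + T * w 1 := by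
        refine add_le_add ?_ h1
        rw [norm_mul, Complex.norm_real, Real.norm_of_nonneg hlX]
        exact mul_le_mul_of_nonneg_left (hpart X le_rfl) hlX
    _ = 2 * Real.log X * T := by rw [hw1]; ring
    _ ≤ 2 * (1 + Real.log X) * T := by gcongr; linarith
    _ = _ := by rw [hT]; ring

/-- `ℓ²` norm of `Λ`. -/
lemma sum_Lambda_sq_le (X : ℕ) :
    ∑ n ∈ Finset.Ioc 0 X, ‖((ArithmeticFunction.vonMangoldt n : ℝ) : ℂ)‖ ^ 2 ≤
      6 * X * (1 + Real.log X) := by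
  have hlX : 0 ≤ Real.log X := Real.log_natCast_nonneg X
  have h1 := sum_vonMangoldt_le (x := X) (by positivity)
  rw [Nat.floor_natCast] at h1
  calc _ ≤ ∑ n ∈ Finset.Ioc 0 X, ArithmeticFunction.vonMangoldt n * (1 + Real.log X) := by
        refine Finset.sum_le_sum fun n hn => ?_
        obtain ⟨hn1, hn2⟩ := Finset.mem_Ioc.mp hn
        have h0 : 0 ≤ ArithmeticFunction.vonMangoldt n := ArithmeticFunction.vonMangoldt_nonneg
        rw [Complex.norm_real, Real.norm_of_nonneg h0, sq]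
        have h2 : ArithmeticFunction.vonMangoldt n ≤ Real.log n := ArithmeticFunction.vonMangoldt_le_log
        have h3 : Real.log n ≤ Real.log X :=
          Real.log_le_log (by exact_mod_cast hn1) (by exact_mod_cast hn2)
        gcongr
        linarith
    _ = (∑ n ∈ Finset.Ioc 0 X, ArithmeticFunction.vonMangoldt n) * (1 + Real.log X) := by
        rw [Finset.sum_mul]
    _ ≤ _ := by gcongr

/-- Mean square over `N` for one modulus. -/
lemma E_mean_square {g : ℕ → ℝ} {q X : ℕ} {B : ℝ}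
    (hB : ∀ α : ℝ, ‖∑ n ∈ Finset.Ioc 0 X, (if q ∣ n then (g n : ℂ) else 0) * ee (n * α)‖ ≤ B) :
    ∑ N ∈ Finset.Ioc 0 X, E g N q ^ 2 ≤ B ^ 2 * (6 * X * (1 + Real.log X)) := by
  have h1 := conv_l2 (f := fun n => ((ArithmeticFunction.vonMangoldt n : ℝ) : ℂ))
    (g := fun n => if q ∣ n then (g n : ℂ) else 0) (X := X) hB
  have h2 : ∀ N ∈ Finset.Ioc 0 X, ‖∑ n ∈ Finset.Ico 1 N, ((ArithmeticFunction.vonMangoldt n : ℝ) : ℂ) *
      (if q ∣ (N - n) then (g (N - n) : ℂ) else 0)‖ ^ 2 = E g N q ^ 2 := by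
    intro N _
    have e1 : ∑ n ∈ Finset.Ico 1 N, ((ArithmeticFunction.vonMangoldt n : ℝ) : ℂ) *
      (if q ∣ (N - n) then (g (N - n) : ℂ) else 0) = ((E g N q : ℝ) : ℂ) := by
      unfold E
      rw [Finset.sum_filter, Complex.ofReal_sum]
      refine Finset.sum_congr rfl fun n hn => ?_
      obtain ⟨hn1, hn2⟩ := Finset.mem_Ico.mp hn
      have : n ≡ N [MOD q] ↔ q ∣ N - n := Nat.modEq_iff_dvd' hn2.le
      by_cases h : q ∣ N - n
      · rw [if_pos h, if_pos (this.mpr h)]; push_cast; ring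
      · rw [if_neg h, if_neg (fun h' => h (this.mp h'))]; simp
    rw [e1, Complex.norm_real, Real.norm_eq_abs, sq_abs]
  rw [Finset.sum_congr rfl h2] at h1
  exact h1.trans (mul_le_mul_of_nonneg_left (sum_Lambda_sq_le X) (by positivity))

end Pool.Agent.DEH
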