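import Pool.Agent.DEH.PolyArc
import Pool.Agent.DEH.Weights

open Complex Polynomial Pool.Agent.ANT

namespace Pool.Agent.DEH

/-- The large-frequency form of the circle method on `ℤ/M`. -/
lemma circle_bound {M : ℕ} (hM : 0 < M) (G : ℕ → ℂ) (K : Finset ℕ) (L : ℕ → ℤ) {w Gm : ℝ}
    (hw0 : 0 ≤ w) (Bad : Finset ℕ)
    (hw : ∀ s ∈ Finset.range M, s ∉ Bad → ‖∑ k ∈ K, ee (L k * ((s:ℝ) / M))‖ ≤ w)
    (hGm : ∀ t, ‖G t‖ ≤ Gm) :
    ∑ k ∈ K, ‖∑ t ∈ Finset.range M, G t * ee (-(L k * ((t:ℝ) / M)))‖ ^ 2 ≤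
      w * (∑ t ∈ Finset.range M, ‖G t‖) ^ 2 +
        K.card * Bad.card * Gm * ∑ t ∈ Finset.range M, ‖G t‖ := by
  classical
  have hMR : (0:ℝ) < M := by exact_mod_cast hM
  set W : ℕ → ℕ → ℂ := fun t u => ∑ k ∈ K, ee (L k * (((u:ℝ) - t) / M)) with hW
  have hexp : ((∑ k ∈ K, ‖∑ t ∈ Finset.range M, G t * ee (-(L k * ((t:ℝ) / M)))‖ ^ 2 : ℝ) : ℂ) =
      ∑ t ∈ Finset.range M, ∑ u ∈ Finset.range M, G t * (starRingEnd ℂ) (G u) * W t u := by
    push_cast
    simp_rw [← Complex.mul_conj', map_sum, Finset.sum_mul_sum]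
    rw [Finset.sum_comm]
    refine Finset.sum_congr rfl fun t _ => ?_
    rw [Finset.sum_comm]
    refine Finset.sum_congr rfl fun u _ => ?_
    simp only [hW]
    rw [Finset.mul_sum]
    refine Finset.sum_congr rfl fun k _ => ?_
    rw [map_mul, conj_ee]
    have : ee (L k * (((u:ℝ) - t) / M)) = ee (-(L k * ((t:ℝ) / M))) * ee (- -(L k * ((u:ℝ) / M))) := by
      rw [← ee_add]; congr 1; ring
    rw [this]; ring
  have hWs : ∀ t ∈ Finset.range M, ∀ u ∈ Finset.range M,
      ‖W t u‖ ≤ w + (if (u + (M - t)) % M ∈ Bad then (K.card : ℝ) else 0) := by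
    intro t ht u hu
    have ht' := (Finset.mem_range.mp ht).le
    set s := (u + (M - t)) % M with hs
    have hsM : s ∈ Finset.range M := Finset.mem_range.mpr (Nat.mod_lt _ hM)
    have hWeq : W t u = ∑ k ∈ K, ee (L k * ((s:ℝ) / M)) := by
      simp only [hW]
      refine Finset.sum_congr rfl fun k _ => ?_
      have h1 := Nat.div_add_mod (u + (M - t)) M
      rw [← hs] at h1
      generalize (u + (M - t)) / M = κ at h1
      have h2 : ((u:ℝ) - t) = s + M * κ - M := by
        have h3 : (M:ℝ) * κ + s = u + (M - t) := by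
          have : ((M * κ + s : ℕ) : ℝ) = ((u + (M - t) : ℕ) : ℝ) := by rw [h1]
          push_cast [Nat.cast_sub ht'] at this
          exact this
        linarith
      have h3 : (L k : ℝ) * (((u:ℝ) - t) / M) = L k * ((s:ℝ) / M) +
          ((L k * ((κ:ℤ) - 1) : ℤ) : ℝ) := by
        rw [h2]; push_cast; field_simp; ring
      rw [h3, ee_add_int]
    by_cases hb : s ∈ Bad
    · rw [if_pos hb, hWeq]
      refine (norm_sum_le _ _).trans ?_
      have : ∑ k ∈ K, ‖ee (L k * ((s:ℝ) / M))‖ = K.card := by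
        simp [norm_ee]
      rw [this]; linarith
    · rw [if_neg hb, hWeq, add_zero]
      exact hw s hsM hb
  have hGm0 : 0 ≤ Gm := (norm_nonneg _).trans (hGm 0)
  have hmain : ∑ k ∈ K, ‖∑ t ∈ Finset.range M, G t * ee (-(L k * ((t:ℝ) / M)))‖ ^ 2 ≤
      ∑ t ∈ Finset.range M, ∑ u ∈ Finset.range M, ‖G t‖ * ‖G u‖ *
        (w + (if (u + (M - t)) % M ∈ Bad then (K.card : ℝ) else 0)) := by
    have h1 : ∑ k ∈ K, ‖∑ t ∈ Finset.range M, G t * ee (-(L k * ((t:ℝ) / M)))‖ ^ 2 =
        ‖((∑ k ∈ K, ‖∑ t ∈ Finset.range M, G t * ee (-(L k * ((t:ℝ) / M)))‖ ^ 2 : ℝ) : ℂ)‖ := by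
      rw [Complex.norm_real, Real.norm_of_nonneg]
      exact Finset.sum_nonneg fun _ _ => by positivity
    rw [h1, hexp]
    refine (norm_sum_le _ _).trans (Finset.sum_le_sum fun t ht => ?_)
    refine (norm_sum_le _ _).trans (Finset.sum_le_sum fun u hu => ?_)
    rw [norm_mul, norm_mul, RCLike.norm_conj]
    exact mul_le_mul_of_nonneg_left (hWs t ht u hu) (by positivity)
  refine hmain.trans ?_
  have hsplit : ∑ t ∈ Finset.range M, ∑ u ∈ Finset.range M, ‖G t‖ * ‖G u‖ *
        (w + (if (u + (M - t)) % M ∈ Bad then (K.card : ℝ) else 0)) =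
      w * (∑ t ∈ Finset.range M, ‖G t‖) ^ 2 + ∑ t ∈ Finset.range M, ‖G t‖ * (K.card *
        ∑ u ∈ Finset.range M, (if (u + (M - t)) % M ∈ Bad then ‖G u‖ else 0)) := by
    rw [sq, Finset.sum_mul_sum, Finset.mul_sum, ← Finset.sum_add_distrib]
    refine Finset.sum_congr rfl fun t _ => ?_
    rw [Finset.mul_sum, Finset.mul_sum, Finset.mul_sum, ← Finset.sum_add_distrib]
    refine Finset.sum_congr rfl fun u _ => ?_
    split_ifs <;> ring
  rw [hsplit]
  refine add_le_add le_rfl ?_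
  have hin : ∀ t ∈ Finset.range M, ∑ u ∈ Finset.range M,
      (if (u + (M - t)) % M ∈ Bad then ‖G u‖ else 0) ≤ Bad.card * Gm := by
    intro t ht
    have ht' := (Finset.mem_range.mp ht).le
    rw [← Finset.sum_filter]
    have h1 : ((Finset.range M).filter (fun u => (u + (M - t)) % M ∈ Bad)).card ≤ Bad.card := by
      refine Finset.card_le_card_of_injOn (fun u => (u + (M - t)) % M) ?_ ?_
      · intro u hu; exact (Finset.mem_filter.mp hu).2
      · intro u hu v hv huv
        have h2 := Finset.mem_range.mp (Finset.mem_filter.mp hu).1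
        have h3 := Finset.mem_range.mp (Finset.mem_filter.mp hv).1
        have h4 : u + (M - t) ≡ v + (M - t) [MOD M] := huv
        have h5 := Nat.ModEq.add_right_cancel' _ h4
        exact Nat.ModEq.eq_of_lt_of_lt h5 h2 h3
    calc _ ≤ ∑ _u ∈ (Finset.range M).filter (fun u => (u + (M - t)) % M ∈ Bad), Gm :=
          Finset.sum_le_sum fun u _ => hGm u
      _ = (((Finset.range M).filter (fun u => (u + (M - t)) % M ∈ Bad)).card : ℝ) * Gm := by
          rw [Finset.sum_const, nsmul_eq_mul]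
      _ ≤ _ := by
          have : ((((Finset.range M).filter (fun u => (u + (M - t)) % M ∈ Bad)).card : ℕ) : ℝ) ≤
            Bad.card := by exact_mod_cast h1
          gcongr
  calc _ ≤ ∑ t ∈ Finset.range M, ‖G t‖ * (K.card * (Bad.card * Gm)) := by
        refine Finset.sum_le_sum fun t ht => ?_
        have := hin t ht
        gcongr
    _ = _ := by rw [← Finset.sum_mul]; ring

/-- Fourier inversion of a convolution on `ℤ/M`. -/
lemma conv_inversion {M Y : ℕ} (hYM : 2 * Y < M) (A B : ℕ → ℂ) {L : ℕ} (hL : L ≤ Y) :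
    (M:ℂ) * ∑ x ∈ Finset.HasAntidiagonal.antidiagonal L, A x.1 * B x.2 =
      ∑ t ∈ Finset.range M, ((∑ i ∈ Finset.range (Y+1), A i * ee (i * ((t:ℝ) / M))) *
        (∑ j ∈ Finset.range (Y+1), B j * ee (j * ((t:ℝ) / M)))) * ee (-(((L:ℕ):ℤ) * ((t:ℝ) / M))) := by
  have h1 : ∀ t : ℕ, ((∑ i ∈ Finset.range (Y+1), A i * ee (i * ((t:ℝ) / M))) *
        (∑ j ∈ Finset.range (Y+1), B j * ee (j * ((t:ℝ) / M)))) * ee (-(((L:ℕ):ℤ) * ((t:ℝ) / M))) =
      ∑ x ∈ Finset.range (Y+1) ×ˢ Finset.range (Y+1), A x.1 * B x.2 *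
        (ee (((x.1 + x.2 : ℕ) : ℝ) * ((t:ℝ) / M)) * (starRingEnd ℂ) (ee (L * ((t:ℝ) / M)))) := by
    intro t
    rw [Finset.sum_mul_sum, ← Finset.sum_product', Finset.sum_mul]
    refine Finset.sum_congr rfl fun x _ => ?_
    rw [conj_ee]
    have : ee (((x.1 + x.2 : ℕ) : ℝ) * ((t:ℝ) / M)) = ee (x.1 * ((t:ℝ) / M)) * ee (x.2 * ((t:ℝ) / M)) := by
      rw [← ee_add]; congr 1; push_cast; ring
    rw [this]
    push_cast
    ring
  simp_rw [h1]
  rw [Finset.sum_comm]
  simp_rw [← Finset.mul_sum]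
  have h2 : ∀ x ∈ Finset.range (Y+1) ×ˢ Finset.range (Y+1),
      A x.1 * B x.2 * ∑ t ∈ Finset.range M, ee (((x.1 + x.2 : ℕ) : ℝ) * ((t:ℝ) / M)) *
        (starRingEnd ℂ) (ee (L * ((t:ℝ) / M))) =
      if x.1 + x.2 = L then (M:ℂ) * (A x.1 * B x.2) else 0 := by
    intro x hx
    obtain ⟨hx1, hx2⟩ := Finset.mem_product.mp hx
    have h3 := Finset.mem_range.mp hx1
    have h4 := Finset.mem_range.mp hx2
    rw [orth_ee (by omega) (by omega)]
    split_ifs with h
    · ring
    · ring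
  rw [Finset.sum_congr rfl h2, ← Finset.sum_filter, Finset.mul_sum]
  refine Finset.sum_congr ?_ fun _ _ => rfl
  ext x
  simp only [Finset.HasAntidiagonal.mem_antidiagonal, Finset.mem_filter, Finset.mem_product, Finset.mem_range]
  constructor
  · intro h; exact ⟨⟨by omega, by omega⟩, h⟩
  · intro h; exact h.2

/-- `E` as a convolution. -/
lemma E_eq_conv {g : ℕ → ℝ} (hg : g 0 = 0) {N q : ℕ} (hN : 1 ≤ N) (hq : 1 ≤ q) :
    E g N q = ∑ x ∈ Finset.HasAntidiagonal.antidiagonal (N / q),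
      ArithmeticFunction.vonMangoldt (q * x.1 + N % q) * g (q * x.2) := by
  unfold E
  have hNq := Nat.div_add_mod N q
  have hmod := Nat.mod_lt N hq
  set L := N / q with hL
  set b := N % q with hb
  symm
  -- restrict to x with x.2 ≥ 1 and q x.1 + b ≥ 1
  have h1 : ∑ x ∈ Finset.HasAntidiagonal.antidiagonal L, ArithmeticFunction.vonMangoldt (q * x.1 + b) * g (q * x.2) =
      ∑ x ∈ (Finset.HasAntidiagonal.antidiagonal L).filter (fun x => 1 ≤ x.2 ∧ 1 ≤ q * x.1 + b),
        ArithmeticFunction.vonMangoldt (q * x.1 + b) * g (q * x.2) := by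
    rw [Finset.sum_filter]
    refine Finset.sum_congr rfl fun x _ => ?_
    split_ifs with h
    · rfl
    · rcases Nat.eq_zero_or_pos x.2 with h0 | h0
      · rw [h0, mul_zero, hg, mul_zero]
      · have h2 : q * x.1 + b = 0 := by
          by_contra h3
          exact h ⟨h0, Nat.one_le_iff_ne_zero.mpr h3⟩
        rw [h2]; simp
  rw [h1]
  refine Finset.sum_bij' (fun x _ => q * x.1 + b) (fun n _ => ((n - b) / q, (N - n) / q)) ?_ ?_ ?_ ?_ ?_
  · intro x hx
    obtain ⟨h2, h3, h4⟩ := Finset.mem_filter.mp hx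
    have h5 := Finset.HasAntidiagonal.mem_antidiagonal.mp h2
    have h6 : q * x.2 ≥ q := Nat.le_mul_of_pos_right q h3
    have h7 : q * x.1 + b + q * x.2 = N := by rw [← hNq, ← h5]; ring
    refine Finset.mem_filter.mpr ⟨Finset.mem_Ico.mpr ⟨h4, by omega⟩, ?_⟩
    rw [Nat.modEq_iff_dvd' (by omega)]
    exact ⟨x.2, by omega⟩
  · intro n hn
    obtain ⟨h2, h3⟩ := Finset.mem_filter.mp hn
    obtain ⟨h4, h5⟩ := Finset.mem_Ico.mp h2
    have h6 : n % q = b := h3
    have h7 := Nat.div_add_mod n q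
    rw [h6] at h7
    have h8 : n - b = q * (n / q) := by omega
    have h9 : N - n = q * (L - n / q) := by
      rw [Nat.mul_sub]; omega
    have h10 : n / q ≤ L := Nat.div_le_div_right h5.le
    rw [h8, h9, Nat.mul_div_cancel_left _ hq, Nat.mul_div_cancel_left _ hq]
    refine Finset.mem_filter.mpr ⟨Finset.HasAntidiagonal.mem_antidiagonal.mpr ?_, ?_, ?_⟩
    · show n / q + (L - n / q) = L
      omega
    · show 1 ≤ L - n / q
      by_contra hcon
      have : L - n / q = 0 := by omega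
      rw [this, mul_zero] at h9
      omega
    · show 1 ≤ q * (n / q) + b
      omega
  · intro x hx
    obtain ⟨h2, h3, h4⟩ := Finset.mem_filter.mp hx
    have h5 := Finset.HasAntidiagonal.mem_antidiagonal.mp h2
    have h7 : q * x.1 + b + q * x.2 = N := by rw [← hNq, ← h5]; ring
    ext
    · show (q * x.1 + b - b) / q = x.1
      rw [Nat.add_sub_cancel, Nat.mul_div_cancel_left _ hq]
    · show (N - (q * x.1 + b)) / q = x.2
      rw [show N - (q * x.1 + b) = q * x.2 by omega, Nat.mul_div_cancel_left _ hq]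
  · intro n hn
    obtain ⟨h2, h3⟩ := Finset.mem_filter.mp hn
    have h6 : n % q = b := h3
    have h7 := Nat.div_add_mod n q
    rw [h6] at h7
    show q * ((n - b) / q) + b = n
    rw [show n - b = q * (n / q) by omega, Nat.mul_div_cancel_left _ hq]
    omega
  · intro x hx
    obtain ⟨h2, h3, h4⟩ := Finset.mem_filter.mp hx
    have h5 := Finset.HasAntidiagonal.mem_antidiagonal.mp h2
    have h7 : q * x.1 + b + q * x.2 = N := by rw [← hNq, ← h5]; ring
    show _ = ArithmeticFunction.vonMangoldt (q * x.1 + b) * g (N - (q * x.1 + b))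
    rw [show N - (q * x.1 + b) = q * x.2 by omega]

end Pool.Agent.DEH
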