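import Pool.Agent.DEH.PolySum
import Pool.Agent.DEH.Count

open Complex Polynomial Pool.Agent.ANT Filter

namespace Pool.Agent.DEH

/-- Majorant of the discrepancy over the moduli `q ≤ Q`. -/
noncomputable def DD (g : ℕ → ℝ) (Q N : ℕ) : ℝ :=
  ∑ q ∈ Finset.Ioc 0 Q, (|E g N q| + 1 / (q.totient : ℝ) * |S g N|)

lemma DD_nonneg (g : ℕ → ℝ) (Q N : ℕ) : 0 ≤ DD g Q N :=
  Finset.sum_nonneg fun _ _ => by positivity

lemma D_le_DD (g : ℕ → ℝ) {N Q' : ℕ} {Q : ℝ} (h : ⌊Q⌋₊ ≤ Q') : D g N Q ≤ DD g Q' N := by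
  unfold D DD
  calc _ ≤ ∑ q ∈ (Finset.Icc 1 ⌊Q⌋₊).filter (fun q => q.Coprime N),
        (|E g N q| + 1 / (q.totient : ℝ) * |S g N|) := by
        refine Finset.sum_le_sum fun q _ => ?_
        refine (abs_sub _ _).trans ?_
        rw [abs_mul, abs_of_nonneg (by positivity : (0:ℝ) ≤ 1 / (q.totient : ℝ))]
    _ ≤ _ := by
        refine Finset.sum_le_sum_of_subset_of_nonneg ?_ fun _ _ _ => by positivity
        intro q hq
        obtain ⟨h1, h2⟩ := Finset.mem_filter.mp hq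
        obtain ⟨h3, h4⟩ := Finset.mem_Icc.mp h1
        exact Finset.mem_Ioc.mpr ⟨h3, h4.trans h⟩

lemma log_val_bound {H d : ℕ} (hH : 1 ≤ H) {K : ℕ} (hK : 3 ≤ K) :
    1 + Real.log ((H * K ^ d : ℕ) : ℝ) ≤ (1 + Real.log H + d) * Real.log K := by
  have hK0 : (0:ℝ) < K := by positivity
  have hH0 : (0:ℝ) < H := by exact_mod_cast hH
  have hl := one_le_log (show (3:ℝ) ≤ K by exact_mod_cast hK)
  push_cast
  rw [Real.log_mul hH0.ne' (by positivity), Real.log_pow]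
  have hH1 : 0 ≤ Real.log H := Real.log_nonneg (by exact_mod_cast hH)
  nlinarith

lemma val_lower {F : ℤ[X]} (hd : 1 ≤ F.natDegree) (ha : 0 < F.leadingCoeff) :
    ∃ k0 : ℕ, ∀ k : ℕ, k0 ≤ k → (k:ℝ) ^ F.natDegree / 2 ≤ (val F k : ℝ) := by
  obtain ⟨H', hH', hb⟩ := poly_bound F.eraseLead (F.natDegree - 1) (eraseLead_natDegree_le F)
  refine ⟨2 * H' + 1, fun k hk => ?_⟩
  have hk1 : 1 ≤ k := by omega
  have hkR : (1:ℝ) ≤ k := by exact_mod_cast hk1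
  have h1 := hb k k le_rfl hk1
  have h2 : F.eval (k:ℤ) = F.eraseLead.eval (k:ℤ) + F.leadingCoeff * (k:ℤ) ^ F.natDegree := by
    conv_lhs => rw [← F.eraseLead_add_C_mul_X_pow]
    simp
  have h3 : (k:ℝ) ^ F.natDegree = k ^ (F.natDegree - 1) * k := by
    rw [← pow_succ]; congr 1; omega
  have h4 : ((F.eval (k:ℤ) : ℤ) : ℝ) ≤ (val F k : ℝ) := by
    unfold val
    have := Int.self_le_toNat (F.eval (k:ℤ))
    exact_mod_cast this
  refine le_trans ?_ h4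
  rw [h2]
  push_cast
  have h5 := (abs_le.mp h1).1
  have ha' : (1:ℝ) ≤ F.leadingCoeff := by exact_mod_cast ha
  have h6 : (0:ℝ) < (k:ℝ) ^ (F.natDegree - 1) := by positivity
  have h7 : 2 * (H':ℝ) ≤ k := by exact_mod_cast (by omega : 2 * H' ≤ k)
  have h8 : (H':ℝ) * (k:ℝ) ^ (F.natDegree - 1) ≤ (k:ℝ) ^ F.natDegree / 2 := by
    rw [h3]; nlinarith
  have h9 : (k:ℝ) ^ F.natDegree ≤ F.leadingCoeff * (k:ℝ) ^ F.natDegree := by
    have : 0 < (k:ℝ) ^ F.natDegree := by positivity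
    nlinarith
  linarith

lemma sum_all {F : ℤ[X]} (hd : 1 ≤ F.natDegree) (ha : 0 < F.leadingCoeff) {H Cw : ℕ}
    (hW : WeylHyp F.natDegree Cw) (hH1 : 1 ≤ H)
    (hHF : ∀ k K : ℕ, k ≤ K → 1 ≤ K → |((F.eval (k:ℤ) : ℤ) : ℝ)| ≤ H * (K:ℝ) ^ F.natDegree)
    (hHT : ∀ j, 1 ≤ j → j < F.natDegree → ∀ c q : ℕ, c ≤ q → 1 ≤ q →
      |(TT' F c j : ℝ)| ≤ H * (q:ℝ) ^ (F.natDegree - j))
    {g : ℕ → ℝ} (hg0 : g 0 = 0) (hg1 : ∀ m, |g m| ≤ 1 + Real.log m) (hgood : Good g) (B : ℕ)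
    {η : ℝ} (hη : 0 < η) (hη2 : η ≤ 1/2) :
    ∃ C : ℝ, 0 < C ∧ ∀ᶠ K : ℕ in atTop,
      ∑ k ∈ Finset.range (K+1), DD g ⌊(K:ℝ) ^ (1/2 - η)⌋₊ (val F k) ≤
        C * K * ((H * K ^ F.natDegree : ℕ) : ℝ) *
          (1 + Real.log ((H * K ^ F.natDegree : ℕ) : ℝ)) ^ 6 /
          (1 + Real.log ((H * K ^ F.natDegree : ℕ) : ℝ)) ^ B := by
  obtain ⟨C, c0, e, hC, hc0, hone⟩ := one_modulus hd ha hW hH1 hHF hHT hg0 hg1 hgood B
  set d := F.natDegree with hdd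
  set cH : ℝ := 1 + Real.log H + d with hcH
  have hcH0 : 0 < cH := by
    have : 0 ≤ Real.log H := Real.log_nonneg (by exact_mod_cast hH1)
    positivity
  refine ⟨2 * C, by positivity, ?_⟩
  have ht : Tendsto (fun n : ℕ => (n:ℝ) ^ η) atTop atTop :=
    (tendsto_rpow_atTop hη).comp tendsto_natCast_atTop_atTop
  filter_upwards [eventually_ge_atTop 3, eventually_log_pow_le e hη,
    ht.eventually_gt_atTop (c0 * cH ^ e)] with K hK3 hKlog hKc
  set X := H * K ^ d with hX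
  set ℓ := 1 + Real.log (X:ℝ) with hℓ
  have hKR : (3:ℝ) ≤ K := by exact_mod_cast hK3
  have hK0 : (0:ℝ) < K := by linarith
  have hK1 : (1:ℝ) ≤ K := by linarith
  have hKX : K ≤ X := by
    rw [hX]
    calc K = 1 * K ^ 1 := by ring
      _ ≤ H * K ^ d := Nat.mul_le_mul hH1 (Nat.pow_le_pow_right (by omega) hd)
  have hKXR : (K:ℝ) ≤ X := by exact_mod_cast hKX
  have hlK := one_le_log hKR
  have hlKX : Real.log K ≤ Real.log X := Real.log_le_log hK0 hKXR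
  have hℓ2 : 2 ≤ ℓ := by linarith
  have hℓ0 : 0 < ℓ := by linarith
  set Q := ⌊(K:ℝ) ^ (1/2 - η)⌋₊ with hQ
  have hQle : (Q:ℝ) ≤ (K:ℝ) ^ (1/2 - η) := Nat.floor_le (by positivity)
  have hQ1 : 1 ≤ Q := Nat.le_floor (by push_cast; exact Real.one_le_rpow hK1 (by linarith))
  have hQK : Q ≤ K := by
    have h1 : (K:ℝ) ^ (1/2 - η) ≤ K := by
      calc (K:ℝ) ^ (1/2 - η) ≤ (K:ℝ) ^ (1:ℝ) := Real.rpow_le_rpow_of_exponent_le hK1 (by linarith)
        _ = K := Real.rpow_one _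
    exact_mod_cast hQle.trans h1
  have hsq : ∀ q : ℕ, q ≤ Q → (q:ℝ) ^ 2 ≤ (K:ℝ) ^ (1 - 2 * η) := by
    intro q hq
    have h1 : (q:ℝ) ≤ (K:ℝ) ^ (1/2 - η) := (Nat.cast_le.mpr hq).trans hQle
    calc (q:ℝ) ^ 2 ≤ ((K:ℝ) ^ (1/2 - η)) ^ 2 := by gcongr
      _ = (K:ℝ) ^ (1 - 2 * η) := by rw [← Real.rpow_natCast, ← Real.rpow_mul hK0.le]; congr 1; push_cast; ring
  have hEq : ∀ q ∈ Finset.Ioc 0 Q, ∑ k ∈ Finset.range (K+1), |E g (val F k) q| ≤
      C * K * (X / q) * tauR q * ℓ ^ 2 / ℓ ^ B := by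
    intro q hq
    obtain ⟨hq1, hq2⟩ := Finset.mem_Ioc.mp hq
    have hs := hsq q hq2
    refine hone K q hq1 (hq2.trans hQK) hℓ2 ?_ ?_
    · have h1 : (q:ℝ) ^ 2 ≤ K := by
        refine hs.trans ?_
        calc (K:ℝ) ^ (1 - 2 * η) ≤ (K:ℝ) ^ (1:ℝ) := Real.rpow_le_rpow_of_exponent_le hK1 (by linarith)
          _ = K := Real.rpow_one _
      exact_mod_cast h1
    · have h1 : ℓ ^ e ≤ cH ^ e * Real.log K ^ e := by
        rw [← mul_pow]
        have := log_val_bound hH1 (d := d) hK3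
        gcongr
      have hKη : 0 < (K:ℝ) ^ η := by positivity
      calc c0 * ℓ ^ e * (q:ℝ) ^ 2 ≤ c0 * (cH ^ e * (K:ℝ) ^ η) * (K:ℝ) ^ (1 - 2 * η) := by
            have : ℓ ^ e ≤ cH ^ e * (K:ℝ) ^ η := h1.trans (by gcongr)
            gcongr
        _ = (c0 * cH ^ e) * (K:ℝ) ^ η * (K:ℝ) ^ (1 - 2 * η) := by ring
        _ < (K:ℝ) ^ η * (K:ℝ) ^ η * (K:ℝ) ^ (1 - 2 * η) := by gcongr
        _ = K := by
            rw [← Real.rpow_add hK0, ← Real.rpow_add hK0]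
            conv_rhs => rw [← Real.rpow_one (K:ℝ)]
            congr 1; ring
  have hlQ : Real.log Q ≤ Real.log X :=
    Real.log_le_log (by exact_mod_cast hQ1) (by exact_mod_cast hQK.trans hKX)
  have hHs : Hs Q ≤ ℓ := (Hs_le Q).trans (by rw [hℓ]; linarith)
  have hHs0 := Hs_nonneg Q
  have hττ : ∑ q ∈ Finset.Ioc 0 Q, tauR q / q ≤ ℓ ^ 2 := (sum_tau_div_le Q).trans (by gcongr)
  have hΦ : ∑ q ∈ Finset.Ioc 0 Q, 1 / (q.totient : ℝ) ≤ ℓ ^ 2 := by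
    refine le_trans (Finset.sum_le_sum fun q hq => ?_) hττ
    exact one_div_totient_le (by have := (Finset.mem_Ioc.mp hq).1; omega)
  set T : ℝ := C * K * X * ℓ ^ 2 / ℓ ^ B with hT
  have hT0 : 0 ≤ T := by positivity
  have hEtot : ∑ k ∈ Finset.range (K+1), ∑ q ∈ Finset.Ioc 0 Q, |E g (val F k) q| ≤ T * ℓ ^ 2 := by
    rw [Finset.sum_comm]
    calc _ ≤ ∑ q ∈ Finset.Ioc 0 Q, C * K * (X / q) * tauR q * ℓ ^ 2 / ℓ ^ B := Finset.sum_le_sum hEq
      _ = T * ∑ q ∈ Finset.Ioc 0 Q, tauR q / q := by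
          rw [Finset.mul_sum]
          exact Finset.sum_congr rfl fun q _ => by rw [hT]; ring
      _ ≤ _ := by gcongr
  have hS : ∑ k ∈ Finset.range (K+1), |S g (val F k)| ≤ T := by
    have h1 := hEq 1 (Finset.mem_Ioc.mpr ⟨one_pos, hQ1⟩)
    have h2 : tauR 1 = 1 := by unfold tauR; simp
    rw [h2] at h1
    calc _ = ∑ k ∈ Finset.range (K+1), |E g (val F k) 1| := by simp_rw [E_one]
      _ ≤ _ := h1
      _ = T := by rw [hT]; push_cast; ring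
  calc ∑ k ∈ Finset.range (K+1), DD g Q (val F k) =
        ∑ k ∈ Finset.range (K+1), ∑ q ∈ Finset.Ioc 0 Q, |E g (val F k) q| +
        (∑ q ∈ Finset.Ioc 0 Q, 1 / (q.totient : ℝ)) * ∑ k ∈ Finset.range (K+1), |S g (val F k)| := by
        unfold DD
        simp_rw [Finset.sum_add_distrib, ← Finset.sum_mul]
        rw [← Finset.mul_sum]
    _ ≤ T * ℓ ^ 2 + ℓ ^ 2 * T := by
        have h0 : 0 ≤ ∑ k ∈ Finset.range (K+1), |S g (val F k)| := Finset.sum_nonneg fun _ _ => abs_nonneg _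
        have h1 : 0 ≤ ∑ q ∈ Finset.Ioc 0 Q, 1 / (q.totient : ℝ) := Finset.sum_nonneg fun _ _ => by positivity
        gcongr
    _ = 2 * (C * K * X * ℓ ^ 4 / ℓ ^ B) := by rw [hT]; ring
    _ ≤ 2 * (C * K * X * ℓ ^ 6 / ℓ ^ B) := by
        have : ℓ ^ 4 ≤ ℓ ^ 6 := pow_le_pow_right₀ (by linarith) (by norm_num)
        gcongr
    _ = _ := by ring

/-- Bad arguments. -/
def BadP (F : ℤ[X]) (g : ℕ → ℝ) (θ : ℝ) (A : ℕ) : Set ℕ :=
  {k | (val F k:ℝ) / Real.log (val F k) ^ A < D g (val F k) ((val F k : ℝ) ^ θ)}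

open Classical in
lemma count_badP {F : ℤ[X]} (hd : 1 ≤ F.natDegree) (ha : 0 < F.leadingCoeff)
    {g : ℕ → ℝ} (hg0 : g 0 = 0) (hg1 : ∀ m, |g m| ≤ 1 + Real.log m) (hgood : Good g) (A A' : ℕ)
    {θ : ℝ} (hθ0 : 0 ≤ θ) (hθ : θ * (2 * F.natDegree) < 1) :
    ∃ C : ℝ, 0 < C ∧ ∀ᶠ K : ℕ in atTop,
      (((Finset.Ioc 0 K).filter (fun k => k ∈ BadP F g θ A)).card : ℝ) ≤ C * K / Real.log K ^ A' := by
  obtain ⟨Cw, hW⟩ := weyl_inverse F.natDegree
  obtain ⟨H, hH1, hHF, hHT⟩ := poly_data F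
  set d := F.natDegree with hdd
  have hdR : (1:ℝ) ≤ d := by exact_mod_cast hd
  set η : ℝ := (1/2 - d * θ) / 2 with hη
  have hη0 : 0 < η := by rw [hη]; linarith
  have hη2 : η ≤ 1/2 := by
    have : 0 ≤ d * θ := by positivity
    rw [hη]; linarith
  obtain ⟨C, hC, hsum⟩ := sum_all hd ha hW hH1 hHF hHT hg0 hg1 hgood (d * A' + A + 6 + A') hη0 hη2
  obtain ⟨k0, hk0⟩ := val_lower hd ha
  refine ⟨1 + 2 * C * H, by positivity, ?_⟩
  have ht : Tendsto (fun n : ℕ => (n:ℝ) ^ η) atTop atTop :=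
    (tendsto_rpow_atTop hη0).comp tendsto_natCast_atTop_atTop
  have ht2 : Tendsto (fun n : ℕ => (n:ℝ) ^ (1/2:ℝ)) atTop atTop :=
    (tendsto_rpow_atTop (by norm_num)).comp tendsto_natCast_atTop_atTop
  filter_upwards [hsum, eventually_ge_atTop 3, eventually_log_pow_le A' (show (0:ℝ) < 1/2 by norm_num),
    ht.eventually_ge_atTop ((H:ℝ) ^ θ), ht2.eventually_ge_atTop ((k0:ℝ) + 6)]
    with K hKsum hK3 hKlog hKη hK2
  set X := H * K ^ d with hX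
  set ℓ := 1 + Real.log (X:ℝ) with hℓ
  set B := d * A' + A + 6 + A' with hB
  have hKR : (3:ℝ) ≤ K := by exact_mod_cast hK3
  have hK0 : (0:ℝ) < K := by linarith
  have hK1 : (1:ℝ) ≤ K := by linarith
  have hHR : (1:ℝ) ≤ H := by exact_mod_cast hH1
  have hKX : K ≤ X := by
    rw [hX]
    calc K = 1 * K ^ 1 := by ring
      _ ≤ H * K ^ d := Nat.mul_le_mul hH1 (Nat.pow_le_pow_right (by omega) hd)
  have hXK : (X:ℝ) = H * (K:ℝ) ^ d := by rw [hX]; push_cast; ring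
  have hX0 : (0:ℝ) < X := by rw [hXK]; positivity
  have hlK := one_le_log hKR
  have hlK0 : 0 < Real.log K := by linarith
  have hlKX : Real.log K ≤ Real.log X := Real.log_le_log hK0 (by exact_mod_cast hKX)
  have hℓ1 : 1 ≤ ℓ := by linarith
  have hℓ0 : 0 < ℓ := by linarith
  have hlKℓ : Real.log K ≤ ℓ := by linarith
  set K1 : ℝ := K / Real.log K ^ A' with hK1def
  have hK10 : 0 < K1 := by positivity
  have hK1s : (K:ℝ) ^ (1/2:ℝ) ≤ K1 := by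
    rw [hK1def, le_div_iff₀ (by positivity)]
    calc (K:ℝ) ^ (1/2:ℝ) * Real.log K ^ A' ≤ (K:ℝ) ^ (1/2:ℝ) * (K:ℝ) ^ (1/2:ℝ) := by gcongr
      _ = K := by rw [← Real.rpow_add hK0]; norm_num
  set Bd := (Finset.Ioc 0 K).filter (fun k => k ∈ BadP F g θ A) with hBd
  set B1 := Bd.filter (fun k : ℕ => (k:ℝ) ≤ K1) with hB1
  set B2 := Bd.filter (fun k : ℕ => ¬ (k:ℝ) ≤ K1) with hB2
  have hcard : Bd.card = B1.card + B2.card := (Finset.card_filter_add_card_filter_not _).symm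
  have hc1 : (B1.card : ℝ) ≤ K1 := by
    have h1 : B1 ⊆ Finset.Ioc 0 ⌊K1⌋₊ := by
      intro k hk
      obtain ⟨h2, h3⟩ := Finset.mem_filter.mp hk
      have h4 := (Finset.mem_Ioc.mp (Finset.mem_filter.mp h2).1).1
      exact Finset.mem_Ioc.mpr ⟨h4, Nat.le_floor h3⟩
    have h2 := Finset.card_le_card h1
    rw [Nat.card_Ioc, Nat.sub_zero] at h2
    calc (B1.card : ℝ) ≤ (⌊K1⌋₊ : ℝ) := by exact_mod_cast h2
      _ ≤ K1 := Nat.floor_le hK10.le
  set Q := ⌊(K:ℝ) ^ (1/2 - η)⌋₊ with hQ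
  set T : ℝ := K1 ^ d / 2 / ℓ ^ A with hT
  have hT0 : 0 < T := by positivity
  have hlow : ∀ k ∈ B2, T ≤ DD g Q (val F k) := by
    intro k hk
    obtain ⟨h2, h3⟩ := Finset.mem_filter.mp hk
    obtain ⟨h4, h5⟩ := Finset.mem_filter.mp h2
    obtain ⟨h6, h7⟩ := Finset.mem_Ioc.mp h4
    push Not at h3
    have hkbig : (k0:ℝ) + 6 ≤ k := by linarith
    have hkk0 : k0 ≤ k := by
      have : (k0:ℝ) ≤ k := by linarith
      exact_mod_cast this
    have hv := hk0 k hkk0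
    set N := val F k with hN
    have hk6 : (6:ℝ) ≤ k := by linarith [Nat.cast_nonneg (α := ℝ) k0]
    have hN3 : (3:ℝ) ≤ N := by
      have : (k:ℝ) ≤ (k:ℝ) ^ d := le_self_pow₀ (by linarith) (by omega)
      linarith
    have hNX : (N:ℝ) ≤ X := by
      have h8 := hHF k K h7 (by omega)
      have h9 : (0:ℤ) < F.eval (k:ℤ) := by
        by_contra hcon
        push Not at hcon
        have : val F k = 0 := Int.toNat_eq_zero.mpr hcon
        rw [← hN] at this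
        rw [this] at hN3
        norm_num at hN3
      have h10 : (N:ℝ) = ((F.eval (k:ℤ) : ℤ) : ℝ) := by
        have : (N:ℤ) = F.eval (k:ℤ) := Int.toNat_of_nonneg h9.le
        exact_mod_cast this
      rw [h10, hXK]
      exact (le_abs_self _).trans h8
    have hlN := one_le_log hN3
    have hlNX : Real.log N ≤ ℓ := by
      have := Real.log_le_log (by linarith) hNX
      linarith
    have hbad : (N:ℝ) / Real.log N ^ A < D g N ((N:ℝ) ^ θ) := h5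
    have hQN : ⌊(N:ℝ) ^ θ⌋₊ ≤ Q := by
      refine Nat.floor_le_floor ?_
      calc (N:ℝ) ^ θ ≤ (X:ℝ) ^ θ := Real.rpow_le_rpow (by linarith) hNX hθ0
        _ = (H:ℝ) ^ θ * (K:ℝ) ^ (d * θ) := by
            rw [hXK, Real.mul_rpow (by linarith) (by positivity), ← Real.rpow_natCast,
              ← Real.rpow_mul hK0.le]
        _ ≤ (K:ℝ) ^ η * (K:ℝ) ^ (d * θ) := by gcongr
        _ = (K:ℝ) ^ (1/2 - η) := by
            rw [← Real.rpow_add hK0]; congr 1; rw [hη]; ring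
    have hDD := D_le_DD g (N := N) (Q := (N:ℝ) ^ θ) hQN
    calc T ≤ N / Real.log N ^ A := by
          rw [hT]
          have : K1 ^ d / 2 ≤ N := by
            refine le_trans ?_ hv
            gcongr
          gcongr
      _ ≤ _ := by linarith
  have hB2sub : B2 ⊆ Finset.range (K+1) := by
    intro k hk
    have := (Finset.mem_Ioc.mp (Finset.mem_filter.mp (Finset.mem_filter.mp hk).1).1).2
    exact Finset.mem_range.mpr (by omega)
  have hc2 : (B2.card : ℝ) * T ≤ C * K * X * ℓ ^ 6 / ℓ ^ B := by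
    calc (B2.card : ℝ) * T = ∑ _k ∈ B2, T := by rw [Finset.sum_const, nsmul_eq_mul]
      _ ≤ ∑ k ∈ B2, DD g Q (val F k) := Finset.sum_le_sum hlow
      _ ≤ ∑ k ∈ Finset.range (K+1), DD g Q (val F k) :=
          Finset.sum_le_sum_of_subset_of_nonneg hB2sub fun _ _ _ => DD_nonneg _ _ _
      _ ≤ _ := hKsum
  have hc3 : (B2.card : ℝ) ≤ 2 * C * H * K1 := by
    have h1 : (B2.card : ℝ) ≤ (C * K * X * ℓ ^ 6 / ℓ ^ B) / T := by
      rw [le_div_iff₀ hT0]; exact hc2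
    refine h1.trans ?_
    rw [div_le_iff₀ hT0, div_le_iff₀ (by positivity)]
    have h2 : Real.log K ^ (d * A') * Real.log K ^ A' ≤ ℓ ^ (d * A') * ℓ ^ A' := by gcongr
    calc C * K * X * ℓ ^ 6 = C * H * K * (K:ℝ) ^ d * ℓ ^ 6 := by rw [hXK]; ring
      _ = (C * H * K * (K:ℝ) ^ d * ℓ ^ 6 / (Real.log K ^ (d * A') * Real.log K ^ A')) *
          (Real.log K ^ (d * A') * Real.log K ^ A') := by field_simp
      _ ≤ (C * H * K * (K:ℝ) ^ d * ℓ ^ 6 / (Real.log K ^ (d * A') * Real.log K ^ A')) *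
          (ℓ ^ (d * A') * ℓ ^ A') := by gcongr
      _ = 2 * C * H * K1 * T * ℓ ^ B := by
          rw [hT, hK1def, hB, div_pow, ← pow_mul, mul_comm A' d]
          simp only [pow_add]
          field_simp
  calc (Bd.card : ℝ) = B1.card + B2.card := by rw [hcard]; push_cast; ring
    _ ≤ K1 + 2 * C * H * K1 := add_le_add hc1 hc3
    _ = _ := by rw [hK1def]; ring

end Pool.Agent.DEH
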