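import Pool.Agent.DEH.PolyCount
import Pool.Agent.DEH.Equiv

open Complex Polynomial Pool.Agent.ANT Filter

namespace Pool.Agent.DEH

/-- Exponents increasing to `1/(2d)`. -/
noncomputable def th (d n : ℕ) : ℝ := (1 - 1/((n:ℝ)+1)) / (2 * d)

lemma th_nonneg (d n : ℕ) : 0 ≤ th d n := by
  unfold th
  have : 1/((n:ℝ)+1) ≤ 1 := by
    rw [div_le_one (by positivity)]
    linarith [Nat.cast_nonneg (α := ℝ) n]
  have h2 : 0 ≤ 1 - 1/((n:ℝ)+1) := by linarith
  positivity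

lemma th_mono (d : ℕ) {j n : ℕ} (h : j ≤ n) : th d j ≤ th d n := by
  unfold th
  have : 1/((n:ℝ)+1) ≤ 1/((j:ℝ)+1) := by gcongr
  gcongr

lemma th_lt {d : ℕ} (hd : 1 ≤ d) (n : ℕ) : th d n * (2 * d) < 1 := by
  unfold th
  have h1 : (0:ℝ) < 2 * d := by positivity
  rw [div_mul_cancel₀ _ h1.ne']
  have : 0 < 1/((n:ℝ)+1) := by positivity
  linarith

/-- Nested bad sets. -/
def BadN (F : ℤ[X]) (n : ℕ) : Set ℕ :=
  {k | 1 ≤ k ∧ 3 ≤ val F k ∧ (k ∈ BadP F g1 (th F.natDegree n) n ∨ k ∈ BadP F g2 (th F.natDegree n) n)}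

lemma BadN_mono (F : ℤ[X]) {j n : ℕ} (h : j ≤ n) : BadN F j ⊆ BadN F n := by
  rintro k ⟨h1, h3, hk⟩
  have h3R : (3:ℝ) ≤ val F k := by exact_mod_cast h3
  have hl := one_le_log h3R
  have hlev : (val F k : ℝ) ^ (th F.natDegree j) ≤ (val F k : ℝ) ^ (th F.natDegree n) :=
    Real.rpow_le_rpow_of_exponent_le (by linarith) (th_mono _ h)
  have hN0 : (0:ℝ) ≤ val F k := Nat.cast_nonneg _
  have hthr : (val F k:ℝ) / Real.log (val F k) ^ n ≤ val F k / Real.log (val F k) ^ j := by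
    have : Real.log (val F k) ^ j ≤ Real.log (val F k) ^ n := pow_le_pow_right₀ hl h
    gcongr
  refine ⟨h1, h3, ?_⟩
  rcases hk with hk | hk
  · exact Or.inl (lt_of_le_of_lt hthr (lt_of_lt_of_le hk (D_mono g1 _ hlev)))
  · exact Or.inr (lt_of_le_of_lt hthr (lt_of_lt_of_le hk (D_mono g2 _ hlev)))

open Classical in
lemma count_badN {F : ℤ[X]} (hd : 1 ≤ F.natDegree) (ha : 0 < F.leadingCoeff) (n : ℕ) :
    ∀ᶠ K : ℕ in atTop,
      (((Finset.Ioc 0 K).filter (fun k => k ∈ BadN F n)).card : ℝ) ≤ K / Real.log K ^ n := by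
  obtain ⟨C1, hC1, h1⟩ := count_badP hd ha (g := g1) (by unfold g1; simp) (fun m => (sqf_g1 m).1)
    good_g1 n (n+1) (th_nonneg _ n) (th_lt hd n)
  obtain ⟨C2, hC2, h2⟩ := count_badP hd ha (g := g2) (by unfold g2; simp) (fun m => (sqf_g2 m).1)
    good_g2 n (n+1) (th_nonneg _ n) (th_lt hd n)
  have hlogt : Tendsto (fun n : ℕ => Real.log (n:ℝ)) atTop atTop :=
    Real.tendsto_log_atTop.comp tendsto_natCast_atTop_atTop
  filter_upwards [h1, h2, hlogt.eventually_ge_atTop (C1 + C2), eventually_ge_atTop 3]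
    with K hK1 hK2 hKC hK3
  have hKR3 : (3:ℝ) ≤ K := by exact_mod_cast hK3
  have hK0 : (0:ℝ) < K := by linarith
  have hlK := one_le_log hKR3
  have hlK0 : 0 < Real.log K := by linarith
  have hsub : (Finset.Ioc 0 K).filter (fun k => k ∈ BadN F n) ⊆
      (Finset.Ioc 0 K).filter (fun k => k ∈ BadP F g1 (th F.natDegree n) n) ∪
      (Finset.Ioc 0 K).filter (fun k => k ∈ BadP F g2 (th F.natDegree n) n) := by
    intro k hk
    obtain ⟨h3, h4, h5, h6⟩ := Finset.mem_filter.mp hk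
    rcases h6 with h6 | h6
    · exact Finset.mem_union_left _ (Finset.mem_filter.mpr ⟨h3, h6⟩)
    · exact Finset.mem_union_right _ (Finset.mem_filter.mpr ⟨h3, h6⟩)
  calc _ ≤ ((((Finset.Ioc 0 K).filter (fun k => k ∈ BadP F g1 (th F.natDegree n) n)).card +
        ((Finset.Ioc 0 K).filter (fun k => k ∈ BadP F g2 (th F.natDegree n) n)).card : ℕ) : ℝ) := by
        exact_mod_cast (Finset.card_le_card hsub).trans (Finset.card_union_le _ _)
    _ ≤ C1 * K / Real.log K ^ (n+1) + C2 * K / Real.log K ^ (n+1) := by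
        push_cast
        exact add_le_add hK1 hK2
    _ = (C1 + C2) * K / Real.log K ^ (n+1) := by ring
    _ ≤ Real.log K * K / Real.log K ^ (n+1) := by gcongr
    _ = K / Real.log K ^ n := by rw [pow_succ]; field_simp

end Pool.Agent.DEH
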