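import Mathlib

open Polynomial

namespace Pool.Agent.DEH

/-- If `e` divides the values of an integer polynomial of degree `D` at `D+1` points of an interval
of length `H`, then `e` is small. -/
lemma dvd_values_le {G : ℤ[X]} {D : ℕ} (hD : G.natDegree = D) (hG : G ≠ 0) {e H : ℕ} (s : Finset ℕ)
    (hs : s.card = D + 1) (hH : ∀ x ∈ s, ∀ y ∈ s, x ≠ y → |(x:ℤ) - y| ≤ H)
    (hdvd : ∀ x ∈ s, (e:ℤ) ∣ G.eval (x:ℤ)) : (e:ℤ) ≤ |G.leadingCoeff| * (H:ℤ) ^ (D * (D+1)) := by
  classical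
  set Gq : ℚ[X] := G.map (Int.castRingHom ℚ) with hGq
  have hinj : Function.Injective (Int.castRingHom ℚ) := Int.cast_injective
  have hdeg : Gq.degree = G.degree := degree_map_eq_of_injective hinj G
  have hlead : Gq.leadingCoeff = (G.leadingCoeff : ℚ) := by
    rw [hGq, leadingCoeff_map_of_injective hinj]; rfl
  have h1 := Lagrange.leadingCoeff_eq_sum (s := s) (v := fun x : ℕ => (x:ℚ)) (P := Gq)
    (by intro x _ y _ h; have h' : (x:ℚ) = y := h; exact_mod_cast h')
    (by rw [hs, hdeg, degree_eq_natDegree hG, hD]; push_cast; rfl)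
  -- the product of all differences
  set Δ : ℤ := ∏ i ∈ s, ∏ j ∈ s.erase i, ((i:ℤ) - j) with hΔ
  have hne : ∀ i ∈ s, ∏ j ∈ s.erase i, ((i:ℤ) - j) ≠ 0 := by
    intro i _
    rw [Finset.prod_ne_zero_iff]
    intro j hj
    have := (Finset.mem_erase.mp hj).1
    intro h0
    apply this
    have : (i:ℤ) = j := by linarith
    exact_mod_cast this.symm
  have hΔ0 : Δ ≠ 0 := Finset.prod_ne_zero_iff.mpr hne
  have hmain : G.leadingCoeff * Δ = ∑ i ∈ s, G.eval (i:ℤ) *
      ∏ k ∈ s.erase i, ∏ j ∈ s.erase k, ((k:ℤ) - j) := by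
    have hcast : ((G.leadingCoeff * Δ : ℤ) : ℚ) = ((∑ i ∈ s, G.eval (i:ℤ) *
      ∏ k ∈ s.erase i, ∏ j ∈ s.erase k, ((k:ℤ) - j) : ℤ) : ℚ) := by
      rw [Int.cast_mul, ← hlead, h1, Int.cast_sum, Finset.sum_mul]
      refine Finset.sum_congr rfl fun i hi => ?_
      have h2 : (Δ : ℤ) = (∏ j ∈ s.erase i, ((i:ℤ) - j)) *
          ∏ k ∈ s.erase i, ∏ j ∈ s.erase k, ((k:ℤ) - j) := by
        rw [hΔ, ← Finset.mul_prod_erase s _ hi]
      have h3 : (∏ j ∈ s.erase i, ((i:ℚ) - j)) ≠ 0 := by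
        have := hne i hi
        have h4 : ((∏ j ∈ s.erase i, ((i:ℤ) - j) : ℤ) : ℚ) ≠ 0 := by exact_mod_cast this
        push_cast at h4
        exact h4
      have h5 : Gq.eval ((i:ℕ):ℚ) = ((G.eval (i:ℤ) : ℤ) : ℚ) := by
        rw [hGq, eval_map, show ((i:ℕ):ℚ) = (Int.castRingHom ℚ) (i:ℤ) by simp, eval₂_at_apply]
        simp
      rw [h5, h2]
      push_cast
      field_simp
    exact_mod_cast hcast
  have hdv : (e:ℤ) ∣ G.leadingCoeff * Δ := by
    rw [hmain]
    exact Finset.dvd_sum fun i hi => dvd_mul_of_dvd_left (hdvd i hi) _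
  have hlc : G.leadingCoeff ≠ 0 := leadingCoeff_ne_zero.mpr hG
  have h2 := Int.le_of_dvd (abs_pos.mpr (mul_ne_zero hlc hΔ0)) ((dvd_abs _ _).mpr hdv)
  rw [abs_mul] at h2
  refine h2.trans (mul_le_mul_of_nonneg_left ?_ (abs_nonneg _))
  rw [hΔ, Finset.abs_prod]
  calc ∏ i ∈ s, |∏ j ∈ s.erase i, ((i:ℤ) - j)| ≤ ∏ _i ∈ s, (H:ℤ) ^ D := by
        refine Finset.prod_le_prod (fun _ _ => abs_nonneg _) fun i hi => ?_
        rw [Finset.abs_prod]
        calc ∏ j ∈ s.erase i, |(i:ℤ) - j| ≤ ∏ _j ∈ s.erase i, (H:ℤ) := by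
              refine Finset.prod_le_prod (fun _ _ => abs_nonneg _) fun j hj => ?_
              obtain ⟨hj1, hj2⟩ := Finset.mem_erase.mp hj
              exact hH i hi j hj2 (Ne.symm hj1)
          _ = (H:ℤ) ^ D := by
              rw [Finset.prod_const, Finset.card_erase_of_mem hi, hs]
              rfl
    _ = (H:ℤ) ^ (D * (D+1)) := by rw [Finset.prod_const, hs, ← pow_mul]

/-- Number of roots modulo a large `e`. -/
lemma roots_mod_le {G : ℤ[X]} {D : ℕ} (hD : G.natDegree = D) (hG : G ≠ 0) {e L q : ℕ} (hL : 1 ≤ L)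
    (he : |G.leadingCoeff| * (L:ℤ) ^ (D * (D+1)) < e) (hLq : L ≤ q) :
    ((Finset.range q).filter (fun c : ℕ => (e:ℤ) ∣ G.eval (c:ℤ))).card * L ≤ 2 * D * q := by
  classical
  set S := (Finset.range q).filter (fun c : ℕ => (e:ℤ) ∣ G.eval (c:ℤ)) with hS
  have hfib : ∀ m ∈ Finset.range (q / L + 1), (S.filter (fun c => c / L = m)).card ≤ D := by
    intro m _
    by_contra hcon
    push Not at hcon
    obtain ⟨s, hs1, hs2⟩ := Finset.exists_subset_card_eq (show D + 1 ≤ (S.filter (fun c => c / L = m)).card by omega)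
    have h1 := dvd_values_le hD hG (e := e) (H := L) s hs2 (by
      intro x hx y hy _
      have h2 := (Finset.mem_filter.mp (hs1 hx)).2
      have h3 := (Finset.mem_filter.mp (hs1 hy)).2
      have h4 := Nat.div_add_mod x L
      have h5 := Nat.div_add_mod y L
      rw [h2] at h4
      rw [h3] at h5
      have h6 := Nat.mod_lt x hL
      have h7 := Nat.mod_lt y hL
      rw [abs_le]
      constructor <;> omega) (by
      intro x hx
      exact (Finset.mem_filter.mp (Finset.mem_filter.mp (hs1 hx)).1).2)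
    omega
  have hmaps : ∀ c ∈ S, c / L ∈ Finset.range (q / L + 1) := by
    intro c hc
    have := Finset.mem_range.mp (Finset.mem_filter.mp hc).1
    exact Finset.mem_range.mpr (Nat.lt_succ_of_le (Nat.div_le_div_right this.le))
  have hcard := Finset.card_eq_sum_card_fiberwise hmaps
  have h2 : S.card ≤ (q / L + 1) * D := by
    rw [hcard]
    calc _ ≤ ∑ _m ∈ Finset.range (q / L + 1), D := Finset.sum_le_sum hfib
      _ = _ := by simp
  have h3 : (q / L + 1) * L ≤ 2 * q := by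
    have := Nat.div_mul_le_self q L
    nlinarith
  calc S.card * L ≤ ((q / L + 1) * D) * L := Nat.mul_le_mul_right _ h2
    _ = ((q / L + 1) * L) * D := by ring
    _ ≤ (2 * q) * D := Nat.mul_le_mul_right _ h3
    _ = _ := by ring

/-- Number of residues with a large common factor. -/
lemma gcd_large_le {G : ℤ[X]} {D : ℕ} (hD : G.natDegree = D) (hG : G ≠ 0) {L q : ℕ} (hL : 1 ≤ L)
    (hq : 1 ≤ q) :
    ((Finset.range q).filter (fun c : ℕ => |G.leadingCoeff| * (L:ℤ) ^ (D * (D+1)) <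
      (Int.gcd (G.eval (c:ℤ)) q : ℕ))).card * L ≤ 2 * D * q * q.divisors.card := by
  classical
  by_cases hD0 : D = 0
  · -- constant polynomial: the set is empty
    subst hD0
    have h1 : ((Finset.range q).filter (fun c : ℕ => |G.leadingCoeff| * (L:ℤ) ^ (0 * (0+1)) <
      (Int.gcd (G.eval (c:ℤ)) q : ℕ))) = ∅ := by
      refine Finset.filter_false_of_mem fun c _ => ?_
      push Not
      rw [zero_mul, pow_zero, mul_one]
      have h2 : G = C (G.coeff 0) := eq_C_of_natDegree_eq_zero hD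
      have h3 : G.eval (c:ℤ) = G.leadingCoeff := by
        conv_lhs => rw [h2]
        rw [eval_C, leadingCoeff, hD]
      rw [h3]
      exact Int.le_of_dvd (abs_pos.mpr (leadingCoeff_ne_zero.mpr hG))
        ((dvd_abs _ _).mpr (Int.gcd_dvd_left _ _))
    rw [h1]; simp
  by_cases hLq : L ≤ q
  · have hsub : (Finset.range q).filter (fun c : ℕ => |G.leadingCoeff| * (L:ℤ) ^ (D * (D+1)) <
      (Int.gcd (G.eval (c:ℤ)) q : ℕ)) ⊆
        (q.divisors.filter (fun e : ℕ => |G.leadingCoeff| * (L:ℤ) ^ (D * (D+1)) < e)).biUnion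
          (fun e => (Finset.range q).filter (fun c : ℕ => (e:ℤ) ∣ G.eval (c:ℤ))) := by
      intro c hc
      obtain ⟨h1, h2⟩ := Finset.mem_filter.mp hc
      refine Finset.mem_biUnion.mpr ⟨Int.gcd (G.eval (c:ℤ)) q, ?_, ?_⟩
      · refine Finset.mem_filter.mpr ⟨Nat.mem_divisors.mpr ⟨?_, by omega⟩, h2⟩
        have := Int.gcd_dvd_right (G.eval (c:ℤ)) (q:ℤ)
        exact_mod_cast this
      · exact Finset.mem_filter.mpr ⟨h1, Int.gcd_dvd_left _ _⟩
    calc _ ≤ (∑ e ∈ q.divisors.filter (fun e : ℕ => |G.leadingCoeff| * (L:ℤ) ^ (D * (D+1)) < e),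
          ((Finset.range q).filter (fun c : ℕ => (e:ℤ) ∣ G.eval (c:ℤ))).card) * L :=
          Nat.mul_le_mul_right _ ((Finset.card_le_card hsub).trans Finset.card_biUnion_le)
      _ = ∑ e ∈ q.divisors.filter (fun e : ℕ => |G.leadingCoeff| * (L:ℤ) ^ (D * (D+1)) < e),
          ((Finset.range q).filter (fun c : ℕ => (e:ℤ) ∣ G.eval (c:ℤ))).card * L := by
          rw [Finset.sum_mul]
      _ ≤ ∑ _e ∈ q.divisors.filter (fun e : ℕ => |G.leadingCoeff| * (L:ℤ) ^ (D * (D+1)) < e),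
          2 * D * q := by
          refine Finset.sum_le_sum fun e he => ?_
          exact roots_mod_le hD hG hL (Finset.mem_filter.mp he).2 hLq
      _ ≤ ∑ _e ∈ q.divisors, 2 * D * q :=
          Finset.sum_le_sum_of_subset (Finset.filter_subset _ _)
      _ = _ := by rw [Finset.sum_const, smul_eq_mul]; ring
  · -- L > q: the gcd is at most q < L ≤ ...
    push Not at hLq
    have h1 : ((Finset.range q).filter (fun c : ℕ => |G.leadingCoeff| * (L:ℤ) ^ (D * (D+1)) <
      (Int.gcd (G.eval (c:ℤ)) q : ℕ))) = ∅ := by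
      refine Finset.filter_false_of_mem fun c _ => ?_
      push Not
      have h2 : ((Int.gcd (G.eval (c:ℤ)) q : ℕ) : ℤ) ≤ q :=
        Int.le_of_dvd (by exact_mod_cast hq) (Int.gcd_dvd_right _ _)
      have h3 : (1:ℤ) ≤ |G.leadingCoeff| := Int.one_le_abs (leadingCoeff_ne_zero.mpr hG)
      have h4 : (L:ℤ) ≤ (L:ℤ) ^ (D * (D+1)) := le_self_pow₀ (by exact_mod_cast hL) (by
        have : 0 < D * (D+1) := by positivity
        omega)
      have h5 : (q:ℤ) < L := by exact_mod_cast hLq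
      have h6 : (0:ℤ) < L := by exact_mod_cast hL
      nlinarith
    rw [h1]; simp

end Pool.Agent.DEH
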