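import Pool.Agent.DEH.PolyRes

open Complex Polynomial Pool.Agent.ANT

namespace Pool.Agent.DEH

/-- The value `F(k)` as a natural number. -/
noncomputable def val (F : ℤ[X]) (k : ℕ) : ℕ := (F.eval (k:ℤ)).toNat

lemma parseval' {M Y : ℕ} (hYM : Y + 1 ≤ M) (A : ℕ → ℂ) :
    ∑ t ∈ Finset.range M, ‖∑ i ∈ Finset.range (Y+1), A i * ee (i * ((t:ℝ) / M))‖ ^ 2 =
      M * ∑ i ∈ Finset.range (Y+1), ‖A i‖ ^ 2 := by
  have h1 := parseval M (fun i => if i < Y + 1 then A i else 0)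
  have hsub : Finset.range (Y+1) ⊆ Finset.range M := Finset.range_subset_range.mpr hYM
  have h2 : ∀ t : ℕ, ∑ n ∈ Finset.range M, (if n < Y + 1 then A n else 0) * ee (n * ((t:ℝ) / M)) =
      ∑ i ∈ Finset.range (Y+1), A i * ee (i * ((t:ℝ) / M)) := by
    intro t
    rw [← Finset.sum_subset hsub]
    · exact Finset.sum_congr rfl fun i hi => by rw [if_pos (Finset.mem_range.mp hi)]
    · intro i _ hi
      rw [if_neg (fun h => hi (Finset.mem_range.mpr h)), zero_mul]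
  have h3 : ∑ n ∈ Finset.range M, ‖(if n < Y + 1 then A n else 0)‖ ^ 2 =
      ∑ i ∈ Finset.range (Y+1), ‖A i‖ ^ 2 := by
    rw [← Finset.sum_subset hsub]
    · exact Finset.sum_congr rfl fun i hi => by rw [if_pos (Finset.mem_range.mp hi)]
    · intro i _ hi
      rw [if_neg (fun h => hi (Finset.mem_range.mpr h))]; simp
  rw [h3] at h1
  rw [← h1]
  exact Finset.sum_congr rfl fun t _ => by rw [h2]

lemma E_zero (g : ℕ → ℝ) (q : ℕ) : E g 0 q = 0 := by
  unfold E; simp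

/-- Mean square over a good residue class. -/
lemma good_residue {F : ℤ[X]} (hd : 1 ≤ F.natDegree) (ha : 0 < F.leadingCoeff) {H Cw : ℕ}
    (hW : WeylHyp F.natDegree Cw) (hH1 : 1 ≤ H)
    (hHF : ∀ k K : ℕ, k ≤ K → 1 ≤ K → |((F.eval (k:ℤ) : ℤ) : ℝ)| ≤ H * (K:ℝ) ^ F.natDegree)
    (hHT : ∀ j, 1 ≤ j → j < F.natDegree → ∀ c q : ℕ, c ≤ q → 1 ≤ q →
      |(TT' F c j : ℝ)| ≤ H * (q:ℝ) ^ (F.natDegree - j))
    {g : ℕ → ℝ} (hg0 : g 0 = 0) (hg1 : ∀ m, |g m| ≤ 1 + Real.log m) {K q c : ℕ} (hq : 1 ≤ q)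
    (hqK : q ≤ K) (hc : c < q) {M0 M2 Bs : ℝ} (hM0 : 2 ≤ M0) (hM2 : 1 ≤ M2)
    (hgcd : ∀ j, 1 ≤ j → j < F.natDegree → ((Int.gcd (TT' F c j) q : ℕ) : ℝ) ≤ M2)
    (hbig : 2 * ((F.leadingCoeff : ℝ) + H) * M2 ^ (F.natDegree - 1) * M0 ^ Cw * (q:ℝ) ^ 2 < K)
    (hBs : ∀ α : ℝ, ‖∑ n ∈ Finset.Ioc 0 (H * K ^ F.natDegree),
      (if q ∣ n then (g n : ℂ) else 0) * ee (n * α)‖ ≤ Bs) :
    ∑ l ∈ Finset.range ((K - c) / q + 1), E g (val F (c + q * l)) q ^ 2 ≤
      (((K - c) / q + 1 : ℕ) : ℝ) * (((H * K ^ F.natDegree / q : ℕ) : ℝ) + 1) ^ 2 *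
          (1 + Real.log ((H * K ^ F.natDegree : ℕ) : ℝ)) ^ 4 / M0 +
        (((K - c) / q + 1 : ℕ) : ℝ) *
          (14 * H * 2 ^ F.natDegree * (M0 ^ Cw * F.leadingCoeff * M2 ^ (F.natDegree - 1)) ^ 3) *
          (((H * K ^ F.natDegree / q : ℕ) : ℝ) + 1) *
          (1 + Real.log ((H * K ^ F.natDegree : ℕ) : ℝ)) ^ 3 * Bs := by
  classical
  set d := F.natDegree with hdd
  set X := H * K ^ d with hX
  set Y := X / q with hY
  set P := (K - c) / q + 1 with hP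
  set a : ℝ := (F.leadingCoeff : ℝ) with haa
  set ℓ := 1 + Real.log (X:ℝ) with hℓ
  set M1 := M0 ^ Cw with hM1
  set M3 := M1 * a * M2 ^ (d-1) with hM3
  have hK1 : 1 ≤ K := hq.trans hqK
  have hKR : (1:ℝ) ≤ K := by exact_mod_cast hK1
  have hqR : (1:ℝ) ≤ q := by exact_mod_cast hq
  have hq0 : (0:ℝ) < q := by linarith
  have hqKR : (q:ℝ) ≤ K := by exact_mod_cast hqK
  have hHR : (1:ℝ) ≤ H := by exact_mod_cast hH1
  have ha1 : 1 ≤ a := by rw [haa]; exact_mod_cast ha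
  have hKX : K ≤ X := by
    rw [hX]
    calc K = 1 * K ^ 1 := by ring
      _ ≤ H * K ^ d := Nat.mul_le_mul hH1 (Nat.pow_le_pow_right hK1 hd)
  have hXK : (X:ℝ) = H * (K:ℝ) ^ d := by rw [hX]; push_cast; ring
  have hX1 : 1 ≤ X := hK1.trans hKX
  have hXR : (1:ℝ) ≤ X := by exact_mod_cast hX1
  have hqX : q ≤ X := hqK.trans hKX
  have hqXR : (q:ℝ) ≤ X := by exact_mod_cast hqX
  have hℓ1 : 1 ≤ ℓ := by
    have := Real.log_natCast_nonneg X
    linarith
  have hM01 : 1 ≤ M0 := by linarith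
  have hM11 : 1 ≤ M1 := one_le_pow₀ hM01
  have hM2p : 1 ≤ M2 ^ (d-1) := one_le_pow₀ hM2
  have hM31 : 1 ≤ M3 := by
    rw [hM3]
    calc (1:ℝ) = 1 * 1 * 1 := by ring
      _ ≤ _ := by gcongr
  have hP1 : 1 ≤ P := Nat.le_add_left 1 _
  have hPR : (1:ℝ) ≤ P := by exact_mod_cast hP1
  have hYX : (Y:ℝ) ≤ X / q := Nat.cast_div_le
  have hYX' : (X:ℝ) / q < Y + 1 := by
    rw [hY]
    have := Nat.lt_floor_add_one ((X:ℝ) / q)
    rwa [Nat.floor_div_eq_div] at this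
  have hPlow : (K:ℝ) ≤ 2 * q * P := by
    have h1 : K < q + q * P := by
      have h2 := Nat.lt_div_mul_add (a := K - c) hq
      have h3 : (K - c) / q * q + q = q * P := by rw [hP]; ring
      omega
    have h2 : (K:ℝ) < q + q * P := by exact_mod_cast h1
    nlinarith
  -- the sequences
  set b : ℕ := ((F.eval (c:ℤ)) % q).toNat with hb
  have hbZ : (b:ℤ) = (F.eval (c:ℤ)) % q :=
    Int.toNat_of_nonneg (Int.emod_nonneg _ (by exact_mod_cast (by omega : q ≠ 0)))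
  have hbq : b < q := by
    have := Int.emod_lt_of_pos (F.eval (c:ℤ)) (show (0:ℤ) < q by exact_mod_cast hq)
    omega
  set A : ℕ → ℂ := fun i => ((ArithmeticFunction.vonMangoldt (q * i + b) : ℝ) : ℂ) with hA
  set B : ℕ → ℂ := fun j => ((g (q * j) : ℝ) : ℂ) with hB
  have hAn : ∀ i, i ≤ Y → ‖A i‖ ≤ ℓ := by
    intro i hi
    simp only [hA]
    rw [Complex.norm_real, Real.norm_of_nonneg ArithmeticFunction.vonMangoldt_nonneg]
    refine ArithmeticFunction.vonMangoldt_le_log.trans ?_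
    rcases Nat.eq_zero_or_pos (q * i + b) with h0 | h0
    · rw [h0]; simp; linarith
    · have h1 : q * i + b ≤ 2 * X := by
        have : q * i ≤ X := (Nat.mul_le_mul_left _ hi).trans (Nat.mul_div_le _ _)
        omega
      have h2 : Real.log ((q * i + b : ℕ) : ℝ) ≤ Real.log (2 * X) :=
        Real.log_le_log (by exact_mod_cast h0) (by exact_mod_cast h1)
      rw [Real.log_mul (by norm_num) (by linarith)] at h2
      have := Real.log_two_lt_d9
      rw [hℓ]; linarith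
  have hBn : ∀ j, j ≤ Y → ‖B j‖ ≤ ℓ := by
    intro j hj
    simp only [hB]
    rw [Complex.norm_real, Real.norm_eq_abs]
    rcases Nat.eq_zero_or_pos j with h0 | h0
    · rw [h0, mul_zero, hg0, abs_zero]; linarith
    · refine (hg1 _).trans ?_
      rw [hℓ]
      have h1 : q * j ≤ X := (Nat.mul_le_mul_left _ hj).trans (Nat.mul_div_le _ _)
      have h2 : Real.log ((q * j : ℕ) : ℝ) ≤ Real.log X :=
        Real.log_le_log (by exact_mod_cast Nat.mul_pos hq h0) (by exact_mod_cast h1)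
      linarith
  set M := 2 * Y + 1 with hM
  have hMR : (0:ℝ) < M := by positivity
  set Ah : ℕ → ℂ := fun t => ∑ i ∈ Finset.range (Y+1), A i * ee (i * ((t:ℝ) / M)) with hAh
  set Bh : ℕ → ℂ := fun t => ∑ j ∈ Finset.range (Y+1), B j * ee (j * ((t:ℝ) / M)) with hBh
  set G : ℕ → ℂ := fun t => Ah t * Bh t with hG
  have hY1 : (1:ℝ) ≤ Y + 1 := by linarith [Nat.cast_nonneg (α := ℝ) Y]
  have hAhn : ∀ t, ‖Ah t‖ ≤ (Y+1) * ℓ := by
    intro t
    simp only [hAh]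
    refine (norm_sum_le _ _).trans ?_
    calc _ ≤ ∑ _i ∈ Finset.range (Y+1), ℓ := by
          refine Finset.sum_le_sum fun i hi => ?_
          rw [norm_mul, norm_ee, mul_one]
          exact hAn i (by have := Finset.mem_range.mp hi; omega)
      _ = _ := by simp
  have hBs0 : 0 ≤ Bs := (norm_nonneg _).trans (hBs 0)
  have hBhn : ∀ t, ‖Bh t‖ ≤ Bs := by
    intro t
    have h1 := hBs (((t:ℝ) / M) / q)
    have h2 : ∑ n ∈ Finset.Ioc 0 X, (if q ∣ n then (g n : ℂ) else 0) * ee (n * (((t:ℝ) / M) / q)) =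
        ∑ n ∈ Finset.Ioc 0 X, (if q ∣ n then (g n : ℂ) * ee (n * (((t:ℝ) / M) / q)) else 0) := by
      refine Finset.sum_congr rfl fun n _ => ?_
      split_ifs <;> simp
    rw [h2, sum_multiples hq (fun n => (g n : ℂ) * ee (n * (((t:ℝ) / M) / q)))] at h1
    refine le_trans (le_of_eq ?_) h1
    congr 1
    simp only [hBh]
    have h3 : Finset.range (Y+1) = insert 0 (Finset.Ioc 0 Y) := by
      ext x; simp only [Finset.mem_range, Finset.mem_insert, Finset.mem_Ioc]; omega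
    rw [h3, Finset.sum_insert (by simp)]
    have h4 : B 0 = 0 := by simp only [hB]; rw [mul_zero, hg0]; simp
    rw [h4, zero_mul, zero_add]
    refine Finset.sum_congr rfl fun j _ => ?_
    simp only [hB]
    congr 2
    push_cast
    field_simp
  have hGn : ∀ t, ‖G t‖ ≤ (Y+1) * ℓ * Bs := by
    intro t
    simp only [hG]
    rw [norm_mul]
    exact mul_le_mul (hAhn t) (hBhn t) (norm_nonneg _) (by positivity)
  have hG1 : ∑ t ∈ Finset.range M, ‖G t‖ ≤ M * (Y+1) * ℓ ^ 2 := by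
    have h1 := Finset.sum_mul_sq_le_sq_mul_sq (Finset.range M) (fun t => ‖Ah t‖) (fun t => ‖Bh t‖)
    have h2 : ∑ t ∈ Finset.range M, ‖Ah t‖ ^ 2 ≤ M * (Y+1) * ℓ ^ 2 := by
      simp only [hAh]
      rw [parseval' (by omega) A]
      calc (M:ℝ) * ∑ i ∈ Finset.range (Y+1), ‖A i‖ ^ 2 ≤ M * ∑ _i ∈ Finset.range (Y+1), ℓ ^ 2 := by
            gcongr with i hi
            exact hAn i (by have := Finset.mem_range.mp hi; omega)
        _ = _ := by simp; ring
    have h3 : ∑ t ∈ Finset.range M, ‖Bh t‖ ^ 2 ≤ M * (Y+1) * ℓ ^ 2 := by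
      simp only [hBh]
      rw [parseval' (by omega) B]
      calc (M:ℝ) * ∑ i ∈ Finset.range (Y+1), ‖B i‖ ^ 2 ≤ M * ∑ _i ∈ Finset.range (Y+1), ℓ ^ 2 := by
            gcongr with i hi
            exact hBn i (by have := Finset.mem_range.mp hi; omega)
        _ = _ := by simp; ring
    have h4 : (∑ t ∈ Finset.range M, ‖G t‖) ^ 2 ≤ (M * (Y+1) * ℓ ^ 2) ^ 2 := by
      have e1 : ∀ t ∈ Finset.range M, ‖G t‖ = ‖Ah t‖ * ‖Bh t‖ := fun t _ => norm_mul _ _
      rw [Finset.sum_congr rfl e1]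
      refine h1.trans ?_
      rw [sq]
      exact mul_le_mul h2 h3 (Finset.sum_nonneg fun _ _ => by positivity) (by positivity)
    exact le_of_sq_le_sq h4 (by positivity)
  -- frequencies
  set L : ℕ → ℤ := fun l => (F.eval ((c + q * l : ℕ) : ℤ) - (F.eval (c:ℤ)) % q) / q with hL
  set w : ℝ := P / M0 with hw
  set Bad := (Finset.range M).filter (fun s : ℕ => w <
    ‖∑ l ∈ Finset.range P, ee (L l * ((s:ℝ) / M))‖) with hBad
  set δ : ℝ := M2 ^ (d-1) * M1 / (P ^ d * (q:ℝ) ^ (d-1)) with hδ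
  have hδ0 : 0 ≤ δ := by positivity
  have hδM : δ * M ≤ 3 * H * 2 ^ d * M3 := by
    have h1 : (M:ℝ) ≤ 3 * X / q := by
      rw [hM]; push_cast
      have : 1 ≤ (X:ℝ) / q := by rw [one_le_div hq0]; exact hqXR
      have e : 3 * (X:ℝ) / q = 2 * (X / q) + X / q := by ring
      rw [e]; linarith
    have h2 : (K:ℝ) / (q * P) ≤ 2 := by
      rw [div_le_iff₀ (by positivity)]; linarith
    calc δ * M ≤ δ * (3 * X / q) := by gcongr
      _ = 3 * H * ((K:ℝ) / (q * P)) ^ d * (M2 ^ (d-1) * M1) := by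
          rw [hδ, hXK, div_pow, mul_pow]
          have : (q:ℝ) ^ d = q ^ (d-1) * q := by rw [← pow_succ]; congr 1; omega
          rw [this]
          field_simp
      _ ≤ 3 * H * 2 ^ d * (M2 ^ (d-1) * M1) := by gcongr
      _ ≤ 3 * H * 2 ^ d * M3 := by
          have : M2 ^ (d-1) * M1 ≤ M3 := by
            rw [hM3]
            calc M2 ^ (d-1) * M1 = M1 * 1 * M2 ^ (d-1) := by ring
              _ ≤ _ := by gcongr
          gcongr
  have hBadsub : Bad ⊆ (Finset.Ioc 0 ⌊M3⌋₊).biUnion (fun ρ =>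
      (Finset.range M).filter (fun s : ℕ => nn (ρ * ((s:ℝ) / M)) ≤ δ)) := by
    intro s hs
    obtain ⟨hs1, hs2⟩ := Finset.mem_filter.mp hs
    obtain ⟨f, hf1, hf2, hf3⟩ := freq_poly F hd (c := c) hq ((s:ℝ) / M)
    obtain ⟨r, hr0, hrM, hrn⟩ := hW M0 hM0 P hP1 f hf1 (by
      simp_rw [hf2]
      exact hs2.le)
    obtain ⟨D, hD0, hDM, hDn⟩ := arc_descent (d := d) hd (q := q) (r := r) hq (TT' F c) (a := a)
      (M1 := M1) (M2 := M2) (H := H) (P := P) (γ := (s:ℝ) / M) (by rw [hdd, TT'_top]) ha1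
      (by linarith) hM2 (by linarith) hPR (fun j hj1 hj2 => by
        have := hrn j hj1 hj2
        rwa [hf3 j hj1] at this) (fun j hj1 hj2 => hHT j hj1 hj2 c q hc.le hq) hgcd (by
        have h1 : 2 * (q:ℝ) * ((a + H) * M2 ^ (d-1) * M1 * q) < 2 * q * P := by
          calc 2 * (q:ℝ) * ((a + H) * M2 ^ (d-1) * M1 * q) =
              2 * (a + H) * M2 ^ (d-1) * M1 * (q:ℝ) ^ 2 := by ring
            _ < K := hbig
            _ ≤ _ := hPlow
        exact lt_of_mul_lt_mul_left h1 (by positivity))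
    refine Finset.mem_biUnion.mpr ⟨r * D, ?_, Finset.mem_filter.mpr ⟨hs1, hDn⟩⟩
    refine Finset.mem_Ioc.mpr ⟨Nat.mul_pos hr0 hD0, Nat.le_floor ?_⟩
    push_cast
    calc (r:ℝ) * D ≤ M1 * (a * M2 ^ (d-1)) := by gcongr
      _ = M3 := by rw [hM3]; ring
  have hM3f : (⌊M3⌋₊ : ℝ) ≤ M3 := Nat.floor_le (by linarith)
  have hBadcard : (Bad.card : ℝ) ≤ 14 * H * 2 ^ d * M3 ^ 3 := by
    have h1 : Bad.card ≤ ∑ ρ ∈ Finset.Ioc 0 ⌊M3⌋₊,
        ((Finset.range M).filter (fun s : ℕ => nn (ρ * ((s:ℝ) / M)) ≤ δ)).card :=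
      (Finset.card_le_card hBadsub).trans Finset.card_biUnion_le
    have h2d : (1:ℝ) ≤ 2 ^ d := one_le_pow₀ (by norm_num)
    calc (Bad.card : ℝ) ≤ ∑ ρ ∈ Finset.Ioc 0 ⌊M3⌋₊,
          (((Finset.range M).filter (fun s : ℕ => nn (ρ * ((s:ℝ) / M)) ≤ δ)).card : ℝ) := by
          exact_mod_cast h1
      _ ≤ ∑ ρ ∈ Finset.Ioc 0 ⌊M3⌋₊, (M3 + 1) * (2 * δ * M + 1) := by
          refine Finset.sum_le_sum fun ρ hρ => ?_
          obtain ⟨hρ1, hρ2⟩ := Finset.mem_Ioc.mp hρ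
          have h3 : (ρ:ℝ) ≤ M3 := (Nat.cast_le.mpr hρ2).trans hM3f
          refine (count_near (by omega) hρ1 hδ0).trans ?_
          gcongr
      _ = (⌊M3⌋₊ : ℝ) * ((M3 + 1) * (2 * δ * M + 1)) := by
          rw [Finset.sum_const, nsmul_eq_mul, Nat.card_Ioc, Nat.sub_zero]
      _ ≤ M3 * ((2 * M3) * (7 * H * 2 ^ d * M3)) := by
          have h3 : 2 * δ * M + 1 ≤ 7 * H * 2 ^ d * M3 := by
            have h4 : (1:ℝ) ≤ H * 2 ^ d * M3 := by
              calc (1:ℝ) = 1 * 1 * 1 := by ring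
                _ ≤ _ := by gcongr
            have h5 : 2 * δ * M = 2 * (δ * M) := by ring
            rw [h5]
            have h6 : 7 * (H:ℝ) * 2 ^ d * M3 = 2 * (3 * H * 2 ^ d * M3) + H * 2 ^ d * M3 := by ring
            linarith
          have h4 : M3 + 1 ≤ 2 * M3 := by linarith
          gcongr
      _ = _ := by ring
  have hcirc := circle_bound (M := M) (by omega) G (Finset.range P) L (w := w) (Gm := (Y+1) * ℓ * Bs)
    (by positivity) Bad (fun s hs hsB => by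
      by_contra hcon
      push Not at hcon
      exact hsB (Finset.mem_filter.mpr ⟨hs, hcon⟩)) hGn
  have hEl : ∀ l ∈ Finset.range P, (M:ℝ) ^ 2 * E g (val F (c + q * l)) q ^ 2 ≤
      ‖∑ t ∈ Finset.range M, G t * ee (-(L l * ((t:ℝ) / M)))‖ ^ 2 := by
    intro l hl
    rcases le_or_gt (F.eval ((c + q * l : ℕ) : ℤ)) 0 with h0 | h0
    · have : val F (c + q * l) = 0 := Int.toNat_eq_zero.mpr h0
      rw [this, E_zero]
      simp
    · set N := val F (c + q * l) with hN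
      have hNZ : (N:ℤ) = F.eval ((c + q * l : ℕ) : ℤ) := Int.toNat_of_nonneg h0.le
      have hN1 : 1 ≤ N := by omega
      have hkK : c + q * l ≤ K := by
        have h1 := Finset.mem_range.mp hl
        have h2 : q * l ≤ K - c := by
          calc q * l ≤ q * ((K - c) / q) := Nat.mul_le_mul_left _ (by omega)
            _ ≤ K - c := Nat.mul_div_le _ _
        omega
      have hNX : N ≤ X := by
        have h1 := hHF (c + q * l) K hkK hK1
        rw [← hNZ] at h1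
        have h2 : (N:ℝ) ≤ X := by
          rw [hXK]
          refine le_trans (le_of_eq ?_) h1
          rw [abs_of_nonneg (by positivity)]
          push_cast; ring
        exact_mod_cast h2
      have hmodeq : F.eval ((c + q * l : ℕ) : ℤ) ≡ F.eval (c:ℤ) [ZMOD q] := by
        refine Int.ModEq.symm ?_
        rw [Int.modEq_iff_dvd]
        refine dvd_trans ?_ (sub_dvd_eval_sub _ _ F)
        exact ⟨l, by push_cast; ring⟩
      have hNb : N % q = b := by
        have : ((N % q : ℕ) : ℤ) = b := by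
          rw [hbZ, ← hmodeq.eq, ← hNZ]; push_cast; ring
        exact_mod_cast this
      have hLN : L l = ((N / q : ℕ) : ℤ) := by
        simp only [hL]
        rw [← hbZ, ← hNZ, ← hNb]
        have h1 := Nat.div_add_mod N q
        have h2 : (N:ℤ) - ((N % q : ℕ) : ℤ) = q * ((N / q : ℕ) : ℤ) := by
          have : ((q * (N / q) + N % q : ℕ) : ℤ) = N := by rw [h1]
          push_cast at this ⊢
          linarith
        rw [h2, Int.mul_ediv_cancel_left _ (by exact_mod_cast (by omega : q ≠ 0))]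
      have hinv := conv_inversion (M := M) (Y := Y) (by omega) A B (L := N / q)
        (Nat.div_le_div_right hNX)
      have hE := E_eq_conv hg0 hN1 hq
      have h1 : (M:ℂ) * ((E g N q : ℝ) : ℂ) =
          ∑ t ∈ Finset.range M, G t * ee (-(L l * ((t:ℝ) / M))) := by
        rw [hE, hNb, hLN]
        simp only [hG, hAh, hBh]
        rw [← hinv]
        congr 1
        rw [Complex.ofReal_sum]
        refine Finset.sum_congr rfl fun x _ => ?_
        simp only [hA, hB]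
        push_cast; ring
      rw [← h1, norm_mul, Complex.norm_natCast, Complex.norm_real, mul_pow, Real.norm_eq_abs, sq_abs]
  have hfin : (M:ℝ) ^ 2 * ∑ l ∈ Finset.range P, E g (val F (c + q * l)) q ^ 2 ≤
      w * (M * (Y+1) * ℓ ^ 2) ^ 2 +
        P * (14 * H * 2 ^ d * M3 ^ 3) * ((Y+1) * ℓ * Bs) * (M * (Y+1) * ℓ ^ 2) := by
    rw [Finset.mul_sum]
    refine (Finset.sum_le_sum hEl).trans (hcirc.trans ?_)
    rw [Finset.card_range]
    have : 0 ≤ ∑ t ∈ Finset.range M, ‖G t‖ := Finset.sum_nonneg fun _ _ => norm_nonneg _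
    have hw0 : 0 ≤ w := by positivity
    gcongr
  have hYM : (Y:ℝ) + 1 ≤ M := by rw [hM]; push_cast; linarith [Nat.cast_nonneg (α := ℝ) Y]
  have hfin2 : (M:ℝ) ^ 2 * ∑ l ∈ Finset.range P, E g (val F (c + q * l)) q ^ 2 ≤
      M ^ 2 * (P * ((Y:ℝ)+1) ^ 2 * ℓ ^ 4 / M0 + P * (14 * H * 2 ^ d * M3 ^ 3) * (Y+1) * ℓ ^ 3 * Bs) := by
    refine hfin.trans ?_
    have e1 : w * (M * (Y+1) * ℓ ^ 2) ^ 2 = (M:ℝ) ^ 2 * (P * ((Y:ℝ)+1) ^ 2 * ℓ ^ 4 / M0) := by
      rw [hw]; ring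
    have e2 : (P:ℝ) * (14 * H * 2 ^ d * M3 ^ 3) * ((Y+1) * ℓ * Bs) * (M * (Y+1) * ℓ ^ 2) =
        (M * (Y+1)) * (P * (14 * H * 2 ^ d * M3 ^ 3) * (Y+1) * ℓ ^ 3 * Bs) := by ring
    rw [e1, e2, mul_add ((M:ℝ) ^ 2)]
    have h5 : (M:ℝ) * (Y+1) ≤ M ^ 2 := by rw [sq]; gcongr
    have h6 : 0 ≤ (P:ℝ) * (14 * H * 2 ^ d * M3 ^ 3) * (Y+1) * ℓ ^ 3 * Bs := by positivity
    exact add_le_add le_rfl (mul_le_mul_of_nonneg_right h5 h6)
  exact le_of_mul_le_mul_left hfin2 (by positivity)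

end Pool.Agent.DEH
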