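import Pool.Agent.DEH.PolyGcd
import Pool.Agent.DEH.PolyCircle
import Pool.Agent.DEH.MeanSq

open Complex Polynomial Pool.Agent.ANT

namespace Pool.Agent.DEH

/-- `F^{(j)}(c)/j!`. -/
noncomputable def TT' (F : ℤ[X]) (c j : ℕ) : ℤ := (hasseDeriv j F).eval (c:ℤ)

lemma poly_bound (G : ℤ[X]) (n : ℕ) (hn : G.natDegree ≤ n) : ∃ H : ℕ, 1 ≤ H ∧ ∀ c q : ℕ, c ≤ q →
    1 ≤ q → |((G.eval (c:ℤ) : ℤ) : ℝ)| ≤ H * (q:ℝ) ^ n := by
  refine ⟨(∑ i ∈ Finset.range (n+1), |G.coeff i|).toNat + 1, by omega, fun c q hcq hq => ?_⟩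
  have hq1 : (1:ℝ) ≤ q := by exact_mod_cast hq
  have h0 : 0 ≤ ∑ i ∈ Finset.range (n+1), |G.coeff i| := Finset.sum_nonneg fun _ _ => abs_nonneg _
  have hcast : (((∑ i ∈ Finset.range (n+1), |G.coeff i|).toNat : ℕ) : ℝ) =
      ∑ i ∈ Finset.range (n+1), |(G.coeff i : ℝ)| := by
    have : (((∑ i ∈ Finset.range (n+1), |G.coeff i|).toNat : ℕ) : ℤ) =
        ∑ i ∈ Finset.range (n+1), |G.coeff i| := Int.toNat_of_nonneg h0
    have h2 : ((((∑ i ∈ Finset.range (n+1), |G.coeff i|).toNat : ℕ) : ℤ) : ℝ) =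
        ((∑ i ∈ Finset.range (n+1), |G.coeff i| : ℤ) : ℝ) := by rw [this]
    push_cast at h2
    exact h2
  rw [eval_eq_sum_range' (Nat.lt_succ_of_le hn)]
  push_cast
  rw [hcast]
  calc |∑ i ∈ Finset.range (n+1), (G.coeff i : ℝ) * (c:ℝ) ^ i|
      ≤ ∑ i ∈ Finset.range (n+1), |(G.coeff i : ℝ) * (c:ℝ) ^ i| := Finset.abs_sum_le_sum_abs _ _
    _ ≤ ∑ i ∈ Finset.range (n+1), |(G.coeff i : ℝ)| * (q:ℝ) ^ n := by
        refine Finset.sum_le_sum fun i hi => ?_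
        have hin : i ≤ n := by have := Finset.mem_range.mp hi; omega
        rw [abs_mul, abs_pow, abs_of_nonneg (show (0:ℝ) ≤ (c:ℝ) from Nat.cast_nonneg c)]
        have h1 : (c:ℝ) ^ i ≤ (q:ℝ) ^ n := by
          calc (c:ℝ) ^ i ≤ (q:ℝ) ^ i := by
                have : (c:ℝ) ≤ q := by exact_mod_cast hcq
                gcongr
            _ ≤ (q:ℝ) ^ n := pow_le_pow_right₀ hq1 hin
        gcongr
    _ = (∑ i ∈ Finset.range (n+1), |(G.coeff i : ℝ)|) * (q:ℝ) ^ n := by rw [Finset.sum_mul]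
    _ ≤ _ := by
        have : 0 ≤ (q:ℝ) ^ n := by positivity
        nlinarith

/-- Uniform bounds for `F` and its divided derivatives. -/
lemma poly_data (F : ℤ[X]) : ∃ H : ℕ, 1 ≤ H ∧
    (∀ k K : ℕ, k ≤ K → 1 ≤ K → |((F.eval (k:ℤ) : ℤ) : ℝ)| ≤ H * (K:ℝ) ^ F.natDegree) ∧
    ∀ j, 1 ≤ j → j < F.natDegree → ∀ c q : ℕ, c ≤ q → 1 ≤ q →
      |(TT' F c j : ℝ)| ≤ H * (q:ℝ) ^ (F.natDegree - j) := by
  classical
  have h1 : ∀ j : ℕ, ∃ H : ℕ, 1 ≤ H ∧ ∀ c q : ℕ, c ≤ q → 1 ≤ q →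
      |(TT' F c j : ℝ)| ≤ H * (q:ℝ) ^ (F.natDegree - j) := fun j =>
    poly_bound (hasseDeriv j F) _ (natDegree_hasseDeriv_le F j)
  choose Hj hHj1 hHj2 using h1
  obtain ⟨H0, hH01, hH02⟩ := poly_bound F F.natDegree le_rfl
  refine ⟨H0 + ∑ j ∈ Finset.range F.natDegree, Hj j, by omega, ?_, ?_⟩
  · intro k K hk hK
    refine (hH02 k K hk hK).trans ?_
    have : (0:ℝ) ≤ ∑ j ∈ Finset.range F.natDegree, (Hj j : ℝ) := Finset.sum_nonneg fun _ _ => by positivity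
    push_cast
    gcongr
    linarith
  · intro j _ hj2 c q hcq hq
    refine (hHj2 j c q hcq hq).trans ?_
    have h3 : (Hj j : ℝ) ≤ ∑ j ∈ Finset.range F.natDegree, (Hj j : ℝ) :=
      Finset.single_le_sum (f := fun j => (Hj j : ℝ)) (fun _ _ => by positivity) (Finset.mem_range.mpr hj2)
    push_cast
    gcongr
    have : (0:ℝ) ≤ H0 := Nat.cast_nonneg _
    linarith

/-- The frequency polynomial. -/
lemma freq_poly (F : ℤ[X]) (hd : 1 ≤ F.natDegree) {q c : ℕ} (hq : 1 ≤ q) (γ : ℝ) :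
    ∃ f : ℝ[X], f.natDegree ≤ F.natDegree ∧
      (∀ l : ℕ, ee (f.eval (l:ℝ)) =
        ee ((((F.eval ((c + q * l : ℕ) : ℤ) - (F.eval (c:ℤ)) % q) / q : ℤ) : ℝ) * γ)) ∧
      ∀ j, 1 ≤ j → f.coeff j = γ * (q:ℝ) ^ (j-1) * TT' F c j := by
  have hq0 : (q:ℝ) ≠ 0 := by positivity
  set φ := Int.castRingHom ℝ with hφ
  set Fr := F.map φ with hFr
  set b : ℤ := (F.eval (c:ℤ)) % q with hb
  set f : ℝ[X] := C (γ / q) * ((taylor (c:ℝ) Fr).comp (C (q:ℝ) * X) - C (b:ℝ)) with hf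
  refine ⟨f, ?_, ?_, ?_⟩
  · refine (natDegree_C_mul_le _ _).trans ?_
    rw [natDegree_sub_C]
    refine (natDegree_comp_le).trans ?_
    rw [natDegree_taylor]
    calc Fr.natDegree * (C (q:ℝ) * X : ℝ[X]).natDegree ≤ F.natDegree * 1 :=
          Nat.mul_le_mul (natDegree_map_le) ((natDegree_C_mul_le _ _).trans natDegree_X_le)
      _ = _ := mul_one _
  · intro l
    congr 1
    have hdvd : (q:ℤ) ∣ F.eval ((c + q * l : ℕ) : ℤ) - b := by
      have h1 : (q:ℤ) ∣ F.eval (c:ℤ) - b := by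
        rw [hb]; exact Int.dvd_self_sub_emod
      have h2 : (q:ℤ) ∣ F.eval ((c + q * l : ℕ) : ℤ) - F.eval (c:ℤ) := by
        refine dvd_trans ?_ (sub_dvd_eval_sub _ _ F)
        exact ⟨l, by push_cast; ring⟩
      have := dvd_add h2 h1
      rwa [sub_add_sub_cancel] at this
    obtain ⟨L, hL⟩ := hdvd
    rw [hL, Int.mul_ediv_cancel_left _ (by exact_mod_cast (by omega : q ≠ 0))]
    have h3 : Fr.eval ((q:ℝ) * l + c) - b = q * L := by
      have h4 : Fr.eval ((q:ℝ) * l + c) = ((F.eval ((c + q * l : ℕ) : ℤ) : ℤ) : ℝ) := by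
        rw [hFr, eval_map, show (q:ℝ) * l + c = φ ((c + q * l : ℕ) : ℤ) by
          rw [hφ]; simp; ring, eval₂_at_apply]
        rfl
      rw [h4]
      exact_mod_cast hL
    rw [hf, eval_mul, eval_C, eval_sub, eval_comp, eval_mul, eval_C, eval_X, taylor_eval, eval_C, h3]
    field_simp
  · intro j hj
    have h1 : (taylor (c:ℝ) Fr).coeff j = TT' F c j := by
      rw [taylor_coeff]
      have h2 : hasseDeriv j Fr = (hasseDeriv j F).map φ := by
        ext n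
        rw [hasseDeriv_coeff, hFr, coeff_map, coeff_map, hasseDeriv_coeff]
        simp
      rw [h2, eval_map, show (c:ℝ) = φ (c:ℤ) by rw [hφ]; simp, eval₂_at_apply]
      rfl
    rw [hf, coeff_C_mul, coeff_sub, coeff_C, if_neg (by omega), sub_zero, comp_C_mul_X_coeff, h1]
    have : (q:ℝ) ^ j = q ^ (j-1) * q := by rw [← pow_succ]; congr 1; omega
    rw [this]
    field_simp

lemma TT'_top (F : ℤ[X]) (c : ℕ) : TT' F c F.natDegree = F.leadingCoeff := by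
  unfold TT'
  have h1 : (hasseDeriv F.natDegree F).natDegree ≤ 0 :=
    (natDegree_hasseDeriv_le F _).trans (by omega)
  rw [eq_C_of_natDegree_le_zero h1, eval_C, hasseDeriv_coeff, zero_add, Nat.choose_self, Nat.cast_one,
    one_mul]
  rfl

/-- Splitting into residue classes. -/
lemma sum_residues {q K : ℕ} (hq : 1 ≤ q) (hqK : q ≤ K) (f : ℕ → ℝ) :
    ∑ k ∈ Finset.range (K+1), f k =
      ∑ c ∈ Finset.range q, ∑ l ∈ Finset.range ((K - c) / q + 1), f (c + q * l) := by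
  classical
  rw [← Finset.sum_fiberwise_of_maps_to (t := Finset.range q) (g := fun k => k % q)
    (fun k _ => Finset.mem_range.mpr (Nat.mod_lt _ hq))]
  refine Finset.sum_congr rfl fun c hc => ?_
  have hcq := Finset.mem_range.mp hc
  refine (Finset.sum_bij' (fun l _ => c + q * l) (fun k _ => k / q) ?_ ?_ ?_ ?_ ?_).symm
  · intro l hl
    have h1 := Finset.mem_range.mp hl
    have h2 : q * l ≤ K - c := by
      calc q * l ≤ q * ((K - c) / q) := Nat.mul_le_mul_left _ (by omega)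
        _ ≤ K - c := Nat.mul_div_le _ _
    refine Finset.mem_filter.mpr ⟨Finset.mem_range.mpr (by omega), ?_⟩
    show (c + q * l) % q = c
    rw [Nat.add_mul_mod_self_left, Nat.mod_eq_of_lt hcq]
  · intro k hk
    obtain ⟨h1, h2⟩ := Finset.mem_filter.mp hk
    have h2' : k % q = c := h2
    have h3 := Finset.mem_range.mp h1
    have h4 := Nat.div_add_mod k q
    rw [h2'] at h4
    refine Finset.mem_range.mpr (Nat.lt_succ_of_le ?_)
    rw [Nat.le_div_iff_mul_le hq, mul_comm]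
    omega
  · intro l _
    show (c + q * l) / q = l
    rw [Nat.add_mul_div_left _ _ hq, Nat.div_eq_of_lt hcq, zero_add]
  · intro k hk
    obtain ⟨h1, h2⟩ := Finset.mem_filter.mp hk
    have h2' : k % q = c := h2
    have h4 := Nat.div_add_mod k q
    rw [h2'] at h4
    show c + q * (k / q) = k
    omega
  · intro l _; rfl

end Pool.Agent.DEH
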