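import Pool.Agent.DEH.PolyGood

open Complex Polynomial Pool.Agent.ANT

namespace Pool.Agent.DEH

lemma E_trivial {g : ℕ → ℝ} (hg0 : g 0 = 0) (hg1 : ∀ m, |g m| ≤ 1 + Real.log m) {N X q : ℕ}
    (hq : 1 ≤ q) (hN : N ≤ X) (hX : 1 ≤ X) :
    |E g N q| ≤ (((X / q : ℕ) : ℝ) + 1) * (1 + Real.log X) ^ 2 := by
  have hℓ : 0 ≤ Real.log X := Real.log_natCast_nonneg X
  rcases Nat.eq_zero_or_pos N with h0 | h0
  · rw [h0, E_zero, abs_zero]; positivity
  rw [E_eq_conv hg0 h0 hq]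
  refine (Finset.abs_sum_le_sum_abs _ _).trans ?_
  have hterm : ∀ x ∈ Finset.HasAntidiagonal.antidiagonal (N / q),
      |ArithmeticFunction.vonMangoldt (q * x.1 + N % q) * g (q * x.2)| ≤ (1 + Real.log X) ^ 2 := by
    intro x hx
    have hx' := Finset.HasAntidiagonal.mem_antidiagonal.mp hx
    have hdm := Nat.div_add_mod N q
    have h1 : q * x.1 ≤ q * (N / q) := Nat.mul_le_mul_left _ (by omega)
    have h2 : q * x.2 ≤ q * (N / q) := Nat.mul_le_mul_left _ (by omega)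
    rw [abs_mul, sq]
    refine mul_le_mul ?_ ?_ (abs_nonneg _) (by linarith)
    · rw [abs_of_nonneg ArithmeticFunction.vonMangoldt_nonneg]
      refine ArithmeticFunction.vonMangoldt_le_log.trans ?_
      rcases Nat.eq_zero_or_pos (q * x.1 + N % q) with h3 | h3
      · rw [h3]; simp; linarith
      · have : Real.log ((q * x.1 + N % q : ℕ) : ℝ) ≤ Real.log X :=
          Real.log_le_log (by exact_mod_cast h3) (by exact_mod_cast (by omega : q * x.1 + N % q ≤ X))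
        linarith
    · rcases Nat.eq_zero_or_pos (q * x.2) with h3 | h3
      · rw [h3, hg0, abs_zero]; linarith
      · refine (hg1 _).trans ?_
        have : Real.log ((q * x.2 : ℕ) : ℝ) ≤ Real.log X :=
          Real.log_le_log (by exact_mod_cast h3) (by exact_mod_cast (by omega : q * x.2 ≤ X))
        linarith
  calc _ ≤ ∑ _x ∈ Finset.HasAntidiagonal.antidiagonal (N / q), (1 + Real.log X) ^ 2 :=
        Finset.sum_le_sum hterm
    _ = ((N / q : ℕ) + 1 : ℝ) * (1 + Real.log X) ^ 2 := by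
        rw [Finset.sum_const, Finset.Nat.card_antidiagonal, nsmul_eq_mul]; push_cast; ring
    _ ≤ _ := by
        have : ((N / q : ℕ) : ℝ) ≤ ((X / q : ℕ) : ℝ) := by exact_mod_cast Nat.div_le_div_right hN
        gcongr

lemma lead_hasse {F : ℤ[X]} {j : ℕ} (hj : j ≤ F.natDegree) :
    (hasseDeriv j F).leadingCoeff = (F.natDegree.choose j : ℤ) * F.leadingCoeff := by
  rw [leadingCoeff, natDegree_hasseDeriv, hasseDeriv_coeff, Nat.sub_add_cancel hj]
  rfl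

/-- Few residues have a large common factor. -/
lemma bad_residues {F : ℤ[X]} (ha : 0 < F.leadingCoeff) {L q : ℕ} (hL : 1 ≤ L) (hq : 1 ≤ q) {M2 : ℝ}
    (hM2 : (2:ℝ) ^ F.natDegree * F.leadingCoeff * L ^ (F.natDegree * (F.natDegree + 1)) ≤ M2)
    (S : Finset ℕ) (hS : S ⊆ Finset.range q)
    (hSb : ∀ c ∈ S, ∃ j, 1 ≤ j ∧ j < F.natDegree ∧ M2 < ((Int.gcd (TT' F c j) q : ℕ) : ℝ)) :
    (S.card : ℝ) * L ≤ 2 * (F.natDegree : ℝ) ^ 2 * q * tauR q := by
  classical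
  set d := F.natDegree with hd
  have hsub : S ⊆ (Finset.Ico 1 d).biUnion (fun j => (Finset.range q).filter (fun c : ℕ =>
      |(hasseDeriv j F).leadingCoeff| * (L:ℤ) ^ ((d - j) * ((d - j) + 1)) <
      (Int.gcd ((hasseDeriv j F).eval (c:ℤ)) q : ℕ))) := by
    intro c hc
    obtain ⟨j, hj1, hj2, hj3⟩ := hSb c hc
    refine Finset.mem_biUnion.mpr ⟨j, Finset.mem_Ico.mpr ⟨hj1, hj2⟩, Finset.mem_filter.mpr ⟨hS hc, ?_⟩⟩
    have h1 : ((|(hasseDeriv j F).leadingCoeff| * (L:ℤ) ^ ((d - j) * ((d - j) + 1)) : ℤ) : ℝ) ≤ M2 := by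
      refine le_trans ?_ hM2
      rw [lead_hasse (by omega), abs_of_nonneg (by positivity)]
      push_cast
      have h2 : ((d.choose j : ℕ) : ℝ) ≤ 2 ^ d := by exact_mod_cast Nat.choose_le_two_pow d j
      have h3 : (L:ℝ) ^ ((d - j) * ((d - j) + 1)) ≤ (L:ℝ) ^ (d * (d+1)) := by
        refine pow_le_pow_right₀ (by exact_mod_cast hL) (Nat.mul_le_mul ?_ ?_) <;> omega
      have ha' : (0:ℝ) < F.leadingCoeff := by exact_mod_cast ha
      gcongr
    have h2 := lt_of_le_of_lt h1 hj3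
    exact_mod_cast h2
  have h1 : S.card * L ≤ ∑ j ∈ Finset.Ico 1 d, 2 * d * q * q.divisors.card := by
    calc S.card * L ≤ (∑ j ∈ Finset.Ico 1 d, ((Finset.range q).filter (fun c : ℕ =>
          |(hasseDeriv j F).leadingCoeff| * (L:ℤ) ^ ((d - j) * ((d - j) + 1)) <
          (Int.gcd ((hasseDeriv j F).eval (c:ℤ)) q : ℕ))).card) * L :=
          Nat.mul_le_mul_right _ ((Finset.card_le_card hsub).trans Finset.card_biUnion_le)
      _ = ∑ j ∈ Finset.Ico 1 d, ((Finset.range q).filter (fun c : ℕ =>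
          |(hasseDeriv j F).leadingCoeff| * (L:ℤ) ^ ((d - j) * ((d - j) + 1)) <
          (Int.gcd ((hasseDeriv j F).eval (c:ℤ)) q : ℕ))).card * L := by rw [Finset.sum_mul]
      _ ≤ _ := by
          refine Finset.sum_le_sum fun j hj => ?_
          obtain ⟨hj1, hj2⟩ := Finset.mem_Ico.mp hj
          have hne : hasseDeriv j F ≠ 0 := by
            intro h0
            have h2 := lead_hasse (F := F) (j := j) (by omega)
            rw [h0, leadingCoeff_zero] at h2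
            have h3 : (0:ℤ) < (F.natDegree.choose j : ℤ) * F.leadingCoeff := by
              have : 0 < F.natDegree.choose j := Nat.choose_pos (by omega)
              positivity
            omega
          refine (gcd_large_le (natDegree_hasseDeriv F j) hne hL hq).trans ?_
          refine Nat.mul_le_mul_right _ (Nat.mul_le_mul_right _ (Nat.mul_le_mul_left _ ?_))
          omega
  have h2 : (S.card : ℝ) * L ≤ ((d - 1 : ℕ) : ℝ) * (2 * d * q * tauR q) := by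
    unfold tauR
    rw [Finset.sum_const, Nat.card_Ico, smul_eq_mul] at h1
    exact_mod_cast h1
  refine h2.trans ?_
  have h3 : ((d - 1 : ℕ) : ℝ) ≤ d := by exact_mod_cast Nat.sub_le d 1
  have := tauR_nonneg q
  calc ((d - 1 : ℕ) : ℝ) * (2 * d * q * tauR q) ≤ d * (2 * d * q * tauR q) := by gcongr
    _ = _ := by ring

/-- Residues without large common factors. -/
def GoodRes (F : ℤ[X]) (q : ℕ) (M2 : ℝ) (c : ℕ) : Prop :=
  ∀ j, 1 ≤ j → j < F.natDegree → ((Int.gcd (TT' F c j) q : ℕ) : ℝ) ≤ M2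

lemma one_modulus {F : ℤ[X]} (hd : 1 ≤ F.natDegree) (ha : 0 < F.leadingCoeff) {H Cw : ℕ}
    (hW : WeylHyp F.natDegree Cw) (hH1 : 1 ≤ H)
    (hHF : ∀ k K : ℕ, k ≤ K → 1 ≤ K → |((F.eval (k:ℤ) : ℤ) : ℝ)| ≤ H * (K:ℝ) ^ F.natDegree)
    (hHT : ∀ j, 1 ≤ j → j < F.natDegree → ∀ c q : ℕ, c ≤ q → 1 ≤ q →
      |(TT' F c j : ℝ)| ≤ H * (q:ℝ) ^ (F.natDegree - j))
    {g : ℕ → ℝ} (hg0 : g 0 = 0) (hg1 : ∀ m, |g m| ≤ 1 + Real.log m) (hgood : Good g) (B : ℕ) :
    ∃ (C c0 : ℝ) (e : ℕ), 0 < C ∧ 0 < c0 ∧ ∀ K q : ℕ, 1 ≤ q → q ≤ K →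
      2 ≤ 1 + Real.log ((H * K ^ F.natDegree : ℕ) : ℝ) → q ^ 2 ≤ K →
      c0 * (1 + Real.log ((H * K ^ F.natDegree : ℕ) : ℝ)) ^ e * (q:ℝ) ^ 2 < K →
      ∑ k ∈ Finset.range (K+1), |E g (val F k) q| ≤
        C * K * (((H * K ^ F.natDegree : ℕ) : ℝ) / q) * tauR q *
          (1 + Real.log ((H * K ^ F.natDegree : ℕ) : ℝ)) ^ 2 /
          (1 + Real.log ((H * K ^ F.natDegree : ℕ) : ℝ)) ^ B := by
  classical
  set d := F.natDegree with hdd
  set a : ℝ := (F.leadingCoeff : ℝ) with haa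
  have ha1 : 1 ≤ a := by rw [haa]; exact_mod_cast ha
  have ha0 : 0 < a := by linarith
  have hHR : (1:ℝ) ≤ H := by exact_mod_cast hH1
  set c2 : ℝ := 2 ^ d * a * 2 ^ (d * (d+1)) with hc2
  set e3 : ℕ := 2 * B * Cw + B * (d * (d+1)) * (d-1) with he3
  set c3 : ℝ := 2 ^ Cw * a * c2 ^ (d-1) with hc3
  set m : ℕ := 4 + 3 * e3 + 2 * B with hm
  obtain ⟨Cg, hCg, hgm⟩ := hgood m
  set c4 : ℝ := 28 * H * 2 ^ d * c3 ^ 3 * Cg * 4 ^ m with hc4
  have hc20 : 0 < c2 := by positivity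
  have hc30 : 0 < c3 := by positivity
  have hc40 : 0 < c4 := by positivity
  refine ⟨2 * √(2 + c4) + 8 * d ^ 2, 2 * (a + H) * c2 ^ (d-1) * 2 ^ Cw, e3, by positivity,
    by positivity, fun K q hq hqK hℓ2 hqq hbig => ?_⟩
  set X := H * K ^ d with hX
  set ℓ := 1 + Real.log (X:ℝ) with hℓ
  set Y := X / q with hY
  have hK1 : 1 ≤ K := hq.trans hqK
  have hKR : (1:ℝ) ≤ K := by exact_mod_cast hK1
  have hqR : (1:ℝ) ≤ q := by exact_mod_cast hq
  have hq0 : (0:ℝ) < q := by linarith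
  have hqKR : (q:ℝ) ≤ K := by exact_mod_cast hqK
  have hKX : K ≤ X := by
    rw [hX]
    calc K = 1 * K ^ 1 := by ring
      _ ≤ H * K ^ d := Nat.mul_le_mul hH1 (Nat.pow_le_pow_right hK1 hd)
  have hX1 : 1 ≤ X := hK1.trans hKX
  have hXR : (1:ℝ) ≤ X := by exact_mod_cast hX1
  have hqX : q ≤ X := hqK.trans hKX
  have hqXR : (q:ℝ) ≤ X := by exact_mod_cast hqX
  have hℓ1 : 1 ≤ ℓ := by linarith
  have hℓ0 : 0 < ℓ := by linarith
  have hτ1 : 1 ≤ tauR q := one_le_tauR (by omega)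
  have hτ0 : 0 < tauR q := by linarith
  set L := ⌈ℓ ^ B⌉₊ with hL
  have hℓB : 1 ≤ ℓ ^ B := one_le_pow₀ hℓ1
  have hLlow : ℓ ^ B ≤ L := Nat.le_ceil _
  have hL1 : 1 ≤ L := by
    have : (1:ℝ) ≤ L := hℓB.trans hLlow
    exact_mod_cast this
  have hLup : (L:ℝ) ≤ 2 * ℓ ^ B := by
    have := Nat.ceil_lt_add_one (show 0 ≤ ℓ ^ B by positivity)
    rw [← hL] at this
    linarith
  set M0 : ℝ := 2 * ℓ ^ (2 * B) with hM0
  have hM02 : 2 ≤ M0 := by
    have : 1 ≤ ℓ ^ (2 * B) := one_le_pow₀ hℓ1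
    linarith
  set M2 : ℝ := 2 ^ d * a * L ^ (d * (d+1)) with hM2
  have hM21 : 1 ≤ M2 := by
    have h1 : (1:ℝ) ≤ 2 ^ d := one_le_pow₀ (by norm_num)
    have h2 : (1:ℝ) ≤ (L:ℝ) ^ (d * (d+1)) := one_le_pow₀ (by exact_mod_cast hL1)
    calc (1:ℝ) = 1 * 1 * 1 := by ring
      _ ≤ 2 ^ d * a * (L:ℝ) ^ (d * (d+1)) := by gcongr
  have hM2up : M2 ≤ c2 * ℓ ^ (B * (d * (d+1))) := by
    calc M2 ≤ 2 ^ d * a * (2 * ℓ ^ B) ^ (d * (d+1)) := by rw [hM2]; gcongr
      _ = _ := by rw [hc2, mul_pow, ← pow_mul]; ring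
  have hM1up : M0 ^ Cw = 2 ^ Cw * ℓ ^ (2 * B * Cw) := by rw [hM0, mul_pow, ← pow_mul]
  have hM3up : M0 ^ Cw * a * M2 ^ (d-1) ≤ c3 * ℓ ^ e3 := by
    calc M0 ^ Cw * a * M2 ^ (d-1) ≤ (2 ^ Cw * ℓ ^ (2 * B * Cw)) * a *
          (c2 * ℓ ^ (B * (d * (d+1)))) ^ (d-1) := by rw [hM1up]; gcongr
      _ = c3 * ℓ ^ e3 := by rw [hc3, he3, mul_pow, ← pow_mul, pow_add]; ring
  have hbig' : 2 * (a + H) * M2 ^ (d-1) * M0 ^ Cw * (q:ℝ) ^ 2 < K := by
    refine lt_of_le_of_lt ?_ hbig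
    have h1 : M2 ^ (d-1) * M0 ^ Cw ≤ c2 ^ (d-1) * 2 ^ Cw * ℓ ^ e3 := by
      calc M2 ^ (d-1) * M0 ^ Cw ≤ (c2 * ℓ ^ (B * (d * (d+1)))) ^ (d-1) *
            (2 ^ Cw * ℓ ^ (2 * B * Cw)) := by rw [hM1up]; gcongr
        _ = _ := by rw [he3, mul_pow, ← pow_mul, pow_add]; ring
    calc 2 * (a + H) * M2 ^ (d-1) * M0 ^ Cw * (q:ℝ) ^ 2 =
          2 * (a + H) * (M2 ^ (d-1) * M0 ^ Cw) * (q:ℝ) ^ 2 := by ring
      _ ≤ 2 * (a + H) * (c2 ^ (d-1) * 2 ^ Cw * ℓ ^ e3) * (q:ℝ) ^ 2 := by gcongr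
      _ = _ := by ring
  -- sup norm bound
  set Bs : ℝ := Cg * ℓ * tauR q ^ 2 * ((X / q) / (ℓ / 4) ^ m) with hBs
  have hBsb : ∀ α : ℝ, ‖∑ n ∈ Finset.Ioc 0 X, (if q ∣ n then (g n : ℂ) else 0) * ee (n * α)‖ ≤ Bs := by
    intro α
    refine (hgm q X hq α).trans ?_
    have hY1 : 1 ≤ X / q := (Nat.le_div_iff_mul_le hq).mpr (by omega)
    have h1 : phim m ((X / q : ℕ) : ℝ) ≤ (X / q) / (ℓ / 4) ^ m := by
      refine (phim_mono m (by exact_mod_cast hY1) Nat.cast_div_le).trans ?_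
      unfold phim
      have h2 : ℓ / 4 ≤ Real.log ((X:ℝ) / q) := by
        rw [Real.log_div (by linarith) hq0.ne']
        have h3 : 2 * Real.log q ≤ Real.log X := by
          rw [← Real.log_rpow hq0]
          refine Real.log_le_log (by positivity) ?_
          rw [Real.rpow_two]
          exact_mod_cast hqq.trans hKX
        linarith
      have h3 : (0:ℝ) ≤ m := Nat.cast_nonneg m
      have h4 : (0:ℝ) ≤ (X:ℝ) / q := by positivity
      gcongr
      linarith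
    have h2 := four_pow_omega_le_tau (q := q) (by omega)
    have h3 := phim_nat_nonneg m (X / q)
    calc _ ≤ Cg * ℓ * tauR q ^ 2 * ((X / q) / (ℓ / 4) ^ m) := by gcongr
      _ = Bs := rfl
  -- good and bad classes
  set Gd := (Finset.range q).filter (fun c => GoodRes F q M2 c) with hGd
  set Bd := (Finset.range q).filter (fun c => ¬ GoodRes F q M2 c) with hBd
  have hBdcard : (Bd.card : ℝ) * L ≤ 2 * (d:ℝ) ^ 2 * q * tauR q := by
    refine bad_residues ha hL1 hq (le_refl M2) Bd (Finset.filter_subset _ _) fun c hc => ?_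
    have h1 := (Finset.mem_filter.mp hc).2
    unfold GoodRes at h1
    push Not at h1
    obtain ⟨j, hj1, hj2, hj3⟩ := h1
    exact ⟨j, hj1, hj2, hj3⟩
  have hPup : ∀ c, (((K - c) / q + 1 : ℕ) : ℝ) ≤ 2 * K / q := by
    intro c
    have h1 : (((K - c) / q : ℕ) : ℝ) ≤ K / q := by
      calc (((K - c) / q : ℕ) : ℝ) ≤ ((K / q : ℕ) : ℝ) := by
            exact_mod_cast Nat.div_le_div_right (Nat.sub_le _ _)
        _ ≤ _ := Nat.cast_div_le
    have h2 : 1 ≤ (K:ℝ) / q := by rw [one_le_div hq0]; exact hqKR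
    push_cast
    have : 2 * (K:ℝ) / q = K / q + K / q := by ring
    linarith
  have hYup : (Y:ℝ) + 1 ≤ 2 * (X / q) := by
    have h1 : (Y:ℝ) ≤ X / q := Nat.cast_div_le
    have h2 : 1 ≤ (X:ℝ) / q := by rw [one_le_div hq0]; exact hqXR
    linarith
  have hXq0 : 0 < (X:ℝ) / q := by positivity
  have hgoodc : ∀ c ∈ Gd, ∑ l ∈ Finset.range ((K - c) / q + 1), |E g (val F (c + q * l)) q| ≤
      (2 * K / q) * ((X / q) * tauR q * √(2 + c4) * ℓ ^ 2 / ℓ ^ B) := by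
    intro c hc
    obtain ⟨hc1, hc2'⟩ := Finset.mem_filter.mp hc
    have h1 := good_residue hd ha hW hH1 hHF hHT hg0 hg1 hq hqK (Finset.mem_range.mp hc1) hM02 hM21
      hc2' hbig' hBsb
    rw [← hdd, ← hX, ← hℓ, ← hY, ← haa] at h1
    set P : ℝ := (((K - c) / q + 1 : ℕ) : ℝ) with hP
    have hP0 : 0 < P := by rw [hP]; positivity
    set S2 := ∑ l ∈ Finset.range ((K - c) / q + 1), E g (val F (c + q * l)) q ^ 2 with hS2
    have h2 : S2 ≤ P * ((X / q) * tauR q * √(2 + c4) * ℓ ^ 2 / ℓ ^ B) ^ 2 := by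
      refine h1.trans ?_
      have e1 : P * ((Y:ℝ) + 1) ^ 2 * ℓ ^ 4 / M0 ≤ P * (X / q) ^ 2 * tauR q ^ 2 * 2 * ℓ ^ 4 / ℓ ^ (2 * B) := by
        calc P * ((Y:ℝ) + 1) ^ 2 * ℓ ^ 4 / M0 ≤ P * (2 * (X / q)) ^ 2 * ℓ ^ 4 / M0 := by gcongr
          _ = P * (X / q) ^ 2 * 1 ^ 2 * 2 * ℓ ^ 4 / ℓ ^ (2 * B) := by
              rw [hM0]; field_simp; try ring
          _ ≤ _ := by gcongr
      have e2 : P * (14 * H * 2 ^ d * (M0 ^ Cw * a * M2 ^ (d-1)) ^ 3) * ((Y:ℝ) + 1) * ℓ ^ 3 * Bs ≤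
          P * (X / q) ^ 2 * tauR q ^ 2 * c4 * ℓ ^ 4 / ℓ ^ (2 * B) := by
        have hBs0 : 0 ≤ Bs := by positivity
        calc P * (14 * H * 2 ^ d * (M0 ^ Cw * a * M2 ^ (d-1)) ^ 3) * ((Y:ℝ) + 1) * ℓ ^ 3 * Bs
            ≤ P * (14 * H * 2 ^ d * (c3 * ℓ ^ e3) ^ 3) * (2 * (X / q)) * ℓ ^ 3 * Bs := by gcongr
          _ = P * (X / q) ^ 2 * tauR q ^ 2 * c4 * (ℓ ^ 4 * ℓ ^ (3 * e3) / ℓ ^ m) := by
              rw [hBs, hc4, mul_pow c3, ← pow_mul, div_pow ℓ 4 m, mul_comm 3 e3]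
              field_simp
              ring
          _ = P * (X / q) ^ 2 * tauR q ^ 2 * c4 * (1 / ℓ ^ (2 * B)) := by
              congr 1
              rw [hm, pow_add, pow_add]
              field_simp
          _ ≤ P * (X / q) ^ 2 * tauR q ^ 2 * c4 * (ℓ ^ 4 / ℓ ^ (2 * B)) := by
              have : 1 ≤ ℓ ^ 4 := one_le_pow₀ hℓ1
              gcongr
          _ = _ := by ring
      calc _ ≤ P * (X / q) ^ 2 * tauR q ^ 2 * 2 * ℓ ^ 4 / ℓ ^ (2 * B) +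
            P * (X / q) ^ 2 * tauR q ^ 2 * c4 * ℓ ^ 4 / ℓ ^ (2 * B) := add_le_add e1 e2
        _ = P * (X / q) ^ 2 * tauR q ^ 2 * (√(2 + c4)) ^ 2 * ℓ ^ 4 / ℓ ^ (2 * B) := by
            rw [Real.sq_sqrt (by positivity)]; ring
        _ = _ := by
            rw [show ℓ ^ (2 * B) = (ℓ ^ B) ^ 2 by rw [← pow_mul, mul_comm]]
            field_simp
    have h3 := Finset.sum_mul_sq_le_sq_mul_sq (Finset.range ((K - c) / q + 1)) (fun _ => (1:ℝ))
      (fun l => |E g (val F (c + q * l)) q|)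
    simp only [one_mul, one_pow, sq_abs, Finset.sum_const, Finset.card_range, nsmul_eq_mul, mul_one] at h3
    rw [← hS2, ← hP] at h3
    have h4 : (∑ l ∈ Finset.range ((K - c) / q + 1), |E g (val F (c + q * l)) q|) ^ 2 ≤
        (P * ((X / q) * tauR q * √(2 + c4) * ℓ ^ 2 / ℓ ^ B)) ^ 2 := by
      calc _ ≤ P * S2 := h3
        _ ≤ P * (P * ((X / q) * tauR q * √(2 + c4) * ℓ ^ 2 / ℓ ^ B) ^ 2) := by gcongr
        _ = _ := by ring
    have h5 := le_of_sq_le_sq h4 (by positivity)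
    refine h5.trans ?_
    have := hPup c
    rw [← hP] at this
    gcongr
  have hbadc : ∀ c ∈ Bd, ∑ l ∈ Finset.range ((K - c) / q + 1), |E g (val F (c + q * l)) q| ≤
      (2 * K / q) * (2 * (X / q) * ℓ ^ 2) := by
    intro c hc
    have hcq := Finset.mem_range.mp (Finset.mem_filter.mp hc).1
    calc _ ≤ ∑ _l ∈ Finset.range ((K - c) / q + 1), ((Y:ℝ) + 1) * ℓ ^ 2 := by
          refine Finset.sum_le_sum fun l hl => E_trivial hg0 hg1 hq ?_ hX1
          have h1 := Finset.mem_range.mp hl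
          have h2 : q * l ≤ K - c := by
            calc q * l ≤ q * ((K - c) / q) := Nat.mul_le_mul_left _ (by omega)
              _ ≤ K - c := Nat.mul_div_le _ _
          have h3 := hHF (c + q * l) K (by omega) hK1
          unfold val
          have h4 : (((F.eval ((c + q * l : ℕ) : ℤ)).toNat : ℕ) : ℝ) ≤ X := by
            have h5 : (((F.eval ((c + q * l : ℕ) : ℤ)).toNat : ℕ) : ℤ) ≤ |F.eval ((c + q * l : ℕ) : ℤ)| := by
              rw [Int.toNat_eq_max]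
              exact max_le (le_abs_self _) (abs_nonneg _)
            have h6 : (((F.eval ((c + q * l : ℕ) : ℤ)).toNat : ℕ) : ℝ) ≤
                |((F.eval ((c + q * l : ℕ) : ℤ) : ℤ) : ℝ)| := by exact_mod_cast h5
            refine h6.trans (h3.trans (le_of_eq ?_))
            rw [hX]; push_cast; ring
          exact_mod_cast h4
      _ = (((K - c) / q + 1 : ℕ) : ℝ) * (((Y:ℝ) + 1) * ℓ ^ 2) := by
          rw [Finset.sum_const, Finset.card_range, nsmul_eq_mul]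
      _ ≤ _ := by
          have := hPup c
          gcongr
  rw [sum_residues hq hqK]
  have hsplit := Finset.sum_filter_add_sum_filter_not (Finset.range q)
    (fun c => GoodRes F q M2 c)
    (fun c => ∑ l ∈ Finset.range ((K - c) / q + 1), |E g (val F (c + q * l)) q|)
  rw [← hsplit, ← hGd, ← hBd]
  have hGcard : (Gd.card : ℝ) ≤ q := by
    have := Finset.card_filter_le (Finset.range q) (fun c => GoodRes F q M2 c)
    rw [Finset.card_range] at this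
    exact_mod_cast this
  have hBcard : (Bd.card : ℝ) ≤ 2 * (d:ℝ) ^ 2 * q * tauR q / ℓ ^ B := by
    rw [le_div_iff₀ (by positivity)]
    have : (Bd.card : ℝ) * ℓ ^ B ≤ Bd.card * L := by gcongr
    linarith
  calc _ ≤ (q:ℝ) * ((2 * K / q) * ((X / q) * tauR q * √(2 + c4) * ℓ ^ 2 / ℓ ^ B)) +
        (2 * (d:ℝ) ^ 2 * q * tauR q / ℓ ^ B) * ((2 * K / q) * (2 * (X / q) * ℓ ^ 2)) := by
        refine add_le_add ?_ ?_
        · calc _ ≤ ∑ _c ∈ Gd, (2 * K / q) * ((X / q) * tauR q * √(2 + c4) * ℓ ^ 2 / ℓ ^ B) :=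
                Finset.sum_le_sum hgoodc
            _ = (Gd.card : ℝ) * ((2 * K / q) * ((X / q) * tauR q * √(2 + c4) * ℓ ^ 2 / ℓ ^ B)) := by
                rw [Finset.sum_const, nsmul_eq_mul]
            _ ≤ _ := by gcongr
        · calc _ ≤ ∑ _c ∈ Bd, (2 * K / q) * (2 * (X / q) * ℓ ^ 2) := Finset.sum_le_sum hbadc
            _ = (Bd.card : ℝ) * ((2 * K / q) * (2 * (X / q) * ℓ ^ 2)) := by
                rw [Finset.sum_const, nsmul_eq_mul]
            _ ≤ _ := by gcongr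
    _ = _ := by field_simp; ring

end Pool.Agent.DEH
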