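import Pool.Agent.DEH.Equiv

open Pool.Agent.ANT ArithmeticFunction
open scoped ArithmeticFunction.Moebius

namespace Pool.Agent.DEH

/-- real valued Möbius -/
noncomputable def muR (n : ℕ) : ℝ := ((μ n : ℤ) : ℝ)

lemma g1_eq_muR : g1 = muR := rfl

lemma abs_muR_le (n : ℕ) : |muR n| ≤ 1 := by
  unfold muR
  have := abs_moebius_le_one (n := n)
  exact_mod_cast this

lemma muR_sq (n : ℕ) : muR n ^ 2 = if Squarefree n then 1 else 0 := by
  unfold muR
  have := moebius_sq (n := n)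
  have h2 : (((μ n) ^ 2 : ℤ) : ℝ) = ((if Squarefree n then 1 else 0 : ℤ) : ℝ) := by rw [this]
  push_cast at h2
  exact h2

lemma muR_mul_muR (q k : ℕ) : muR q * muR (q * k) = muR k * muR (q * k) ^ 2 := by
  by_cases h : Squarefree (q * k)
  · have hcop : Nat.Coprime q k := Nat.coprime_of_squarefree_mul h
    have h1 : muR (q * k) = muR q * muR k := by
      unfold muR
      rw [isMultiplicative_moebius.map_mul_of_coprime hcop]
      push_cast; ring
    have hq : muR q ^ 2 = 1 := by rw [muR_sq, if_pos (h.of_mul_left)]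
    have hk : muR k ^ 2 = 1 := by rw [muR_sq, if_pos (h.of_mul_right)]
    rw [h1]
    calc muR q * (muR q * muR k) = muR q ^ 2 * muR k := by ring
      _ = muR k := by rw [hq]; ring
      _ = muR k * (muR q ^ 2 * muR k ^ 2) := by rw [hq, hk]; ring
      _ = _ := by ring
  · have : muR (q * k) = 0 := by unfold muR; rw [moebius_eq_zero_of_not_squarefree h]; simp
    rw [this]; ring

/-- On a block, `E` is a sum over `k ≤ j`. -/
lemma E_block {N j q : ℕ} (hj : 1 ≤ j) (hq : q ∈ Finset.Ioc (N / (j+1)) (N / j)) :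
    E g1 N q = ∑ k ∈ Finset.Icc 1 j, Λ (N - q * k) * muR (q * k) := by
  obtain ⟨hq1, hq2⟩ := Finset.mem_Ioc.mp hq
  have hq0 : 0 < q := lt_of_le_of_lt (Nat.zero_le _) hq1
  have h1 : N < q * (j+1) := (Nat.div_lt_iff_lt_mul (by omega)).mp hq1
  have h2 : q * j ≤ N := (Nat.le_div_iff_mul_le (by omega)).mp hq2
  have h3 : ∑ k ∈ Finset.Icc 1 j, Λ (N - q * k) * muR (q * k) =
      ∑ k ∈ (Finset.Icc 1 j).filter (fun k => q * k < N), Λ (N - q * k) * muR (q * k) := by
    symm
    refine Finset.sum_subset (Finset.filter_subset _ _) fun k hk hk' => ?_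
    have h4 : ¬ q * k < N := fun h => hk' (Finset.mem_filter.mpr ⟨hk, h⟩)
    have : N - q * k = 0 := by omega
    rw [this]; simp
  rw [h3]
  unfold E
  refine Finset.sum_bij' (fun n _ => (N - n) / q) (fun k _ => N - q * k) ?_ ?_ ?_ ?_ ?_
  · intro n hn
    obtain ⟨hn1, hn2⟩ := Finset.mem_filter.mp hn
    obtain ⟨hn3, hn4⟩ := Finset.mem_Ico.mp hn1
    obtain ⟨k, hk⟩ := (Nat.modEq_iff_dvd' hn4.le).mp hn2
    rw [hk, Nat.mul_div_cancel_left _ hq0]
    have hk1 : 1 ≤ k := by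
      rcases Nat.eq_zero_or_pos k with rfl | h
      · simp at hk; omega
      · exact h
    refine Finset.mem_filter.mpr ⟨Finset.mem_Icc.mpr ⟨hk1, ?_⟩, by omega⟩
    by_contra hcon
    have : q * (j+1) ≤ q * k := Nat.mul_le_mul_left q (by omega)
    omega
  · intro k hk
    obtain ⟨hk1, hk2⟩ := Finset.mem_filter.mp hk
    obtain ⟨hk3, hk4⟩ := Finset.mem_Icc.mp hk1
    have hqk : 0 < q * k := Nat.mul_pos hq0 hk3
    refine Finset.mem_filter.mpr ⟨Finset.mem_Ico.mpr ⟨by omega, by omega⟩, ?_⟩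
    rw [Nat.modEq_iff_dvd' (by omega)]
    have : N - (N - q * k) = q * k := by omega
    rw [this]
    exact dvd_mul_right q k
  · intro n hn
    obtain ⟨hn1, hn2⟩ := Finset.mem_filter.mp hn
    obtain ⟨hn3, hn4⟩ := Finset.mem_Ico.mp hn1
    have := Nat.mul_div_cancel' ((Nat.modEq_iff_dvd' hn4.le).mp hn2)
    omega
  · intro k hk
    obtain ⟨hk1, hk2⟩ := Finset.mem_filter.mp hk
    have : N - (N - q * k) = q * k := by omega
    simp only [this]
    exact Nat.mul_div_cancel_left _ hq0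
  · intro n hn
    obtain ⟨hn1, hn2⟩ := Finset.mem_filter.mp hn
    obtain ⟨hn3, hn4⟩ := Finset.mem_Ico.mp hn1
    have h5 := Nat.mul_div_cancel' ((Nat.modEq_iff_dvd' hn4.le).mp hn2)
    have h6 : N - q * ((N - n) / q) = n := by omega
    rw [h6, h5]; rfl

/-- The test sum over one block. -/
noncomputable def W (N j : ℕ) : ℝ := ∑ q ∈ Finset.Ioc (N / (j+1)) (N / j), muR q * E g1 N q

/-- `V(N,j,k) = ∑_{q in block j} μ²(qk) Λ(N - qk)`. -/
noncomputable def V (N j k : ℕ) : ℝ :=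
  ∑ q ∈ Finset.Ioc (N / (j+1)) (N / j), muR (q * k) ^ 2 * Λ (N - q * k)

lemma W_eq {N j : ℕ} (hj : 1 ≤ j) : W N j = ∑ k ∈ Finset.Icc 1 j, muR k * V N j k := by
  unfold W V
  simp_rw [Finset.mul_sum]
  rw [Finset.sum_comm]
  refine Finset.sum_congr rfl fun q hq => ?_
  rw [E_block hj hq, Finset.mul_sum]
  refine Finset.sum_congr rfl fun k _ => ?_
  have := muR_mul_muR q k
  calc muR q * (Λ (N - q * k) * muR (q * k)) = (muR q * muR (q * k)) * Λ (N - q * k) := by ring
    _ = _ := by rw [this]; ring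

lemma abs_W_le (N j : ℕ) : |W N j| ≤ ∑ q ∈ Finset.Ioc (N / (j+1)) (N / j), |E g1 N q| := by
  unfold W
  refine (Finset.abs_sum_le_sum_abs _ _).trans (Finset.sum_le_sum fun q _ => ?_)
  rw [abs_mul]
  exact mul_le_of_le_one_left (abs_nonneg _) (abs_muR_le q)

/-- squares dividing `a b²` with `a` squarefree -/
lemma sq_dvd_iff {a b d : ℕ} (ha : Squarefree a) (hb : b ≠ 0) : d ^ 2 ∣ b ^ 2 * a ↔ d ∣ b := by
  constructor
  · intro h
    have ha0 : a ≠ 0 := ha.ne_zero
    rcases eq_or_ne d 0 with rfl | hd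
    · exfalso
      have : b ^ 2 * a = 0 := by simpa using h
      rcases Nat.mul_eq_zero.mp this with h | h
      · exact hb (pow_eq_zero_iff (two_ne_zero) |>.mp h)
      · exact ha0 h
    rw [← Nat.factorization_le_iff_dvd hd hb]
    intro p
    have h1 := (Nat.factorization_le_iff_dvd (pow_ne_zero 2 hd) (mul_ne_zero (pow_ne_zero 2 hb) ha0)).mpr h p
    rw [Nat.factorization_mul (pow_ne_zero 2 hb) ha0, Nat.factorization_pow, Nat.factorization_pow] at h1
    simp only [Finsupp.coe_add, Finsupp.coe_smul, Pi.add_apply, Pi.smul_apply, smul_eq_mul] at h1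
    have h2 := (Nat.squarefree_iff_factorization_le_one ha0).mp ha p
    omega
  · intro h
    exact (pow_dvd_pow_of_dvd h 2).mul_right a

/-- `μ²(m) = ∑_{d² ∣ m} μ(d)`. -/
lemma muR_sq_eq_sum {m : ℕ} (hm : m ≠ 0) {D : ℕ} (hD : m ≤ D) :
    muR m ^ 2 = ∑ d ∈ (Finset.Icc 1 D).filter (fun d => d ^ 2 ∣ m), muR d := by
  obtain ⟨a, b, ha0, hb0, hab, ha⟩ := Nat.sq_mul_squarefree_of_pos (Nat.pos_of_ne_zero hm)
  have hb : b ≠ 0 := by omega
  have h1 : (Finset.Icc 1 D).filter (fun d => d ^ 2 ∣ m) = b.divisors := by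
    ext d
    rw [Finset.mem_filter, Nat.mem_divisors, ← hab, sq_dvd_iff ha hb]
    constructor
    · rintro ⟨_, h⟩; exact ⟨h, hb⟩
    · rintro ⟨h, _⟩
      refine ⟨Finset.mem_Icc.mpr ⟨Nat.pos_of_dvd_of_pos h hb0, ?_⟩, h⟩
      calc d ≤ b := Nat.le_of_dvd hb0 h
        _ ≤ b ^ 2 := Nat.le_self_pow (by norm_num) b
        _ ≤ b ^ 2 * a := Nat.le_mul_of_pos_right _ ha0
        _ = m := hab
        _ ≤ D := hD
  rw [h1, muR_sq]
  have h2 : ∑ d ∈ b.divisors, muR d = if b = 1 then 1 else 0 := by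
    have h3 := congrArg (fun f : ArithmeticFunction ℤ => f b) moebius_mul_coe_zeta
    simp only [coe_mul_zeta_apply, ArithmeticFunction.one_apply] at h3
    unfold muR
    have h4 : ((∑ i ∈ b.divisors, μ i : ℤ) : ℝ) = ((if b = 1 then 1 else 0 : ℤ) : ℝ) := by
      rw [← h3]
    push_cast at h4
    exact h4
  rw [h2]
  have h5 : Squarefree m ↔ b = 1 := by
    constructor
    · intro h
      rw [← hab] at h
      have : b * b ∣ b ^ 2 * a := ⟨a, by ring⟩
      exact Nat.isUnit_iff.mp (h b this)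
    · rintro rfl
      rw [← hab]; simpa using ha
  simp only [h5]

/-- Reindexing the block sum over a progression. -/
lemma block_ap {N a b k r : ℕ} (hk : 1 ≤ k) (hkr : k ∣ r) (hab : a ≤ b) (hbN : k * b ≤ N) :
    ∑ q ∈ (Finset.Ioc a b).filter (fun q => r ∣ q * k), Λ (N - q * k) =
      ∑ n ∈ (Finset.Ico (N - k * b) (N - k * a)).filter (fun n => n ≡ N [MOD r]), Λ n := by
  have hka : k * a ≤ k * b := Nat.mul_le_mul_left k hab
  refine Finset.sum_bij' (fun q _ => N - q * k) (fun n _ => (N - n) / k) ?_ ?_ ?_ ?_ ?_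
  · intro q hq
    obtain ⟨h1, h2⟩ := Finset.mem_filter.mp hq
    obtain ⟨h3, h4⟩ := Finset.mem_Ioc.mp h1
    have h5 : q * k ≤ k * b := by rw [mul_comm]; exact Nat.mul_le_mul_left k h4
    have h6 : k * a < q * k := by rw [mul_comm q k]; exact Nat.mul_lt_mul_of_pos_left h3 hk
    refine Finset.mem_filter.mpr ⟨Finset.mem_Ico.mpr ⟨by omega, by omega⟩, ?_⟩
    rw [Nat.modEq_iff_dvd' (by omega)]
    have : N - (N - q * k) = q * k := by omega
    rw [this]; exact h2
  · intro n hn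
    obtain ⟨h1, h2⟩ := Finset.mem_filter.mp hn
    obtain ⟨h3, h4⟩ := Finset.mem_Ico.mp h1
    have h5 : r ∣ N - n := (Nat.modEq_iff_dvd' (by omega)).mp h2
    have h6 : k ∣ N - n := hkr.trans h5
    have h7 := Nat.div_mul_cancel h6
    refine Finset.mem_filter.mpr ⟨Finset.mem_Ioc.mpr ⟨?_, ?_⟩, ?_⟩
    · by_contra hcon
      have : (N - n) / k * k ≤ a * k := Nat.mul_le_mul_right k (by omega)
      have e : a * k = k * a := mul_comm _ _
      omega
    · by_contra hcon
      have : (b + 1) * k ≤ (N - n) / k * k := Nat.mul_le_mul_right k (by omega)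
      have e : (b + 1) * k = k * b + k := by ring
      omega
    · rw [h7]; exact h5
  · intro q hq
    obtain ⟨h1, h2⟩ := Finset.mem_filter.mp hq
    obtain ⟨h3, h4⟩ := Finset.mem_Ioc.mp h1
    have h5 : q * k ≤ k * b := by rw [mul_comm]; exact Nat.mul_le_mul_left k h4
    have : N - (N - q * k) = q * k := by omega
    simp only [this]
    exact Nat.mul_div_cancel _ hk
  · intro n hn
    obtain ⟨h1, h2⟩ := Finset.mem_filter.mp hn
    obtain ⟨h3, h4⟩ := Finset.mem_Ico.mp h1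
    have h5 : r ∣ N - n := (Nat.modEq_iff_dvd' (by omega)).mp h2
    have h7 := Nat.div_mul_cancel (hkr.trans h5)
    show N - (N - n) / k * k = n
    omega
  · intro q _; rfl

/-- Difference of two initial sums. -/
lemma sum_Ico_eq_sub {f : ℕ → ℝ} (hf : f 0 = 0) {a b : ℕ} (hab : a ≤ b) :
    ∑ n ∈ Finset.Ico a b, f n = ∑ n ∈ Finset.Ioc 0 (b-1), f n - ∑ n ∈ Finset.Ioc 0 (a-1), f n := by
  have key : ∀ c : ℕ, ∑ n ∈ Finset.Ico 0 c, f n = ∑ n ∈ Finset.Ioc 0 (c-1), f n := by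
    intro c
    rcases Nat.eq_zero_or_pos c with rfl | hc
    · simp
    · rw [← Finset.add_sum_Ioo_eq_sum_Ico hc, hf, zero_add]
      congr 1
  have h := Finset.sum_Ico_consecutive f (Nat.zero_le a) hab
  rw [key, key] at h
  linarith

end Pool.Agent.DEH
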