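import Pool.Agent.DEH.Sharp1

open Pool.Agent.ANT ArithmeticFunction
open scoped ArithmeticFunction.Moebius

namespace Pool.Agent.DEH

/-- `∑_{n ≤ x, n ≡ N (r)} Λ(n)`. -/
noncomputable def PsiN (N r x : ℕ) : ℝ := ∑ n ∈ (Finset.Ioc 0 x).filter (fun n => n ≡ N [MOD r]), Λ n

/-- Uniform Siegel–Walfisz. -/
lemma psi_unif (m : ℕ) : ∃ C : ℝ, 0 < C ∧ ∀ (r N : ℕ), 1 ≤ r → r.Coprime N → 9 ≤ N → ∀ x : ℕ,
    x ≤ N → |PsiN N r x - x / r.totient| ≤ C * r * N / Real.log N ^ m := by
  obtain ⟨C1, hC1, h1⟩ := psi_ap m (show (0:ℝ) < 1 by norm_num)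
  obtain ⟨L, hL, hlog⟩ := log_pow_le_rpow m (show (0:ℝ) < 1/2 by norm_num)
  refine ⟨C1 * 2 ^ m + 7 * L, by positivity, fun r N hr hcop hN x hx => ?_⟩
  have hN9 : (9:ℝ) ≤ N := by exact_mod_cast hN
  have hN0 : (0:ℝ) < N := by linarith
  have hlN := one_le_log (show (3:ℝ) ≤ N by linarith)
  have hlN0 : 0 < Real.log N := by linarith
  have hr1 : (1:ℝ) ≤ r := by exact_mod_cast hr
  have hne : NeZero r := ⟨by omega⟩
  have hxN : (x:ℝ) ≤ N := by exact_mod_cast hx
  have hφ1 : (1:ℝ) ≤ r.totient := by exact_mod_cast Nat.totient_pos.mpr (by omega : 0 < r)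
  rcases le_or_gt (√(N:ℝ)) (x:ℝ) with hxs | hxs
  · have hs3 : (3:ℝ) ≤ √(N:ℝ) := by
      rw [Real.le_sqrt (by norm_num) (by positivity)]
      norm_num; exact hN
    have hx3 : (3:ℝ) ≤ x := by linarith
    have hx0 : (0:ℝ) < x := by linarith
    have ha : IsUnit ((N:ℕ) : ZMod r) := (ZMod.isUnit_iff_coprime N r).mpr hcop.symm
    have h2 := h1 r (N : ZMod r) ha x hx3
    rw [Nat.floor_natCast] at h2
    have h3 : ∑ n ∈ (Finset.Icc 1 x).filter (fun n : ℕ => (n : ZMod r) = (N : ZMod r)), Λ n =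
        PsiN N r x := by
      unfold PsiN
      have : Finset.Icc 1 x = Finset.Ioc 0 x := rfl
      rw [this]
      congr 1
      refine Finset.filter_congr fun n _ => ?_
      exact ZMod.natCast_eq_natCast_iff n N r
    rw [h3] at h2
    have hlx : Real.log N / 2 ≤ Real.log x := by
      have := Real.log_le_log (Real.sqrt_pos.mpr hN0) hxs
      rwa [Real.log_sqrt hN0.le] at this
    calc _ ≤ C1 * (r:ℝ) ^ (1:ℝ) * x / Real.log x ^ m := h2
      _ ≤ C1 * r * N / (Real.log N / 2) ^ m := by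
          rw [Real.rpow_one]
          gcongr
      _ = C1 * 2 ^ m * r * N / Real.log N ^ m := by rw [div_pow]; field_simp
      _ ≤ _ := by
          gcongr
          have : 0 ≤ 7 * L := by positivity
          linarith
  · have h2 : 0 ≤ PsiN N r x := Finset.sum_nonneg fun _ _ => vonMangoldt_nonneg
    have h3 : PsiN N r x ≤ 6 * x := by
      have h4 := sum_vonMangoldt_le (x := x) (by positivity)
      rw [Nat.floor_natCast] at h4
      refine le_trans ?_ h4
      exact Finset.sum_le_sum_of_subset_of_nonneg (Finset.filter_subset _ _)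
        fun _ _ _ => vonMangoldt_nonneg
    have h5 : (x:ℝ) / r.totient ≤ x := div_le_self (by positivity) hφ1
    have h6 : 0 ≤ (x:ℝ) / r.totient := by positivity
    have h7 : |PsiN N r x - x / r.totient| ≤ 7 * √(N:ℝ) := by
      rw [abs_le]; constructor <;> linarith
    refine h7.trans ?_
    rw [le_div_iff₀ (by positivity)]
    have h8 := hlog N (by linarith)
    calc 7 * √(N:ℝ) * Real.log N ^ m ≤ 7 * √(N:ℝ) * (L * (N:ℝ) ^ (1/2:ℝ)) := by gcongr
      _ = 7 * L * 1 * (√(N:ℝ) * √(N:ℝ)) := by rw [← Real.sqrt_eq_rpow]; ring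
      _ = 7 * L * 1 * N := by rw [Real.mul_self_sqrt hN0.le]
      _ ≤ 7 * L * r * N := by gcongr
      _ ≤ _ := by
          gcongr
          have : 0 ≤ C1 * 2 ^ m := by positivity
          linarith

/-- sum of `Λ` over `n ≤ N` not coprime to `N` -/
lemma sum_nc_le {N : ℕ} (hN : 1 ≤ N) :
    ∑ n ∈ (Finset.Ioc 0 N).filter (fun n => ¬ n.Coprime N), Λ n ≤ 2 * Real.log N ^ 2 := by
  have h3 := sum_vonMangoldt_not_coprime_le (q := N) (N := N) (by omega) (by omega)
  have h4 := card_primeFactors_le_log (q := N) (by omega)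
  have h5 := Real.log_natCast_nonneg N
  calc _ ≤ _ := h3
    _ ≤ (2 * Real.log N) * Real.log N := by gcongr
    _ = _ := by ring

/-- Block sum over one modulus, coprime case. -/
lemma block_main {m : ℕ} {C : ℝ} (hC : ∀ (r N : ℕ), 1 ≤ r → r.Coprime N → 9 ≤ N → ∀ x : ℕ,
    x ≤ N → |PsiN N r x - x / r.totient| ≤ C * r * N / Real.log N ^ m)
    {N a b k r : ℕ} (hN : 9 ≤ N) (hk : 1 ≤ k) (hr : 1 ≤ r) (hkr : k ∣ r) (hab : a ≤ b)
    (hbN : k * b ≤ N) (hcop : r.Coprime N) :
    |∑ q ∈ (Finset.Ioc a b).filter (fun q => r ∣ q * k), Λ (N - q * k) -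
      k * (b - a : ℝ) / r.totient| ≤ 2 * (C * r * N / Real.log N ^ m) + 1 := by
  rw [block_ap hk hkr hab hbN]
  have hka : k * a ≤ k * b := Nat.mul_le_mul_left k hab
  have hle : N - k * b ≤ N - k * a := by omega
  have hφ1 : (1:ℝ) ≤ r.totient := by exact_mod_cast Nat.totient_pos.mpr (by omega : 0 < r)
  have h1 : ∑ n ∈ (Finset.Ico (N - k * b) (N - k * a)).filter (fun n => n ≡ N [MOD r]), Λ n =
      PsiN N r (N - k * a - 1) - PsiN N r (N - k * b - 1) := by
    unfold PsiN
    rw [Finset.sum_filter, Finset.sum_filter, Finset.sum_filter]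
    exact sum_Ico_eq_sub (f := fun n => if n ≡ N [MOD r] then Λ n else 0) (by simp) hle
  rw [h1]
  have h2 := hC r N hr hcop hN (N - k * a - 1) (by omega)
  have h3 := hC r N hr hcop hN (N - k * b - 1) (by omega)
  have h4 : |((N - k * a - 1 : ℕ) : ℝ) - ((N - k * b - 1 : ℕ) : ℝ) - k * (b - a : ℝ)| ≤ 1 := by
    have e1 : (k:ℝ) * (b - a) = ((k * b - k * a : ℕ) : ℝ) := by
      rw [Nat.cast_sub hka]; push_cast; ring
    rw [e1]
    rcases Nat.eq_zero_or_pos (N - k * b) with h | h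
    · rcases Nat.eq_zero_or_pos (N - k * a) with h' | h'
      · have e2 : N - k * a - 1 = 0 := by omega
        have e3 : N - k * b - 1 = 0 := by omega
        have e4 : k * b - k * a = 0 := by omega
        rw [e2, e3, e4]; simp
      · have e3 : N - k * b - 1 = 0 := by omega
        have e4 : k * b - k * a = (N - k * a - 1) + 1 := by omega
        rw [e3, e4]; push_cast; rw [abs_le]; constructor <;> linarith
    · have e4 : k * b - k * a = (N - k * a - 1) - (N - k * b - 1) := by omega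
      rw [e4, Nat.cast_sub (by omega : N - k * b - 1 ≤ N - k * a - 1)]
      simp
  have h5 : |(((N - k * a - 1 : ℕ) : ℝ) - ((N - k * b - 1 : ℕ) : ℝ) - k * (b - a : ℝ)) / r.totient| ≤ 1 := by
    rw [abs_div, abs_of_pos (by linarith : (0:ℝ) < r.totient)]
    rw [div_le_one (by linarith)]
    linarith
  have e5 : PsiN N r (N - k * a - 1) - PsiN N r (N - k * b - 1) - k * (b - a : ℝ) / r.totient =
      (PsiN N r (N - k * a - 1) - ((N - k * a - 1 : ℕ) : ℝ) / r.totient) -
      (PsiN N r (N - k * b - 1) - ((N - k * b - 1 : ℕ) : ℝ) / r.totient) +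
      (((N - k * a - 1 : ℕ) : ℝ) - ((N - k * b - 1 : ℕ) : ℝ) - k * (b - a : ℝ)) / r.totient := by
    ring
  rw [e5]
  refine (abs_add_le _ _).trans ?_
  have h6 := abs_sub (PsiN N r (N - k * a - 1) - ((N - k * a - 1 : ℕ) : ℝ) / r.totient)
    (PsiN N r (N - k * b - 1) - ((N - k * b - 1 : ℕ) : ℝ) / r.totient)
  linarith

/-- Block sum, non-coprime case. -/
lemma block_nc {N a b k r : ℕ} (hN : 1 ≤ N) (hk : 1 ≤ k) (hkr : k ∣ r) (hab : a ≤ b)
    (hbN : k * b ≤ N) (hcop : ¬ r.Coprime N) :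
    ∑ q ∈ (Finset.Ioc a b).filter (fun q => r ∣ q * k), Λ (N - q * k) ≤ 2 * Real.log N ^ 2 := by
  rw [block_ap hk hkr hab hbN]
  refine le_trans ?_ (sum_nc_le hN)
  have h0 : ∑ n ∈ (Finset.Ico (N - k * b) (N - k * a)).filter (fun n => n ≡ N [MOD r]), Λ n =
      ∑ n ∈ ((Finset.Ico (N - k * b) (N - k * a)).filter (fun n => n ≡ N [MOD r])).filter
        (fun n => 0 < n), Λ n := by
    symm
    refine Finset.sum_subset (Finset.filter_subset _ _) fun n hn hn' => ?_
    have : n = 0 := by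
      by_contra h
      exact hn' (Finset.mem_filter.mpr ⟨hn, Nat.pos_of_ne_zero h⟩)
    rw [this]; simp
  rw [h0]
  refine Finset.sum_le_sum_of_subset_of_nonneg ?_ fun _ _ _ => vonMangoldt_nonneg
  intro n hn
  obtain ⟨h1, h2⟩ := Finset.mem_filter.mp hn
  obtain ⟨h3, h4⟩ := Finset.mem_filter.mp h1
  obtain ⟨h5, h6⟩ := Finset.mem_Ico.mp h3
  refine Finset.mem_filter.mpr ⟨Finset.mem_Ioc.mpr ⟨h2, by omega⟩, ?_⟩
  obtain ⟨p, hp, hpr, hpN⟩ := Nat.Prime.not_coprime_iff_dvd.mp hcop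
  refine Nat.Prime.not_coprime_iff_dvd.mpr ⟨p, hp, ?_, hpN⟩
  have h7 : r ∣ N - n := (Nat.modEq_iff_dvd' (by omega)).mp h4
  have h8 : N - (N - n) = n := by omega
  rw [← h8]
  exact Nat.dvd_sub hpN (hpr.trans h7)

lemma sum_inv_sq_tail {Y : ℕ} (hY : 1 ≤ Y) (M : ℕ) :
    ∑ d ∈ Finset.Ioc Y M, 1 / (d:ℝ) ^ 2 ≤ 1 / (Y:ℝ) := by
  rcases le_or_gt M Y with h | h
  · rw [Finset.Ioc_eq_empty (by omega)]; simp
  have hY0 : (0:ℝ) < Y := by exact_mod_cast (by omega : 0 < Y)
  have key : ∀ M : ℕ, Y ≤ M → ∑ d ∈ Finset.Ioc Y M, 1 / (d:ℝ) ^ 2 ≤ 1 / (Y:ℝ) - 1 / (M:ℝ) := by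
    intro M hM
    induction M, hM using Nat.le_induction with
    | base => simp
    | succ M hM ih =>
      rw [sum_Ioc_succ' _ hM]
      have hM0 : (0:ℝ) < M := lt_of_lt_of_le hY0 (by exact_mod_cast hM)
      have : 1 / ((M+1:ℕ):ℝ) ^ 2 ≤ 1 / (M:ℝ) - 1 / ((M+1:ℕ):ℝ) := by
        push_cast
        rw [div_sub_div _ _ (by positivity) (by positivity), div_le_div_iff₀ (by positivity) (by positivity)]
        nlinarith
      linarith
  have h1 := key M h.le
  have : 0 ≤ 1 / (M:ℝ) := by positivity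
  linarith

lemma card_block_le {N a b k d : ℕ} (hk : 1 ≤ k) (hd : 1 ≤ d) (hbN : k * b ≤ N) :
    ((((Finset.Ioc a b).filter (fun q => d ^ 2 ∣ q * k)).card : ℕ) : ℝ) ≤ N / (d:ℝ) ^ 2 := by
  have hd2 : 0 < d ^ 2 := by positivity
  have h1 : ((Finset.Ioc a b).filter (fun q => d ^ 2 ∣ q * k)).card ≤
      ((Finset.Ioc 0 N).filter (fun m => d ^ 2 ∣ m)).card := by
    refine Finset.card_le_card_of_injOn (fun q => q * k) ?_ ?_
    · intro q hq
      obtain ⟨h1, h2⟩ := Finset.mem_filter.mp hq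
      obtain ⟨h3, h4⟩ := Finset.mem_Ioc.mp h1
      have hq0 : 0 < q := lt_of_le_of_lt (Nat.zero_le _) h3
      refine Finset.mem_filter.mpr ⟨Finset.mem_Ioc.mpr ⟨Nat.mul_pos hq0 hk, ?_⟩, h2⟩
      calc q * k ≤ b * k := Nat.mul_le_mul_right k h4
        _ = k * b := mul_comm _ _
        _ ≤ N := hbN
    · intro x _ y _ hxy
      exact Nat.eq_of_mul_eq_mul_right hk hxy
  rw [Nat.Ioc_filter_dvd_card_eq_div] at h1
  calc _ ≤ ((N / d ^ 2 : ℕ) : ℝ) := by exact_mod_cast h1
    _ ≤ (N:ℝ) / ((d^2 : ℕ) : ℝ) := Nat.cast_div_le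
    _ = _ := by push_cast; ring

/-- Arithmetic factor. -/
noncomputable def HH (N Y k : ℕ) : ℝ :=
  k * ∑ d ∈ (Finset.Icc 1 Y).filter (fun d => d.Coprime N), muR d / (Nat.totient (k.lcm (d^2)) : ℝ)

/-- Evaluation of `V`. -/
lemma V_eval {m : ℕ} {C : ℝ} (hC0 : 0 < C) (hC : ∀ (r N : ℕ), 1 ≤ r → r.Coprime N → 9 ≤ N → ∀ x : ℕ,
    x ≤ N → |PsiN N r x - x / r.totient| ≤ C * r * N / Real.log N ^ m)
    {N j k Y : ℕ} (hN : 9 ≤ N) (hY : 1 ≤ Y) (hYN : Y ≤ N) (hk : 1 ≤ k) (hkj : k ≤ j) :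
    |V N j k - (if k.Coprime N then ((N/j : ℕ) - (N/(j+1) : ℕ) : ℝ) * HH N Y k else 0)| ≤
      Y * (2 * (C * (j * Y ^ 2) * N / Real.log N ^ m) + 1 + 2 * Real.log N ^ 2) +
      N * Real.log N / Y := by
  set a := N / (j+1) with ha
  set b := N / j with hb
  have hab : a ≤ b := Nat.div_le_div_left (by omega) (by omega)
  have hbN : k * b ≤ N := by
    calc k * b ≤ j * b := Nat.mul_le_mul_right b hkj
      _ ≤ N := Nat.mul_div_le N j
  have hN0 : (0:ℝ) < N := by positivity
  have hlN := one_le_log (show (3:ℝ) ≤ N by exact_mod_cast (by omega : 3 ≤ N))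
  have hlN0 : 0 < Real.log N := by linarith
  have hY0 : (0:ℝ) < Y := by exact_mod_cast (by omega : 0 < Y)
  set Er : ℝ := C * (j * Y ^ 2) * N / Real.log N ^ m with hEr
  have hEr0 : 0 ≤ Er := by positivity
  have hFpos : 0 ≤ Y * (2 * Er + 1 + 2 * Real.log N ^ 2) + N * Real.log N / Y := by positivity
  -- facts on q
  have hqk : ∀ q ∈ Finset.Ioc a b, q * k ≤ N ∧ 0 < q * k := by
    intro q hq
    obtain ⟨h3, h4⟩ := Finset.mem_Ioc.mp hq
    have hq0 : 0 < q := lt_of_le_of_lt (Nat.zero_le _) h3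
    refine ⟨?_, Nat.mul_pos hq0 hk⟩
    calc q * k ≤ b * k := Nat.mul_le_mul_right k h4
      _ = k * b := mul_comm _ _
      _ ≤ N := hbN
  by_cases hkN : k.Coprime N
  · rw [if_pos hkN]
    -- expand
    have hV : V N j k = ∑ d ∈ Finset.Icc 1 N, muR d *
        ∑ q ∈ (Finset.Ioc a b).filter (fun q => d ^ 2 ∣ q * k), Λ (N - q * k) := by
      unfold V
      simp_rw [Finset.mul_sum, Finset.sum_filter]
      rw [Finset.sum_comm]
      refine Finset.sum_congr rfl fun q hq => ?_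
      obtain ⟨h1, h2⟩ := hqk q hq
      rw [muR_sq_eq_sum h2.ne' h1, Finset.sum_mul, Finset.sum_filter]
    have hsplit : Finset.Icc 1 N = Finset.Icc 1 Y ∪ Finset.Ioc Y N := by
      ext d
      rw [Finset.mem_union, Finset.mem_Icc, Finset.mem_Icc, Finset.mem_Ioc]
      omega
    have hdisj : Disjoint (Finset.Icc 1 Y) (Finset.Ioc Y N) := by
      rw [Finset.disjoint_left]
      intro d h1 h2
      have := Finset.mem_Icc.mp h1
      have := Finset.mem_Ioc.mp h2
      omega
    rw [hV, hsplit, Finset.sum_union hdisj]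
    -- tail
    have htail : |∑ d ∈ Finset.Ioc Y N, muR d *
        ∑ q ∈ (Finset.Ioc a b).filter (fun q => d ^ 2 ∣ q * k), Λ (N - q * k)| ≤
        N * Real.log N / Y := by
      calc _ ≤ ∑ d ∈ Finset.Ioc Y N, (N * Real.log N) * (1 / (d:ℝ) ^ 2) := by
            refine (Finset.abs_sum_le_sum_abs _ _).trans (Finset.sum_le_sum fun d hd => ?_)
            have hd1 : 1 ≤ d := by have := (Finset.mem_Ioc.mp hd).1; omega
            have hS0 : 0 ≤ ∑ q ∈ (Finset.Ioc a b).filter (fun q => d ^ 2 ∣ q * k), Λ (N - q * k) :=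
              Finset.sum_nonneg fun _ _ => vonMangoldt_nonneg
            rw [abs_mul, abs_of_nonneg hS0]
            calc |muR d| * _ ≤ 1 * ∑ q ∈ (Finset.Ioc a b).filter (fun q => d ^ 2 ∣ q * k),
                  Λ (N - q * k) := mul_le_mul_of_nonneg_right (abs_muR_le d) hS0
              _ ≤ 1 * ∑ _q ∈ (Finset.Ioc a b).filter (fun q => d ^ 2 ∣ q * k), Real.log N := by
                  gcongr with q hq
                  refine vonMangoldt_le_log.trans ?_
                  rcases Nat.eq_zero_or_pos (N - q * k) with h | h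
                  · rw [h]; simp; linarith
                  · exact Real.log_le_log (by exact_mod_cast h) (by exact_mod_cast Nat.sub_le _ _)
              _ = (((Finset.Ioc a b).filter (fun q => d ^ 2 ∣ q * k)).card : ℝ) * Real.log N := by
                  rw [one_mul, Finset.sum_const, nsmul_eq_mul]
              _ ≤ (N / (d:ℝ) ^ 2) * Real.log N := by
                  gcongr
                  exact card_block_le hk hd1 hbN
              _ = _ := by ring
        _ = (N * Real.log N) * ∑ d ∈ Finset.Ioc Y N, 1 / (d:ℝ) ^ 2 := by rw [Finset.mul_sum]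
        _ ≤ (N * Real.log N) * (1 / Y) := by
            gcongr
            exact sum_inv_sq_tail hY N
        _ = _ := by ring
    -- main part
    have hmain : |∑ d ∈ Finset.Icc 1 Y, muR d *
        ∑ q ∈ (Finset.Ioc a b).filter (fun q => d ^ 2 ∣ q * k), Λ (N - q * k) -
        ((b:ℝ) - a) * HH N Y k| ≤ Y * (2 * Er + 1 + 2 * Real.log N ^ 2) := by
      have e1 : ((b:ℝ) - a) * HH N Y k = ∑ d ∈ Finset.Icc 1 Y,
          (if d.Coprime N then muR d * (k * ((b:ℝ) - a) / (Nat.totient (k.lcm (d^2)) : ℝ)) else 0) := by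
        unfold HH
        rw [Finset.sum_filter, Finset.mul_sum, Finset.mul_sum]
        refine Finset.sum_congr rfl fun d _ => ?_
        split_ifs <;> ring
      rw [e1, ← Finset.sum_sub_distrib]
      calc _ ≤ ∑ _d ∈ Finset.Icc 1 Y, (2 * Er + 1 + 2 * Real.log N ^ 2) := by
            refine (Finset.abs_sum_le_sum_abs _ _).trans (Finset.sum_le_sum fun d hd => ?_)
            obtain ⟨hd1, hd2⟩ := Finset.mem_Icc.mp hd
            have hfil : (Finset.Ioc a b).filter (fun q => d ^ 2 ∣ q * k) =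
                (Finset.Ioc a b).filter (fun q => k.lcm (d^2) ∣ q * k) := by
              refine Finset.filter_congr fun q _ => ?_
              constructor
              · intro h; exact Nat.lcm_dvd (dvd_mul_left k q) h
              · intro h; exact (Nat.dvd_lcm_right k (d^2)).trans h
            rw [hfil]
            have hlcm0 : 1 ≤ k.lcm (d^2) := Nat.lcm_pos hk (by positivity)
            have hlcm : (k.lcm (d^2) : ℝ) ≤ j * Y ^ 2 := by
              have h1 : k.lcm (d^2) ≤ k * d^2 := Nat.le_of_dvd (by positivity) (Nat.lcm_dvd_mul _ _)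
              have h2 : k * d^2 ≤ j * Y^2 := Nat.mul_le_mul hkj (Nat.pow_le_pow_left hd2 2)
              exact_mod_cast h1.trans h2
            by_cases hdN : d.Coprime N
            · rw [if_pos hdN, ← mul_sub, abs_mul]
              have hcop : (k.lcm (d^2)).Coprime N :=
                Nat.Coprime.coprime_dvd_left (Nat.lcm_dvd_mul _ _)
                  (Nat.Coprime.mul_left hkN (hdN.pow_left 2))
              have h3 := block_main hC hN hk hlcm0 (Nat.dvd_lcm_left k (d^2)) hab hbN hcop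
              have h4 : C * (k.lcm (d^2) : ℝ) * N / Real.log N ^ m ≤ Er := by
                rw [hEr]; gcongr
              calc _ ≤ 1 * (2 * (C * (k.lcm (d^2) : ℝ) * N / Real.log N ^ m) + 1) :=
                    mul_le_mul (abs_muR_le d) h3 (abs_nonneg _) zero_le_one
                _ ≤ 2 * Er + 1 + 2 * Real.log N ^ 2 := by
                    have : 0 ≤ 2 * Real.log N ^ 2 := by positivity
                    linarith
            · rw [if_neg hdN, sub_zero, abs_mul]
              have hcop : ¬ (k.lcm (d^2)).Coprime N := by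
                intro h
                have h1 : (d^2).Coprime N := Nat.Coprime.coprime_dvd_left (Nat.dvd_lcm_right k (d^2)) h
                exact hdN ((Nat.coprime_pow_left_iff (by norm_num) d N).mp h1)
              have h3 := block_nc (by omega) hk (Nat.dvd_lcm_left k (d^2)) hab hbN hcop
              have hS0 : 0 ≤ ∑ q ∈ (Finset.Ioc a b).filter (fun q => k.lcm (d^2) ∣ q * k),
                  Λ (N - q * k) := Finset.sum_nonneg fun _ _ => vonMangoldt_nonneg
              rw [abs_of_nonneg hS0]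
              calc _ ≤ 1 * (2 * Real.log N ^ 2) :=
                    mul_le_mul (abs_muR_le d) h3 hS0 zero_le_one
                _ ≤ _ := by linarith
        _ = _ := by rw [Finset.sum_const, nsmul_eq_mul]; simp
    have e2 : ∀ x y z : ℝ, x + y - z = (x - z) + y := fun x y z => by ring
    rw [e2]
    exact (abs_add_le _ _).trans (add_le_add hmain htail)
  · rw [if_neg hkN, sub_zero]
    have h1 : 0 ≤ V N j k := Finset.sum_nonneg fun _ _ => mul_nonneg (sq_nonneg _) vonMangoldt_nonneg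
    have h2 : V N j k ≤ 2 * Real.log N ^ 2 := by
      have h3 := block_nc (r := k) (by omega) hk dvd_rfl hab hbN hkN
      have h4 : (Finset.Ioc a b).filter (fun q => k ∣ q * k) = Finset.Ioc a b :=
        Finset.filter_true_of_mem fun q _ => dvd_mul_left k q
      rw [h4] at h3
      refine le_trans ?_ h3
      unfold V
      refine Finset.sum_le_sum fun q _ => ?_
      refine mul_le_of_le_one_left vonMangoldt_nonneg ?_
      rw [muR_sq]; split_ifs <;> norm_num
    rw [abs_of_nonneg h1]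
    have hY1 : (1:ℝ) ≤ Y := by exact_mod_cast hY
    have h5 : 2 * Real.log N ^ 2 ≤ Y * (2 * Er + 1 + 2 * Real.log N ^ 2) := by
      have : 0 ≤ 2 * Er + 1 := by positivity
      nlinarith [sq_nonneg (Real.log N)]
    have h6 : 0 ≤ N * Real.log N / Y := by positivity
    linarith

/-- The arithmetic sums. -/
noncomputable def TT (N Y j : ℕ) : ℝ :=
  ∑ k ∈ (Finset.Icc 1 j).filter (fun k => k.Coprime N), muR k * HH N Y k

lemma W_eval {m : ℕ} {C : ℝ} (hC0 : 0 < C) (hC : ∀ (r N : ℕ), 1 ≤ r → r.Coprime N → 9 ≤ N → ∀ x : ℕ,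
    x ≤ N → |PsiN N r x - x / r.totient| ≤ C * r * N / Real.log N ^ m)
    {N j Y : ℕ} (hN : 9 ≤ N) (hY : 1 ≤ Y) (hYN : Y ≤ N) (hj : 1 ≤ j) :
    |W N j - ((N/j : ℕ) - (N/(j+1) : ℕ) : ℝ) * TT N Y j| ≤
      j * (Y * (2 * (C * (j * Y ^ 2) * N / Real.log N ^ m) + 1 + 2 * Real.log N ^ 2) +
      N * Real.log N / Y) := by
  have e1 : ((N/j : ℕ) - (N/(j+1) : ℕ) : ℝ) * TT N Y j = ∑ k ∈ Finset.Icc 1 j, muR k *
      (if k.Coprime N then ((N/j : ℕ) - (N/(j+1) : ℕ) : ℝ) * HH N Y k else 0) := by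
    unfold TT
    rw [Finset.sum_filter, Finset.mul_sum]
    refine Finset.sum_congr rfl fun k _ => ?_
    split_ifs <;> ring
  rw [W_eq hj, e1, ← Finset.sum_sub_distrib]
  calc _ ≤ ∑ _k ∈ Finset.Icc 1 j, (Y * (2 * (C * (j * Y ^ 2) * N / Real.log N ^ m) + 1 +
        2 * Real.log N ^ 2) + N * Real.log N / Y) := by
        refine (Finset.abs_sum_le_sum_abs _ _).trans (Finset.sum_le_sum fun k hk => ?_)
        obtain ⟨hk1, hk2⟩ := Finset.mem_Icc.mp hk
        rw [← mul_sub, abs_mul]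
        have h := V_eval hC0 hC hN hY hYN hk1 hk2
        calc _ ≤ 1 * _ := mul_le_mul (abs_muR_le k) h (abs_nonneg _) zero_le_one
          _ = _ := one_mul _
    _ = _ := by rw [Finset.sum_const, nsmul_eq_mul]; simp

end Pool.Agent.DEH
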