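import Pool.Agent.DEH.Sharp2

open Pool.Agent.ANT ArithmeticFunction
open scoped ArithmeticFunction.Moebius

namespace Pool.Agent.DEH

lemma one_sub_sum_le_prod {ι : Type*} (s : Finset ι) (f : ι → ℝ) (h0 : ∀ i ∈ s, 0 ≤ f i)
    (h1 : ∀ i ∈ s, f i ≤ 1) : 1 - ∑ i ∈ s, f i ≤ ∏ i ∈ s, (1 - f i) ∧ ∏ i ∈ s, (1 - f i) ≤ 1 ∧
      0 ≤ ∏ i ∈ s, (1 - f i) := by
  classical
  induction s using Finset.induction_on with
  | empty => simp
  | insert a s ha ih =>
    have ih' := ih (fun i hi => h0 i (Finset.mem_insert_of_mem hi))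
      (fun i hi => h1 i (Finset.mem_insert_of_mem hi))
    have ha0 := h0 a (Finset.mem_insert_self _ _)
    have ha1 := h1 a (Finset.mem_insert_self _ _)
    have hs0 : 0 ≤ ∑ i ∈ s, f i := Finset.sum_nonneg fun i hi => h0 i (Finset.mem_insert_of_mem hi)
    rw [Finset.sum_insert ha, Finset.prod_insert ha]
    obtain ⟨e1, e2, e3⟩ := ih'
    refine ⟨?_, ?_, ?_⟩
    · nlinarith
    · nlinarith
    · exact mul_nonneg (by linarith) e3

lemma totient_sq (d : ℕ) : Nat.totient (d ^ 2) = d * Nat.totient d := by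
  rcases Nat.eq_zero_or_pos d with rfl | hd
  · simp
  have h := Nat.totient_gcd_mul_totient_mul d d
  rw [Nat.gcd_self] at h
  have hφ : 0 < Nat.totient d := Nat.totient_pos.mpr hd
  have h2 : Nat.totient d * Nat.totient (d * d) = Nat.totient d * (d * Nat.totient d) := by
    rw [h]; ring
  rw [sq]
  exact Nat.eq_of_mul_eq_mul_left hφ h2

lemma sum_primes_le (S : Finset ℕ) (hS : ∀ l ∈ S, l.Prime) :
    ∑ l ∈ S, 1 / (Nat.totient (l ^ 2) : ℝ) ≤ 17/20 := by
  obtain ⟨M, hM⟩ : ∃ M : ℕ, ∀ l ∈ S, l ≤ M := ⟨S.sup id, fun l hl => Finset.le_sup (f := id) hl⟩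
  have hsub : S ⊆ ({2, 3, 5, 7} : Finset ℕ) ∪ Finset.Ioc 10 (M + 10) := by
    intro l hl
    have hp := hS l hl
    rcases le_or_gt l 10 with h | h
    · refine Finset.mem_union_left _ ?_
      have h2 := hp.two_le
      interval_cases l <;> first | decide | (exfalso; revert hp; decide)
    · exact Finset.mem_union_right _ (Finset.mem_Ioc.mpr ⟨h, by have := hM l hl; omega⟩)
  have hval : ∀ l ∈ S, 1 / (Nat.totient (l ^ 2) : ℝ) = 1 / ((l:ℝ) * (l - 1)) := by
    intro l hl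
    have hp := hS l hl
    rw [totient_sq, Nat.totient_prime hp]
    push_cast [Nat.cast_sub hp.one_le]
    rfl
  rw [Finset.sum_congr rfl hval]
  have key : ∀ K : ℕ, ∑ l ∈ Finset.Ioc 10 (K + 10), 1 / ((l:ℝ) * (l - 1)) ≤ 1/10 - 1 / ((K:ℝ) + 10) := by
    intro K
    induction K with
    | zero => simp
    | succ K ih =>
      rw [show K + 1 + 10 = (K + 10) + 1 by ring, sum_Ioc_succ' _ (by omega)]
      have : 1 / ((((K + 10) + 1 : ℕ):ℝ) * ((((K + 10) + 1 : ℕ):ℝ) - 1)) =
          1 / ((K:ℝ) + 10) - 1 / (((K+1:ℕ):ℝ) + 10) := by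
        have h1 : (K:ℝ) + 10 ≠ 0 := by positivity
        have h2 : (K:ℝ) + 1 + 10 ≠ 0 := by positivity
        push_cast
        have h3 : (K:ℝ) + 10 + 1 ≠ 0 := by positivity
        have h4 : (K:ℝ) + 10 + 1 - 1 ≠ 0 := by rw [add_sub_cancel_right]; exact h1
        rw [div_sub_div _ _ h1 h2, div_eq_div_iff (mul_ne_zero h3 h4) (mul_ne_zero h1 h2)]
        ring
      rw [this]
      linarith
  calc ∑ l ∈ S, 1 / ((l:ℝ) * (l - 1))
      ≤ ∑ l ∈ ({2, 3, 5, 7} : Finset ℕ) ∪ Finset.Ioc 10 (M + 10), 1 / ((l:ℝ) * (l - 1)) := by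
        refine Finset.sum_le_sum_of_subset_of_nonneg hsub fun l hl _ => ?_
        have h1 : (1:ℝ) ≤ l := by
          rcases Finset.mem_union.mp hl with h | h
          · have : 1 ≤ l := by
              simp only [Finset.mem_insert, Finset.mem_singleton] at h
              omega
            exact_mod_cast this
          · have := (Finset.mem_Ioc.mp h).1
            exact_mod_cast (by omega : 1 ≤ l)
        have : 0 ≤ (l:ℝ) - 1 := by linarith
        positivity
    _ = ∑ l ∈ ({2, 3, 5, 7} : Finset ℕ), 1 / ((l:ℝ) * (l - 1)) +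
        ∑ l ∈ Finset.Ioc 10 (M + 10), 1 / ((l:ℝ) * (l - 1)) := by
        refine Finset.sum_union ?_
        rw [Finset.disjoint_left]
        intro l h1 h2
        have := (Finset.mem_Ioc.mp h2).1
        simp only [Finset.mem_insert, Finset.mem_singleton] at h1
        omega
    _ ≤ (1/2 + 1/6 + 1/20 + 1/42) + (1/10 - 1 / ((M:ℝ) + 10)) := by
        refine add_le_add (le_of_eq ?_) (key M)
        rw [Finset.sum_insert (by decide), Finset.sum_insert (by decide), Finset.sum_insert (by decide),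
          Finset.sum_singleton]
        norm_num
    _ ≤ 17/20 := by
        have : 0 ≤ 1 / ((M:ℝ) + 10) := by positivity
        linarith

/-- `1/φ(d²)`. -/
noncomputable def fA : ArithmeticFunction ℝ := ⟨fun d => 1 / (Nat.totient (d ^ 2) : ℝ), by simp⟩

lemma fA_apply (d : ℕ) : fA d = 1 / (Nat.totient (d ^ 2) : ℝ) := rfl

lemma fA_nonneg (d : ℕ) : 0 ≤ fA d := by rw [fA_apply]; positivity

lemma fA_mult : fA.IsMultiplicative := by
  refine ⟨by simp [fA_apply], fun {m n} h => ?_⟩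
  rw [fA_apply, fA_apply, fA_apply, mul_pow, Nat.totient_mul (h.pow 2 2)]
  push_cast
  rw [one_div_mul_one_div]

lemma fA_le_tau {d : ℕ} (hd : d ≠ 0) : fA d ≤ tauR d / (d:ℝ) ^ 2 := by
  have h := one_div_totient_le hd
  have hd0 : (0:ℝ) < d := by exact_mod_cast Nat.pos_of_ne_zero hd
  rw [fA_apply, totient_sq]
  push_cast
  calc 1 / ((d:ℝ) * d.totient) = 1 / d * (1 / d.totient) := by rw [one_div_mul_one_div]
    _ ≤ 1 / d * (tauR d / d) := by gcongr
    _ = _ := by rw [sq]; field_simp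

lemma exists_tau_sqrt : ∃ C : ℝ, 1 ≤ C ∧ ∀ d : ℕ, d ≠ 0 →
    tauR d / (d:ℝ) ^ 2 ≤ C * (1 / (d * √(d:ℝ))) := by
  obtain ⟨C, hC, h⟩ := tauR_le_rpow (show (0:ℝ) < 1/2 by norm_num)
  refine ⟨C, hC, fun d hd => ?_⟩
  have hd0 : (0:ℝ) < d := by exact_mod_cast Nat.pos_of_ne_zero hd
  have h1 := h d hd
  rw [← Real.sqrt_eq_rpow] at h1
  have hs := Real.mul_self_sqrt hd0.le
  have hs0 : 0 < √(d:ℝ) := Real.sqrt_pos.mpr hd0
  calc tauR d / (d:ℝ) ^ 2 ≤ C * √(d:ℝ) / (d:ℝ) ^ 2 := by gcongr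
    _ = C * (1 / (d * √(d:ℝ))) := by
        rw [mul_one_div, div_eq_div_iff (by positivity) (by positivity)]
        calc C * √(d:ℝ) * (d * √(d:ℝ)) = C * d * (√(d:ℝ) * √(d:ℝ)) := by ring
          _ = C * (d:ℝ) ^ 2 := by rw [hs]; ring

lemma sum_threehalf_tail {Y : ℕ} (hY : 1 ≤ Y) (M : ℕ) :
    ∑ d ∈ Finset.Ioc Y M, 1 / ((d:ℝ) * √(d:ℝ)) ≤ 2 / √(Y:ℝ) := by
  rcases le_or_gt M Y with h | h
  · rw [Finset.Ioc_eq_empty (by omega), Finset.sum_empty]; positivity
  have hY0 : (0:ℝ) < Y := by exact_mod_cast (by omega : 0 < Y)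
  have key : ∀ M : ℕ, Y ≤ M → ∑ d ∈ Finset.Ioc Y M, 1 / ((d:ℝ) * √(d:ℝ)) ≤
      2 / √(Y:ℝ) - 2 / √(M:ℝ) := by
    intro M hM
    induction M, hM using Nat.le_induction with
    | base => simp
    | succ M hM ih =>
      rw [sum_Ioc_succ' _ hM]
      have hM0 : (0:ℝ) < M := lt_of_lt_of_le hY0 (by exact_mod_cast hM)
      set x := √(M:ℝ) with hx
      set y := √((M+1:ℕ):ℝ) with hy
      have hx0 : 0 < x := Real.sqrt_pos.mpr hM0
      have hy0 : 0 < y := Real.sqrt_pos.mpr (by positivity)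
      have hxx : x ^ 2 = M := Real.sq_sqrt hM0.le
      have hyy : y ^ 2 = M + 1 := by rw [hy, Real.sq_sqrt (by positivity)]; push_cast; ring
      have hxy : x ≤ y := Real.sqrt_le_sqrt (by push_cast; linarith)
      have e1 : ((M+1:ℕ):ℝ) = y ^ 2 := by rw [hyy]; push_cast; ring
      have h1 : 1 / (((M+1:ℕ):ℝ) * y) ≤ 2 / x - 2 / y := by
        rw [e1, div_sub_div _ _ hx0.ne' hy0.ne', div_le_div_iff₀ (by positivity) (by positivity)]
        have h2 : (y - x) * (y + x) = 1 := by nlinarith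
        have h3 : y + x ≤ 2 * y := by linarith
        have h4 : 0 ≤ y - x := by linarith
        have h5 : 1 ≤ (y - x) * (2 * y) := by
          calc (1:ℝ) = (y - x) * (y + x) := h2.symm
            _ ≤ (y - x) * (2 * y) := by gcongr
        have h6 : x * y ≤ y ^ 2 := by nlinarith
        calc 1 * (x * y) ≤ 1 * y ^ 2 := by linarith
          _ ≤ ((y - x) * (2 * y)) * y ^ 2 := by gcongr
          _ = (2 * y - x * 2) * (y ^ 2 * y) := by ring
      linarith
  have h1 := key M h.le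
  have : 0 ≤ 2 / √(M:ℝ) := by positivity
  linarith

/-- The truncated Artin-type sum. -/
noncomputable def GG (N Y : ℕ) : ℝ :=
  ∑ d ∈ (Finset.Icc 1 Y).filter (fun d => d.Coprime N), muR d * fA d

lemma GG_lower : ∃ C : ℝ, 0 < C ∧ ∀ N Y : ℕ, 1 ≤ Y → 3/20 - C / √(Y:ℝ) ≤ GG N Y := by
  obtain ⟨C, hC, hτ⟩ := exists_tau_sqrt
  refine ⟨2 * C, by positivity, fun N Y hY => ?_⟩
  set S := (Finset.Icc 1 Y).filter (fun l => l.Prime ∧ ¬ l ∣ N) with hS
  have hSp : ∀ l ∈ S, l.Prime := fun l hl => (Finset.mem_filter.mp hl).2.1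
  set P := ∏ l ∈ S, l with hP
  have hPsq : Squarefree P := by
    rw [hP]
    refine Finset.squarefree_prod_of_pairwise_isCoprime ?_ fun l hl => (hSp l hl).prime.squarefree
    intro a ha b hb hab
    exact Nat.coprime_iff_isRelPrime.mp ((Nat.coprime_primes (hSp a ha) (hSp b hb)).mpr hab)
  have hPpf : P.primeFactors = S := Nat.primeFactors_prod hSp
  have hP0 : P ≠ 0 := hPsq.ne_zero
  have hPN : P.Coprime N := by
    rw [hP]
    refine Nat.Coprime.prod_left fun l hl => ?_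
    exact (Nat.Prime.coprime_iff_not_dvd (hSp l hl)).mpr (Finset.mem_filter.mp hl).2.2
  have hfull : 3/20 ≤ ∑ d ∈ P.divisors, muR d * fA d := by
    have h1 := IsMultiplicative.prodPrimeFactors_one_sub_of_squarefree fA fA_mult hPsq
    have h2 : ∑ d ∈ P.divisors, muR d * fA d = ∏ p ∈ P.primeFactors, (1 - fA p) := h1.symm
    rw [h2, hPpf]
    have h3 := sum_primes_le S hSp
    have h4 := (one_sub_sum_le_prod S (fun l => fA l) (fun l _ => fA_nonneg l) (fun l hl => by
      rw [fA_apply, div_le_one]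
      · exact_mod_cast Nat.totient_pos.mpr (pow_pos (hSp l hl).pos 2)
      · exact_mod_cast Nat.totient_pos.mpr (pow_pos (hSp l hl).pos 2))).1
    have h5 : ∑ l ∈ S, fA l = ∑ l ∈ S, 1 / (Nat.totient (l ^ 2) : ℝ) := rfl
    rw [h5] at h4
    linarith
  have hGG : GG N Y = ∑ d ∈ P.divisors.filter (fun d => d ≤ Y), muR d * fA d := by
    unfold GG
    symm
    refine Finset.sum_subset ?_ ?_
    · intro d hd
      obtain ⟨h1, h2⟩ := Finset.mem_filter.mp hd
      have h3 := Nat.dvd_of_mem_divisors h1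
      exact Finset.mem_filter.mpr ⟨Finset.mem_Icc.mpr ⟨Nat.pos_of_dvd_of_pos h3
        (Nat.pos_of_ne_zero hP0), h2⟩, Nat.Coprime.coprime_dvd_left h3 hPN⟩
    · intro d hd hd'
      obtain ⟨h1, h2⟩ := Finset.mem_filter.mp hd
      obtain ⟨h3, h4⟩ := Finset.mem_Icc.mp h1
      have h5 : ¬ Squarefree d := by
        intro hsq
        apply hd'
        refine Finset.mem_filter.mpr ⟨Nat.mem_divisors.mpr ⟨?_, hP0⟩, h4⟩
        rw [← Nat.prod_primeFactors_of_squarefree hsq, hP]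
        refine Finset.prod_dvd_prod_of_subset _ _ _ fun p hp => ?_
        have hpp := Nat.prime_of_mem_primeFactors hp
        have hpd := Nat.dvd_of_mem_primeFactors hp
        refine Finset.mem_filter.mpr ⟨Finset.mem_Icc.mpr ⟨hpp.one_le,
          (Nat.le_of_dvd h3 hpd).trans h4⟩, hpp, fun hpN => ?_⟩
        have := Nat.dvd_gcd hpd hpN
        rw [Nat.Coprime] at h2
        rw [h2] at this
        exact hpp.one_lt.ne' (Nat.dvd_one.mp this)
      have : muR d = 0 := by unfold muR; rw [moebius_eq_zero_of_not_squarefree h5]; simp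
      rw [this, zero_mul]
  have hsplit := Finset.sum_filter_add_sum_filter_not P.divisors (fun d => d ≤ Y)
    (fun d => muR d * fA d)
  have htail : |∑ d ∈ P.divisors.filter (fun d => ¬ d ≤ Y), muR d * fA d| ≤ 2 * C / √(Y:ℝ) := by
    calc _ ≤ ∑ d ∈ P.divisors.filter (fun d => ¬ d ≤ Y), C * (1 / (d * √(d:ℝ))) := by
          refine (Finset.abs_sum_le_sum_abs _ _).trans (Finset.sum_le_sum fun d hd => ?_)
          have hd0 : d ≠ 0 := by
            rintro rfl
            exact (Finset.mem_filter.mp hd).2 (Nat.zero_le _)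
          rw [abs_mul, abs_of_nonneg (fA_nonneg d)]
          calc |muR d| * fA d ≤ 1 * fA d := mul_le_mul_of_nonneg_right (abs_muR_le d) (fA_nonneg d)
            _ = fA d := one_mul _
            _ ≤ tauR d / (d:ℝ) ^ 2 := fA_le_tau hd0
            _ ≤ _ := hτ d hd0
      _ ≤ ∑ d ∈ Finset.Ioc Y P, C * (1 / (d * √(d:ℝ))) := by
          refine Finset.sum_le_sum_of_subset_of_nonneg ?_ fun _ _ _ => by positivity
          intro d hd
          obtain ⟨h1, h2⟩ := Finset.mem_filter.mp hd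
          exact Finset.mem_Ioc.mpr ⟨by omega, Nat.le_of_dvd (Nat.pos_of_ne_zero hP0)
            (Nat.dvd_of_mem_divisors h1)⟩
      _ = C * ∑ d ∈ Finset.Ioc Y P, 1 / (d * √(d:ℝ)) := by rw [Finset.mul_sum]
      _ ≤ C * (2 / √(Y:ℝ)) := by
          gcongr
          exact sum_threehalf_tail hY P
      _ = _ := by ring
  rw [hGG]
  rw [abs_le] at htail
  linarith [htail.2]

/-- Lower bound for `HH` at primes. -/
lemma HH_lower : ∃ C : ℝ, 0 < C ∧ ∀ N Y l : ℕ, 1 ≤ Y → l.Prime → l.Coprime N →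
    3/20 - C / √(Y:ℝ) ≤ 0 ∨ 3/20 - C / √(Y:ℝ) - C / l ≤ HH N Y l := by
  obtain ⟨C1, hC1, hG⟩ := GG_lower
  obtain ⟨C2, hC2, hτ⟩ := exists_tau_sqrt
  refine ⟨C1 + 6 * C2, by positivity, fun N Y l hY hl hlN => ?_⟩
  have hY0 : (0:ℝ) < Y := by exact_mod_cast (by omega : 0 < Y)
  have hsY : 0 < √(Y:ℝ) := Real.sqrt_pos.mpr hY0
  rcases le_or_gt (3/20 - (C1 + 6 * C2) / √(Y:ℝ)) 0 with h0 | h0
  · exact Or.inl h0
  right
  have hl0 : (0:ℝ) < l := by exact_mod_cast hl.pos
  have hl2 : (2:ℝ) ≤ l := by exact_mod_cast hl.two_le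
  set I := (Finset.Icc 1 Y).filter (fun d => d.Coprime N) with hI
  -- evaluate the lcm
  have h1 : ∀ d ∈ I, muR d / (Nat.totient (l.lcm (d^2)) : ℝ) =
      (1 / ((l:ℝ) - 1)) * (muR d * fA d) +
      (if l ∣ d then (1 - 1 / ((l:ℝ) - 1)) * (muR d * fA d) else 0) := by
    intro d _
    split_ifs with hd
    · have : l.lcm (d^2) = d^2 := Nat.lcm_eq_right (hd.trans (dvd_pow_self d two_ne_zero))
      rw [this, fA_apply]; ring
    · have hcop : Nat.Coprime l (d^2) := Nat.Coprime.pow_right 2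
        ((Nat.Prime.coprime_iff_not_dvd hl).mpr hd)
      rw [hcop.lcm_eq_mul, Nat.totient_mul hcop, Nat.totient_prime hl, fA_apply]
      push_cast [Nat.cast_sub hl.one_le]
      rw [add_zero]
      rw [← div_div]
      ring
  have h2 : HH N Y l = (l / ((l:ℝ) - 1)) * GG N Y +
      l * (1 - 1 / ((l:ℝ) - 1)) * ∑ d ∈ I.filter (fun d => l ∣ d), muR d * fA d := by
    have e1 : HH N Y l = l * ∑ d ∈ I, muR d / (Nat.totient (l.lcm (d^2)) : ℝ) := rfl
    have e2 : GG N Y = ∑ d ∈ I, muR d * fA d := rfl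
    rw [e1, e2, Finset.sum_congr rfl h1, Finset.sum_add_distrib, ← Finset.mul_sum,
      ← Finset.sum_filter, ← Finset.mul_sum]
    ring
  have h3 : |∑ d ∈ I.filter (fun d => l ∣ d), muR d * fA d| ≤ 6 * C2 / (l:ℝ) ^ 2 := by
    calc _ ≤ ∑ d ∈ I.filter (fun d => l ∣ d), fA d := by
          refine (Finset.abs_sum_le_sum_abs _ _).trans (Finset.sum_le_sum fun d _ => ?_)
          rw [abs_mul, abs_of_nonneg (fA_nonneg d)]
          exact mul_le_of_le_one_left (fA_nonneg d) (abs_muR_le d)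
      _ ≤ ∑ d ∈ (Finset.Icc 1 Y).image (fun e => l * e), fA d := by
          refine Finset.sum_le_sum_of_subset_of_nonneg ?_ fun d _ _ => fA_nonneg d
          intro d hd
          obtain ⟨h1, h2⟩ := Finset.mem_filter.mp hd
          obtain ⟨h3, _⟩ := Finset.mem_filter.mp h1
          obtain ⟨h4, h5⟩ := Finset.mem_Icc.mp h3
          obtain ⟨e, rfl⟩ := h2
          refine Finset.mem_image.mpr ⟨e, Finset.mem_Icc.mpr ⟨?_, ?_⟩, rfl⟩
          · rcases Nat.eq_zero_or_pos e with rfl | h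
            · simp at h4
            · exact h
          · exact (Nat.le_mul_of_pos_left e hl.pos).trans h5
      _ = ∑ e ∈ Finset.Icc 1 Y, fA (l * e) := by
          refine Finset.sum_image fun x _ y _ hxy => ?_
          exact Nat.eq_of_mul_eq_mul_left hl.pos hxy
      _ ≤ ∑ e ∈ Finset.Icc 1 Y, 2 / (l:ℝ) ^ 2 * (C2 * (1 / (e * √(e:ℝ)))) := by
          refine Finset.sum_le_sum fun e he => ?_
          have he1 := (Finset.mem_Icc.mp he).1
          have he0 : e ≠ 0 := by omega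
          have heR : (0:ℝ) < e := by exact_mod_cast he1
          have ht := tauR_mul_le l e
          have htl : tauR l = 2 := by
            unfold tauR
            rw [hl.divisors]
            rw [Finset.card_pair hl.one_lt.ne]
            norm_num
          calc fA (l * e) ≤ tauR (l * e) / ((l * e : ℕ):ℝ) ^ 2 := fA_le_tau (mul_ne_zero hl.ne_zero he0)
            _ ≤ (2 * tauR e) / ((l * e : ℕ):ℝ) ^ 2 := by
                rw [htl] at ht
                gcongr
            _ = 2 / (l:ℝ) ^ 2 * (tauR e / (e:ℝ) ^ 2) := by push_cast; rw [mul_pow]; field_simp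
            _ ≤ _ := by
                gcongr
                exact hτ e he0
      _ = 2 / (l:ℝ) ^ 2 * C2 * ∑ e ∈ Finset.Ioc 0 Y, (1 / (e * √(e:ℝ))) := by
          have : Finset.Icc 1 Y = Finset.Ioc 0 Y := rfl
          rw [this, Finset.mul_sum]
          refine Finset.sum_congr rfl fun e _ => by ring
      _ ≤ 2 / (l:ℝ) ^ 2 * C2 * 3 := by
          gcongr
          have h4 : Finset.Ioc 0 Y = Finset.Ioc 0 1 ∪ Finset.Ioc 1 Y := by
            ext d
            rw [Finset.mem_union, Finset.mem_Ioc, Finset.mem_Ioc, Finset.mem_Ioc]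
            omega
          have hdisj : Disjoint (Finset.Ioc 0 1) (Finset.Ioc 1 Y) := by
            rw [Finset.disjoint_left]
            intro d h1 h2
            have := Finset.mem_Ioc.mp h1
            have := Finset.mem_Ioc.mp h2
            omega
          rw [h4, Finset.sum_union hdisj]
          have h5 := sum_threehalf_tail (le_refl 1) Y
          have h6 : ∑ e ∈ Finset.Ioc (0:ℕ) 1, (1 / ((e:ℝ) * √(e:ℝ))) = 1 := by
            rw [show Finset.Ioc (0:ℕ) 1 = {1} from rfl, Finset.sum_singleton]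
            simp
          rw [h6]
          have h7 : (2:ℝ) / √((1:ℕ):ℝ) = 2 := by simp
          rw [h7] at h5
          linarith
      _ = _ := by ring
  have h4 : 3/20 - C1 / √(Y:ℝ) ≤ GG N Y := hG N Y hY
  have h5 : C1 / √(Y:ℝ) ≤ (C1 + 6 * C2) / √(Y:ℝ) := by gcongr; linarith [mul_nonneg (by norm_num : (0:ℝ) ≤ 6) (by linarith : (0:ℝ) ≤ C2)]
  have hGG0 : 0 ≤ GG N Y := by linarith
  have h6 : GG N Y ≤ (l / ((l:ℝ) - 1)) * GG N Y := by
    refine le_mul_of_one_le_left hGG0 ?_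
    rw [le_div_iff₀ (by linarith)]; linarith
  have h7 : |l * (1 - 1 / ((l:ℝ) - 1)) * ∑ d ∈ I.filter (fun d => l ∣ d), muR d * fA d| ≤
      6 * C2 / l := by
    have h8 : 0 ≤ 1 - 1 / ((l:ℝ) - 1) := by
      rw [sub_nonneg, div_le_one (by linarith)]; linarith
    have h9 : 1 - 1 / ((l:ℝ) - 1) ≤ 1 := by
      have : 0 ≤ 1 / ((l:ℝ) - 1) := by
        apply div_nonneg zero_le_one; linarith
      linarith
    rw [abs_mul, abs_of_nonneg (mul_nonneg hl0.le h8)]
    calc l * (1 - 1 / ((l:ℝ) - 1)) * _ ≤ l * 1 * (6 * C2 / (l:ℝ) ^ 2) := by gcongr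
      _ = 6 * C2 / l := by field_simp
  have h10 : 6 * C2 / l ≤ (C1 + 6 * C2) / l := by gcongr; linarith
  rw [h2]
  rw [abs_le] at h7
  linarith [h7.1]

end Pool.Agent.DEH
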