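import Pool.Agent.DEH.Sharp3

open Pool.Agent.ANT ArithmeticFunction Filter
open scoped ArithmeticFunction.Moebius

namespace Pool.Agent.DEH

/-- sums over the blocks -/
lemma sum_blocks {N K : ℕ} (hK : 1 ≤ K) (f : ℕ → ℝ) {M : ℕ} (hM : K ≤ M) :
    ∑ j ∈ Finset.Ico K M, ∑ q ∈ Finset.Ioc (N / (j+1)) (N / j), f q =
      ∑ q ∈ Finset.Ioc (N / M) (N / K), f q := by
  induction M, hM using Nat.le_induction with
  | base => simp
  | succ M hM ih =>
    rw [Finset.sum_Ico_succ_top hM, ih]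
    have h1 : N / (M+1) ≤ N / M := Nat.div_le_div_left (by omega) (by omega)
    have h2 : N / M ≤ N / K := Nat.div_le_div_left hM (by omega)
    rw [add_comm]
    exact Finset.sum_Ioc_consecutive f h1 h2

lemma TT_diff {N Y l : ℕ} (hl : 1 ≤ l) (hcop : l.Coprime N) :
    TT N Y l - TT N Y (l-1) = muR l * HH N Y l := by
  obtain ⟨k, rfl⟩ : ∃ k, l = k + 1 := ⟨l-1, by omega⟩
  rw [Nat.add_sub_cancel]
  unfold TT
  rw [Finset.sum_filter, Finset.sum_filter, ← Finset.insert_Icc_right_eq_Icc_add_one (by omega),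
    Finset.sum_insert (by simp), if_pos hcop]
  ring

lemma ev_theta_diff : ∀ᶠ x : ℝ in atTop, x / 2 ≤ Chebyshev.theta (2 * x) - Chebyshev.theta x := by
  obtain ⟨C, hC, h⟩ := theta_ap 1 (show (0:ℝ) < 1 by norm_num)
  filter_upwards [Real.tendsto_log_atTop.eventually_gt_atTop (6 * C), eventually_ge_atTop (3:ℝ)]
    with x hx hx3
  have hx0 : 0 < x := by linarith
  have key : ∀ y : ℝ, 3 ≤ y → |Chebyshev.theta y - y| ≤ C * y / Real.log y := by
    intro y hy
    have h1 := h 1 (1 : ZMod 1) isUnit_one y hy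
    have h2 : ∑ p ∈ (Finset.Icc 1 ⌊y⌋₊).filter (fun p : ℕ => p.Prime ∧ (p : ZMod 1) = 1), Real.log p =
        Chebyshev.theta y := by
      unfold Chebyshev.theta
      have : Finset.Ioc 0 ⌊y⌋₊ = Finset.Icc 1 ⌊y⌋₊ := rfl
      rw [this]
      congr 1
      refine Finset.filter_congr fun p _ => ?_
      constructor
      · rintro ⟨h, _⟩; exact h
      · intro h; exact ⟨h, Subsingleton.elim _ _⟩
    rw [h2] at h1
    simpa only [Nat.cast_one, Nat.totient_one, div_one, Real.one_rpow, mul_one, pow_one] using h1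
  have k1 := key x hx3
  have k2 := key (2 * x) (by linarith)
  have hl1 := one_le_log hx3
  have hl2 : Real.log x ≤ Real.log (2 * x) := Real.log_le_log hx0 (by linarith)
  have b1 : C * x / Real.log x ≤ x / 6 := by
    rw [div_le_div_iff₀ (by linarith) (by norm_num)]
    nlinarith
  have b2 : C * (2 * x) / Real.log (2 * x) ≤ x / 3 := by
    rw [div_le_div_iff₀ (by linarith) (by norm_num)]
    nlinarith
  rw [abs_le] at k1 k2
  linarith [k1.2, k2.1]

/-- Powers of the logarithm are small. -/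
lemma ev_log_pow (c : ℝ) (k : ℕ) : ∀ᶠ N : ℕ in atTop, c * Real.log N ^ k ≤ √(N:ℝ) := by
  obtain ⟨L, hL, hlog⟩ := log_pow_le_rpow k (show (0:ℝ) < 1/4 by norm_num)
  have ht : Tendsto (fun n : ℕ => (n:ℝ) ^ (1/4:ℝ)) atTop atTop :=
    (tendsto_rpow_atTop (by positivity)).comp tendsto_natCast_atTop_atTop
  filter_upwards [ht.eventually_ge_atTop (|c| * L), eventually_ge_atTop 1] with N hN hN1
  have hN1' : (1:ℝ) ≤ N := by exact_mod_cast hN1
  have hN0 : (0:ℝ) < N := by linarith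
  have h1 := hlog N hN1'
  have h0 : 0 ≤ Real.log N ^ k := pow_nonneg (Real.log_natCast_nonneg N) k
  calc c * Real.log N ^ k ≤ |c| * Real.log N ^ k := by gcongr; exact le_abs_self c
    _ ≤ |c| * (L * (N:ℝ) ^ (1/4:ℝ)) := by gcongr
    _ = (|c| * L) * (N:ℝ) ^ (1/4:ℝ) := by ring
    _ ≤ (N:ℝ) ^ (1/4:ℝ) * (N:ℝ) ^ (1/4:ℝ) := by gcongr
    _ = √(N:ℝ) := by rw [← Real.rpow_add hN0, Real.sqrt_eq_rpow]; norm_num

/-- `⌈log N⌉`. -/
noncomputable def ll (N : ℕ) : ℕ := ⌈Real.log N⌉₊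

lemma tendsto_ll : Tendsto ll atTop atTop :=
  tendsto_nat_ceil_atTop.comp (Real.tendsto_log_atTop.comp tendsto_natCast_atTop_atTop)

/-- Many primes not dividing `N` in the range `(K, 2K)`, `K = l^(b+2)`. -/
lemma ev_primes (b : ℕ) : ∀ᶠ N : ℕ in atTop, 2 * (ll N : ℝ) ^ (b+1) ≤
    ((((Finset.Ioo (ll N ^ (b+2)) (2 * ll N ^ (b+2))).filter
      (fun p => p.Prime ∧ ¬ p ∣ N)).card : ℕ) : ℝ) := by
  have hK : Tendsto (fun N : ℕ => ((ll N ^ (b+2) : ℕ) : ℝ)) atTop atTop :=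
    tendsto_natCast_atTop_atTop.comp ((tendsto_pow_atTop (by omega)).comp tendsto_ll)
  have hlg : ∀ᶠ l : ℕ in atTop, Real.log (2 * ((l:ℝ) ^ (b+2))) ≤ l / 8 := by
    have h1 : (fun x : ℝ => Real.log x) =o[atTop] (fun x => x) := Real.isLittleO_log_id_atTop
    have h2 := (h1.bound (show (0:ℝ) < 1 / (16 * (b + 2)) by positivity))
    have h3 := tendsto_natCast_atTop_atTop.eventually h2
    filter_upwards [h3, eventually_ge_atTop 16, h3] with l hl hl16 _
    have hl16' : (16:ℝ) ≤ l := by exact_mod_cast hl16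
    have hl0 : (0:ℝ) < l := by linarith
    rw [Real.norm_eq_abs, Real.norm_eq_abs, abs_of_pos hl0,
      abs_of_nonneg (Real.log_nonneg (by linarith))] at hl
    rw [Real.log_mul (by norm_num) (by positivity), Real.log_pow]
    have h4 : Real.log 2 ≤ 1 := by have := Real.log_two_lt_d9; linarith
    have h5 : ((b+2 : ℕ):ℝ) * Real.log l ≤ l / 16 := by
      calc ((b+2 : ℕ):ℝ) * Real.log l ≤ ((b+2 : ℕ):ℝ) * (1 / (16 * (b + 2)) * l) := by gcongr
        _ = l / 16 := by push_cast; field_simp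
    linarith
  filter_upwards [hK.eventually ev_theta_diff, tendsto_ll.eventually hlg,
    tendsto_ll.eventually_ge_atTop 2, eventually_ge_atTop 3] with N hθ hlog hl2 hN3
  obtain ⟨l, hl⟩ : ∃ l, l = ll N := ⟨_, rfl⟩
  rw [← hl] at hθ hlog hl2 ⊢
  obtain ⟨K, hKdef⟩ : ∃ K, K = l ^ (b+2) := ⟨_, rfl⟩
  have hKR : (K:ℝ) = (l:ℝ) ^ (b+2) := by rw [hKdef]; push_cast; ring
  rw [← hKdef] at hθ ⊢
  rw [← hKR] at hlog
  have hl2' : (2:ℝ) ≤ l := by exact_mod_cast hl2
  have hK2 : 2 ≤ K := by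
    rw [hKdef]
    calc 2 ≤ l := hl2
      _ = l ^ 1 := (pow_one l).symm
      _ ≤ l ^ (b+2) := Nat.pow_le_pow_right (by omega) (by omega)
  have hK2' : (2:ℝ) ≤ K := by exact_mod_cast hK2
  -- theta difference as a sum
  have h1 : Chebyshev.theta (2 * (K:ℝ)) - Chebyshev.theta K =
      ∑ p ∈ (Finset.Ioc K (2 * K)).filter Nat.Prime, Real.log p := by
    unfold Chebyshev.theta
    have e1 : ⌊2 * (K:ℝ)⌋₊ = 2 * K := by
      have : 2 * (K:ℝ) = ((2 * K : ℕ) : ℝ) := by push_cast; ring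
      rw [this, Nat.floor_natCast]
    rw [e1, Nat.floor_natCast, Finset.sum_filter, Finset.sum_filter, Finset.sum_filter,
      ← Finset.sum_Ioc_consecutive _ (Nat.zero_le K) (by omega : K ≤ 2 * K)]
    ring
  have h2 : (Finset.Ioc K (2 * K)).filter Nat.Prime = (Finset.Ioo K (2 * K)).filter Nat.Prime := by
    ext p
    rw [Finset.mem_filter, Finset.mem_filter, Finset.mem_Ioc, Finset.mem_Ioo]
    constructor
    · rintro ⟨⟨h3, h4⟩, h5⟩
      refine ⟨⟨h3, lt_of_le_of_ne h4 ?_⟩, h5⟩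
      rintro rfl
      exact Nat.not_prime_mul (by norm_num) (by omega) h5
    · rintro ⟨⟨h3, h4⟩, h5⟩
      exact ⟨⟨h3, h4.le⟩, h5⟩
  have h3 : ∑ p ∈ (Finset.Ioo K (2 * K)).filter Nat.Prime, Real.log p ≤
      (((Finset.Ioo K (2 * K)).filter Nat.Prime).card : ℝ) * (l / 8) := by
    rw [← nsmul_eq_mul, ← Finset.sum_const]
    refine Finset.sum_le_sum fun p hp => ?_
    obtain ⟨h4, h5⟩ := Finset.mem_filter.mp hp
    obtain ⟨h6, h7⟩ := Finset.mem_Ioo.mp h4
    refine le_trans (Real.log_le_log (by exact_mod_cast h5.pos) ?_) hlog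
    exact_mod_cast h7.le
  rw [h1, h2] at hθ
  have h4 : 4 * (l:ℝ) ^ (b+1) ≤ (((Finset.Ioo K (2 * K)).filter Nat.Prime).card : ℝ) := by
    have h5 : (K:ℝ) / 2 ≤ (((Finset.Ioo K (2 * K)).filter Nat.Prime).card : ℝ) * (l / 8) :=
      hθ.trans h3
    have h6 : (K:ℝ) = (l:ℝ) ^ (b+1) * l := by rw [hKR]; ring
    rw [h6] at h5
    by_contra hcon
    push Not at hcon
    nlinarith
  have h5 : (((Finset.Ioo K (2 * K)).filter Nat.Prime).card : ℝ) ≤
      ((((Finset.Ioo K (2 * K)).filter (fun p => p.Prime ∧ ¬ p ∣ N)).card : ℕ) : ℝ) +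
      (N.primeFactors.card : ℝ) := by
    have : ((Finset.Ioo K (2 * K)).filter Nat.Prime) ⊆
        ((Finset.Ioo K (2 * K)).filter (fun p => p.Prime ∧ ¬ p ∣ N)) ∪ N.primeFactors := by
      intro p hp
      obtain ⟨h6, h7⟩ := Finset.mem_filter.mp hp
      by_cases h8 : p ∣ N
      · exact Finset.mem_union_right _ (Nat.mem_primeFactors.mpr ⟨h7, h8, by omega⟩)
      · exact Finset.mem_union_left _ (Finset.mem_filter.mpr ⟨h6, h7, h8⟩)
    have := (Finset.card_le_card this).trans (Finset.card_union_le _ _)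
    exact_mod_cast this
  have h6 := card_primeFactors_le_log (q := N) (by omega)
  have h7 : Real.log N ≤ l := by rw [hl]; exact Nat.le_ceil _
  have h8 : (l:ℝ) ≤ (l:ℝ) ^ (b+1) := by
    calc (l:ℝ) = (l:ℝ) ^ 1 := (pow_one _).symm
      _ ≤ _ := pow_le_pow_right₀ (by linarith) (by omega)
  linarith

end Pool.Agent.DEH
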