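import Pool.Agent.DEH.Sharp4

open Pool.Agent.ANT ArithmeticFunction Filter
open scoped ArithmeticFunction.Moebius

namespace Pool.Agent.DEH

lemma sum_TT_lower {N Y K : ℕ} {c : ℝ}
    (hH : ∀ p : ℕ, K < p → p.Prime → ¬ p ∣ N → c ≤ HH N Y p) (S : Finset ℕ)
    (hS : ∀ p ∈ S, (K < p ∧ p < 2 * K) ∧ p.Prime ∧ ¬ p ∣ N) :
    S.card * c ≤ 2 * ∑ j ∈ Finset.Ico K (2 * K), |TT N Y j| := by
  have h1 : ∀ p ∈ S, c ≤ |TT N Y p| + |TT N Y (p-1)| := by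
    intro p hp
    obtain ⟨⟨h1, h2⟩, h3, h4⟩ := hS p hp
    have h5 := hH p h1 h3 h4
    have h6 := TT_diff (N := N) (Y := Y) h3.one_le ((Nat.Prime.coprime_iff_not_dvd h3).mpr h4)
    have h7 : muR p = -1 := by
      unfold muR
      rw [moebius_apply_prime h3]; norm_num
    rw [h7] at h6
    have h8 : HH N Y p = TT N Y (p-1) - TT N Y p := by linarith
    have h9 := abs_sub (TT N Y (p-1)) (TT N Y p)
    have h10 := le_abs_self (TT N Y (p-1) - TT N Y p)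
    linarith
  have h2 : ∑ p ∈ S, |TT N Y p| ≤ ∑ j ∈ Finset.Ico K (2 * K), |TT N Y j| := by
    refine Finset.sum_le_sum_of_subset_of_nonneg ?_ fun _ _ _ => abs_nonneg _
    intro p hp
    obtain ⟨⟨h1, h2⟩, -⟩ := hS p hp
    exact Finset.mem_Ico.mpr ⟨h1.le, h2⟩
  have h3 : ∑ p ∈ S, |TT N Y (p-1)| ≤ ∑ j ∈ Finset.Ico K (2 * K), |TT N Y j| := by
    calc _ = ∑ j ∈ S.image (fun p => p-1), |TT N Y j| := by
          rw [Finset.sum_image]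
          intro x hx y hy hxy
          obtain ⟨⟨h1, -⟩, -⟩ := hS x hx
          obtain ⟨⟨h2, -⟩, -⟩ := hS y hy
          have : x - 1 = y - 1 := hxy
          omega
      _ ≤ _ := by
          refine Finset.sum_le_sum_of_subset_of_nonneg ?_ fun _ _ _ => abs_nonneg _
          intro j hj
          obtain ⟨p, hp, rfl⟩ := Finset.mem_image.mp hj
          obtain ⟨⟨h1, h2⟩, -⟩ := hS p hp
          exact Finset.mem_Ico.mpr ⟨by omega, by omega⟩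
  calc S.card * c = ∑ _p ∈ S, c := by rw [Finset.sum_const, nsmul_eq_mul]
    _ ≤ ∑ p ∈ S, (|TT N Y p| + |TT N Y (p-1)|) := Finset.sum_le_sum h1
    _ = ∑ p ∈ S, |TT N Y p| + ∑ p ∈ S, |TT N Y (p-1)| := Finset.sum_add_distrib
    _ ≤ _ := by linarith

/-- length of a block -/
lemma block_len {N j K : ℕ} (hj1 : K ≤ j) (hj2 : j < 2 * K) (hN : 8 * K ^ 2 ≤ N) :
    (N:ℝ) / (8 * K ^ 2) ≤ ((N/j : ℕ) - (N/(j+1) : ℕ) : ℝ) := by
  have hK0 : (0:ℝ) < K := by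
    have : 0 < K := by omega
    exact_mod_cast this
  have hj0 : (0:ℝ) < j := lt_of_lt_of_le hK0 (by exact_mod_cast hj1)
  have h1 : (N:ℝ) / j - 1 ≤ ((N/j : ℕ):ℝ) := by
    have h := Nat.lt_floor_add_one ((N:ℝ)/j)
    rw [Nat.floor_div_eq_div] at h
    linarith
  have h2 : ((N/(j+1) : ℕ):ℝ) ≤ (N:ℝ) / (j+1) := by
    have := @Nat.cast_div_le ℝ _ _ _ N (j+1)
    push_cast at this
    exact this
  have h3 : (N:ℝ) / j - N / (j+1) = N / (j * (j+1)) := by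
    rw [div_sub_div _ _ hj0.ne' (by positivity)]; ring
  have h4 : (N:ℝ) / (4 * K^2) ≤ N / (j * (j+1)) := by
    have h5 : (j:ℝ) + 1 ≤ 2 * K := by exact_mod_cast hj2
    have h6 : (j:ℝ) * (j+1) ≤ 4 * K^2 := by nlinarith
    gcongr
  have h5 : (N:ℝ) / (4 * K^2) = N / (8 * K^2) + N / (8 * K^2) := by field_simp; ring
  have h6 : 1 ≤ (N:ℝ) / (8 * K^2) := by
    rw [one_le_div (by positivity)]
    exact_mod_cast hN
  linarith

set_option maxHeartbeats 1000000 in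
lemma lower_W (b : ℕ) : ∀ᶠ N : ℕ in atTop, (N:ℝ) / (160 * (ll N : ℝ) ^ (b+3)) ≤
    ∑ j ∈ Finset.Ico (ll N ^ (b+2)) (2 * ll N ^ (b+2)), |W N j| := by
  obtain ⟨C, hC0, hC⟩ := psi_unif (13 * b + 37)
  obtain ⟨CH, hCH0, hCH⟩ := HH_lower
  have hev1 : ∀ᶠ N : ℕ in atTop, 3840 * C * 2 ^ (13 * b + 37) ≤ (ll N : ℝ) :=
    (tendsto_natCast_atTop_atTop.comp tendsto_ll).eventually_ge_atTop _
  have hev2 : ∀ᶠ N : ℕ in atTop, 40 * CH ≤ (ll N : ℝ) :=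
    (tendsto_natCast_atTop_atTop.comp tendsto_ll).eventually_ge_atTop _
  filter_upwards [ev_primes b, tendsto_ll.eventually_ge_atTop 960, eventually_ge_atTop 9,
    ev_log_pow (2880 * 2 ^ (6*b+18)) (6*b+18), hev1, hev2] with N hprimes hl960 hN9 hpow hl1 hl2
  obtain ⟨l, hl⟩ : ∃ l, l = ll N := ⟨_, rfl⟩
  rw [← hl] at hprimes hl960 hl1 hl2 ⊢
  obtain ⟨K, hKdef⟩ : ∃ K, K = l ^ (b+2) := ⟨_, rfl⟩
  have hKR : (K:ℝ) = (l:ℝ) ^ (b+2) := by rw [hKdef]; push_cast; ring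
  rw [← hKdef] at hprimes ⊢
  obtain ⟨Y, hYdef⟩ : ∃ Y, Y = l ^ (3*b+9) := ⟨_, rfl⟩
  have hYR : (Y:ℝ) = (l:ℝ) ^ (3*b+9) := by rw [hYdef]; push_cast; ring
  have hN9' : (9:ℝ) ≤ N := by exact_mod_cast hN9
  have hN0 : (0:ℝ) < N := by linarith
  have hlog1 := one_le_log (show (3:ℝ) ≤ N by linarith)
  obtain ⟨L, hL⟩ : ∃ L, L = Real.log N := ⟨_, rfl⟩
  rw [← hL] at hpow hlog1
  have hL0 : 0 < L := by linarith
  have hLl : L ≤ l := by rw [hL, hl]; exact Nat.le_ceil _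
  have hlL : (l:ℝ) ≤ 2 * L := by
    have h1 : (l:ℝ) < L + 1 := by rw [hl, hL]; exact Nat.ceil_lt_add_one (by rw [← hL]; exact hL0.le)
    linarith
  have hl960' : (960:ℝ) ≤ l := by exact_mod_cast hl960
  have hl0 : (0:ℝ) < l := by linarith
  have hl1' : (1:ℝ) ≤ l := by linarith
  have hlN : 2880 * (l:ℝ) ^ (6*b+18) ≤ N := by
    calc 2880 * (l:ℝ) ^ (6*b+18) ≤ 2880 * (2 * L) ^ (6*b+18) := by gcongr
      _ = 2880 * 2 ^ (6*b+18) * L ^ (6*b+18) := by rw [mul_pow]; ring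
      _ ≤ √(N:ℝ) := hpow
      _ ≤ N := by
          rw [Real.sqrt_le_left (by positivity)]
          nlinarith
  have hYN : Y ≤ N := by
    have : (Y:ℝ) ≤ N := by
      rw [hYR]
      calc (l:ℝ) ^ (3*b+9) ≤ (l:ℝ) ^ (6*b+18) := pow_le_pow_right₀ hl1' (by omega)
        _ ≤ 2880 * (l:ℝ) ^ (6*b+18) := by
            have : 0 ≤ (l:ℝ) ^ (6*b+18) := by positivity
            linarith
        _ ≤ N := hlN
    exact_mod_cast this
  have hY1 : 1 ≤ Y := by rw [hYdef]; exact Nat.one_le_pow _ _ (by omega)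
  have hK1 : 1 ≤ K := by rw [hKdef]; exact Nat.one_le_pow _ _ (by omega)
  have hK0 : (0:ℝ) < K := by exact_mod_cast hK1
  have hY0 : (0:ℝ) < Y := by exact_mod_cast hY1
  have hKN : 8 * K ^ 2 ≤ N := by
    have : (8:ℝ) * K ^ 2 ≤ N := by
      rw [hKR, ← pow_mul]
      calc 8 * (l:ℝ) ^ ((b+2)*2) ≤ 2880 * (l:ℝ) ^ (6*b+18) := by
            gcongr
            · norm_num
            · omega
        _ ≤ N := hlN
    exact_mod_cast this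
  -- arithmetic lower bound
  have hH : ∀ p : ℕ, K < p → p.Prime → ¬ p ∣ N → 1/10 ≤ HH N Y p := by
    intro p hp1 hp2 hp3
    have h1 := hCH N Y p hY1 hp2 ((Nat.Prime.coprime_iff_not_dvd hp2).mpr hp3)
    have hsq : (l:ℝ) ≤ √(Y:ℝ) := by
      rw [Real.le_sqrt hl0.le hY0.le, hYR]
      exact pow_le_pow_right₀ hl1' (by omega)
    have hlp : (l:ℝ) ≤ p := by
      have h2 : (K:ℝ) ≤ p := by exact_mod_cast hp1.le
      refine le_trans ?_ h2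
      rw [hKR]
      calc (l:ℝ) = (l:ℝ) ^ 1 := (pow_one _).symm
        _ ≤ _ := pow_le_pow_right₀ hl1' (by omega)
    have h3 : CH / √(Y:ℝ) ≤ 1/40 := by
      calc CH / √(Y:ℝ) ≤ CH / l := by gcongr
        _ ≤ 1/40 := by rw [div_le_div_iff₀ hl0 (by norm_num)]; linarith
    have h4 : CH / (p:ℝ) ≤ 1/40 := by
      calc CH / (p:ℝ) ≤ CH / l := by gcongr
        _ ≤ 1/40 := by rw [div_le_div_iff₀ hl0 (by norm_num)]; linarith
    rcases h1 with h1 | h1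
    · exfalso; linarith
    · linarith
  have hTT := sum_TT_lower hH ((Finset.Ioo K (2 * K)).filter (fun p => p.Prime ∧ ¬ p ∣ N))
    (fun p hp => ⟨Finset.mem_Ioo.mp (Finset.mem_filter.mp hp).1, (Finset.mem_filter.mp hp).2⟩)
  have hTT' : (l:ℝ) ^ (b+1) / 10 ≤ ∑ j ∈ Finset.Ico K (2 * K), |TT N Y j| := by
    have h1 : 2 * (l:ℝ) ^ (b+1) * (1/10) ≤ 2 * ∑ j ∈ Finset.Ico K (2 * K), |TT N Y j| := by
      refine le_trans ?_ hTT
      gcongr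
    linarith
  -- error
  obtain ⟨Er, hEr⟩ : ∃ Er : ℝ, Er = 2 * K * (Y * (2 * (C * (2 * K * Y ^ 2) * N / L ^ (13*b+37)) + 1 +
    2 * L ^ 2) + N * L / Y) := ⟨_, rfl⟩
  have hW : ∀ j ∈ Finset.Ico K (2 * K), (N:ℝ) / (8 * K ^ 2) * |TT N Y j| - Er ≤ |W N j| := by
    intro j hj
    obtain ⟨hj1, hj2⟩ := Finset.mem_Ico.mp hj
    have h1 := W_eval hC0 hC hN9 hY1 hYN (le_trans hK1 hj1)
    rw [← hL] at h1
    have hj2' : (j:ℝ) ≤ 2 * K := by exact_mod_cast hj2.le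
    have h2 : j * (Y * (2 * (C * (j * Y ^ 2) * N / L ^ (13*b+37)) + 1 + 2 * L ^ 2) +
      N * L / Y) ≤ Er := by
      rw [hEr]; gcongr
    have h3 := block_len hj1 hj2 hKN
    have h4 : 0 ≤ (N:ℝ) / (8 * K ^ 2) := by positivity
    have h5 : (N:ℝ) / (8 * K ^ 2) * |TT N Y j| ≤ |((N/j : ℕ) - (N/(j+1) : ℕ) : ℝ) * TT N Y j| := by
      rw [abs_mul]
      gcongr
      exact h3.trans (le_abs_self _)
    have h6 := abs_sub_abs_le_abs_sub (((N/j : ℕ) - (N/(j+1) : ℕ) : ℝ) * TT N Y j) (W N j)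
    rw [abs_sub_comm] at h6
    linarith
  have hsum : (N:ℝ) / (8 * K ^ 2) * ((l:ℝ) ^ (b+1) / 10) - K * Er ≤
      ∑ j ∈ Finset.Ico K (2 * K), |W N j| := by
    calc _ ≤ (N:ℝ) / (8 * K ^ 2) * ∑ j ∈ Finset.Ico K (2 * K), |TT N Y j| - K * Er := by gcongr
      _ = ∑ j ∈ Finset.Ico K (2 * K), ((N:ℝ) / (8 * K ^ 2) * |TT N Y j| - Er) := by
          rw [Finset.sum_sub_distrib, ← Finset.mul_sum, Finset.sum_const, nsmul_eq_mul, Nat.card_Ico]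
          congr 2
          have : 2 * K - K = K := by omega
          rw [this]
      _ ≤ _ := Finset.sum_le_sum hW
  have hmainval : (N:ℝ) / (8 * K ^ 2) * ((l:ℝ) ^ (b+1) / 10) = N / (80 * (l:ℝ) ^ (b+3)) := by
    rw [hKR, div_mul_div_comm, div_eq_div_iff (by positivity) (by positivity)]
    ring
  have hKEr : K * Er ≤ N / (160 * (l:ℝ) ^ (b+3)) := by
    have e0 : K * Er = 8 * C * K ^ 3 * Y ^ 3 * N / L ^ (13*b+37) +
        2 * K ^ 2 * Y * (1 + 2 * L ^ 2) + 2 * K ^ 2 * N * L / Y := by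
      rw [hEr]; ring
    have t1 : 8 * C * K ^ 3 * Y ^ 3 * N / L ^ (13*b+37) ≤ N / (480 * (l:ℝ) ^ (b+3)) := by
      rw [div_le_div_iff₀ (by positivity) (by positivity), hKR, hYR]
      have h1 : (l:ℝ) ^ (13*b+37) ≤ 2 ^ (13*b+37) * L ^ (13*b+37) := by
        rw [← mul_pow]; gcongr
      have h2 : 8 * C * ((l:ℝ) ^ (b+2)) ^ 3 * ((l:ℝ) ^ (3*b+9)) ^ 3 * N * (480 * (l:ℝ) ^ (b+3)) =
          3840 * C * (N * (l:ℝ) ^ (13*b+36)) := by
        rw [← pow_mul, ← pow_mul]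
        have : (l:ℝ) ^ (13*b+36) = (l:ℝ) ^ ((b+2)*3) * (l:ℝ) ^ ((3*b+9)*3) * (l:ℝ) ^ (b+3) := by
          rw [← pow_add, ← pow_add]; congr 1; ring
        rw [this]; ring
      rw [h2]
      have h3 : 3840 * C * 2 ^ (13*b+37) * (l:ℝ) ^ (13*b+36) ≤ 2 ^ (13*b+37) * L ^ (13*b+37) := by
        calc 3840 * C * 2 ^ (13*b+37) * (l:ℝ) ^ (13*b+36) ≤ l * (l:ℝ) ^ (13*b+36) := by gcongr
          _ = (l:ℝ) ^ (13*b+37) := by ring
          _ ≤ _ := h1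
      have h4 : 3840 * C * (l:ℝ) ^ (13*b+36) ≤ L ^ (13*b+37) := by
        have h5 : (0:ℝ) < 2 ^ (13*b+37) := by positivity
        refine le_of_mul_le_mul_left ?_ h5
        calc _ = 3840 * C * 2 ^ (13*b+37) * (l:ℝ) ^ (13*b+36) := by ring
          _ ≤ _ := h3
      calc 3840 * C * (N * (l:ℝ) ^ (13*b+36)) = N * (3840 * C * (l:ℝ) ^ (13*b+36)) := by ring
        _ ≤ N * L ^ (13*b+37) := by gcongr
    have t2 : 2 * K ^ 2 * Y * (1 + 2 * L ^ 2) ≤ N / (480 * (l:ℝ) ^ (b+3)) := by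
      rw [le_div_iff₀ (by positivity), hKR, hYR]
      have h1 : 1 + 2 * L ^ 2 ≤ 3 * (l:ℝ) ^ 2 := by nlinarith
      calc 2 * ((l:ℝ) ^ (b+2)) ^ 2 * (l:ℝ) ^ (3*b+9) * (1 + 2 * L ^ 2) * (480 * (l:ℝ) ^ (b+3))
          ≤ 2 * ((l:ℝ) ^ (b+2)) ^ 2 * (l:ℝ) ^ (3*b+9) * (3 * (l:ℝ) ^ 2) * (480 * (l:ℝ) ^ (b+3)) := by
            gcongr
        _ = 2880 * (l:ℝ) ^ (6*b+18) := by
            rw [← pow_mul]
            have : (l:ℝ) ^ (6*b+18) = (l:ℝ) ^ ((b+2)*2) * (l:ℝ) ^ (3*b+9) * (l:ℝ) ^ 2 * (l:ℝ) ^ (b+3) := by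
              rw [← pow_add, ← pow_add, ← pow_add]; congr 1; ring
            rw [this]; ring
        _ ≤ N := hlN
    have t3 : 2 * K ^ 2 * N * L / Y ≤ N / (480 * (l:ℝ) ^ (b+3)) := by
      rw [div_le_div_iff₀ (by positivity) (by positivity), hKR, hYR]
      calc 2 * ((l:ℝ) ^ (b+2)) ^ 2 * N * L * (480 * (l:ℝ) ^ (b+3))
          ≤ 2 * ((l:ℝ) ^ (b+2)) ^ 2 * N * l * (480 * (l:ℝ) ^ (b+3)) := by gcongr
        _ = 960 * (N * (l:ℝ) ^ (3*b+8)) := by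
            rw [← pow_mul]
            have : (l:ℝ) ^ (3*b+8) = (l:ℝ) ^ ((b+2)*2) * l * (l:ℝ) ^ (b+3) := by
              rw [← pow_succ, ← pow_add]; congr 1; ring
            rw [this]; ring
        _ ≤ l * (N * (l:ℝ) ^ (3*b+8)) := by gcongr
        _ = N * (l:ℝ) ^ (3*b+9) := by ring
    have e1 : (N:ℝ) / (160 * (l:ℝ) ^ (b+3)) = 3 * (N / (480 * (l:ℝ) ^ (b+3))) := by
      field_simp; norm_num
    rw [e0, e1]
    linarith
  have e2 : (N:ℝ) / (80 * (l:ℝ) ^ (b+3)) = N / (160 * (l:ℝ) ^ (b+3)) + N / (160 * (l:ℝ) ^ (b+3)) := by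
    field_simp; norm_num
  rw [hmainval, e2] at hsum
  linarith

end Pool.Agent.DEH
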