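import Pool.Agent.DEH.Sharp5

open Pool.Agent.ANT Filter

namespace Pool.Agent.DEH

lemma lower_Dstar (b : ℕ) : ∀ᶠ N : ℕ in atTop, (N:ℝ) / (160 * (ll N : ℝ) ^ (b+3)) ≤
    Dstar g1 N (N / Real.log N ^ (b+2)) := by
  filter_upwards [lower_W b, tendsto_ll.eventually_ge_atTop 1, eventually_ge_atTop 3]
    with N hN hl1 hN3
  refine hN.trans ?_
  obtain ⟨K, hK⟩ : ∃ K, K = ll N ^ (b+2) := ⟨_, rfl⟩
  rw [← hK]
  have hK1 : 1 ≤ K := by rw [hK]; exact Nat.one_le_pow _ _ hl1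
  have hlog := one_le_log (show (3:ℝ) ≤ N by exact_mod_cast hN3)
  have h1 : N / K ≤ ⌊(N:ℝ) / Real.log N ^ (b+2)⌋₊ := by
    rw [← Nat.floor_div_eq_div (K := ℝ)]
    refine Nat.floor_le_floor ?_
    have h2 : Real.log N ^ (b+2) ≤ (K:ℝ) := by
      rw [hK]; push_cast
      have : Real.log N ≤ (ll N : ℝ) := Nat.le_ceil _
      gcongr
    have h3 : 0 < Real.log N ^ (b+2) := by positivity
    gcongr
  calc ∑ j ∈ Finset.Ico K (2 * K), |W N j|
      ≤ ∑ j ∈ Finset.Ico K (2 * K), ∑ q ∈ Finset.Ioc (N / (j+1)) (N / j), |E g1 N q| :=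
        Finset.sum_le_sum fun j _ => abs_W_le N j
    _ = ∑ q ∈ Finset.Ioc (N / (2 * K)) (N / K), |E g1 N q| :=
        sum_blocks hK1 (fun q => |E g1 N q|) (by omega)
    _ ≤ Dstar g1 N (N / Real.log N ^ (b+2)) := by
        unfold Dstar
        refine Finset.sum_le_sum_of_subset_of_nonneg ?_ fun _ _ _ => abs_nonneg _
        intro q hq
        obtain ⟨h4, h5⟩ := Finset.mem_Ioc.mp hq
        exact Finset.mem_Icc.mpr ⟨Nat.lt_of_le_of_lt (Nat.zero_le _) h4, h5.trans h1⟩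

/-- `D*` is controlled by `D`. -/
lemma Dstar_le_D : ∃ C : ℝ, 0 < C ∧ ∀ g : ℕ → ℝ, SqfW g → ∀ p N : ℕ, ∀ Q : ℝ, 3 ≤ N → p.Prime →
    ¬ p ∣ N → (p:ℝ) ≤ 2 * Real.log N → 4 * Real.log N ^ 2 ≤ Q → Q ≤ N →
    Dstar g N Q ≤ 17 * Real.log N ^ 4 * D g N Q + C * √(N:ℝ) := by
  obtain ⟨C, hC, hnc⟩ := noncoprime_le
  refine ⟨C, hC, fun g hg' p N Q hN3 hp hpN hpl hQ hQN => ?_⟩
  have hNR : (3:ℝ) ≤ N := by exact_mod_cast hN3
  have hl := one_le_log hNR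
  have hp0 : (0:ℝ) ≤ p := Nat.cast_nonneg p
  have hp2 : (p:ℝ) ^ 2 ≤ 4 * Real.log N ^ 2 := by
    calc (p:ℝ) ^ 2 ≤ (2 * Real.log N) ^ 2 := by gcongr
      _ = _ := by ring
  have hD0 : 0 ≤ D g N Q := Finset.sum_nonneg fun _ _ => abs_nonneg _
  have hS : |S g N| ≤ 4 * Real.log N ^ 2 * D g N Q :=
    (S_le_D hg' hp hpN (hp2.trans hQ)).trans (by gcongr)
  have hΦ := sum_totient_le hQN
  have hΦ' : ∑ q ∈ (Finset.Icc 1 ⌊Q⌋₊).filter (fun q => q.Coprime N), 1 / (q.totient : ℝ) ≤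
      4 * Real.log N ^ 2 := by
    calc _ ≤ ∑ q ∈ Finset.Icc 1 ⌊Q⌋₊, 1 / (q.totient : ℝ) :=
          Finset.sum_le_sum_of_subset_of_nonneg (Finset.filter_subset _ _)
            fun _ _ _ => by positivity
      _ ≤ (1 + Real.log N) ^ 2 := hΦ
      _ ≤ (2 * Real.log N) ^ 2 := by gcongr; linarith
      _ = _ := by ring
  have hl4 : 1 ≤ Real.log N ^ 4 := one_le_pow₀ hl
  rw [Dstar_split]
  have h1 : ∑ q ∈ (Finset.Icc 1 ⌊Q⌋₊).filter (fun q => q.Coprime N), |E g N q| ≤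
      D g N Q + 16 * Real.log N ^ 4 * D g N Q := by
    calc _ ≤ ∑ q ∈ (Finset.Icc 1 ⌊Q⌋₊).filter (fun q => q.Coprime N),
          (|E g N q - 1 / (q.totient : ℝ) * S g N| + 1 / (q.totient : ℝ) * |S g N|) := by
          refine Finset.sum_le_sum fun q _ => ?_
          have h2 : E g N q = (E g N q - 1 / (q.totient : ℝ) * S g N) +
              1 / (q.totient : ℝ) * S g N := by ring
          calc |E g N q| = |(E g N q - 1 / (q.totient : ℝ) * S g N) +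
              1 / (q.totient : ℝ) * S g N| := by rw [← h2]
            _ ≤ _ := by
              refine (abs_add_le _ _).trans ?_
              rw [abs_mul, abs_of_nonneg (by positivity : (0:ℝ) ≤ 1 / (q.totient : ℝ))]
      _ = D g N Q + (∑ q ∈ (Finset.Icc 1 ⌊Q⌋₊).filter (fun q => q.Coprime N),
          1 / (q.totient : ℝ)) * |S g N| := by
          rw [Finset.sum_add_distrib, Finset.sum_mul]; rfl
      _ ≤ D g N Q + (4 * Real.log N ^ 2) * (4 * Real.log N ^ 2 * D g N Q) := by gcongr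
      _ = _ := by ring
  have h2 := hnc g hg' N (by omega) Q
  have h3 : D g N Q ≤ Real.log N ^ 4 * D g N Q := le_mul_of_one_le_left hD0 hl4
  linarith

lemma lower_D (b : ℕ) : ∀ᶠ N : ℕ in atTop, (N:ℝ) / Real.log N ^ (b+8) ≤
    D g1 N (N / Real.log N ^ (b+2)) := by
  obtain ⟨C, hC, hD⟩ := Dstar_le_D
  have hlogt : Tendsto (fun n : ℕ => Real.log (n:ℝ)) atTop atTop :=
    Real.tendsto_log_atTop.comp tendsto_natCast_atTop_atTop
  filter_upwards [lower_Dstar b, ev_prime, eventually_ge_atTop 3, ev_log_pow 4 (b+4),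
    ev_log_pow (320 * C * 2 ^ (b+3)) (b+3), hlogt.eventually_ge_atTop (5440 * 2 ^ (b+3))]
    with N h1 hprime hN3 h2 h3 h4
  obtain ⟨p, hp, hpN, hpl⟩ := hprime
  have hNR : (3:ℝ) ≤ N := by exact_mod_cast hN3
  have hN0 : (0:ℝ) < N := by linarith
  have hl := one_le_log hNR
  obtain ⟨L, hL⟩ : ∃ L, L = Real.log N := ⟨_, rfl⟩
  have hpl' := hpl
  rw [← hL] at h1 h2 h3 h4 hl ⊢
  have hL0 : 0 < L := by linarith
  have hll : (ll N : ℝ) ≤ 2 * L := by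
    have : (ll N : ℝ) < L + 1 := by rw [hL]; exact Nat.ceil_lt_add_one (by rw [← hL]; exact hL0.le)
    linarith
  have hll0 : (0:ℝ) < ll N := by
    have : L ≤ (ll N : ℝ) := by rw [hL]; exact Nat.le_ceil _
    linarith
  have hsN : √(N:ℝ) * √(N:ℝ) = N := Real.mul_self_sqrt hN0.le
  have hsN0 : 0 < √(N:ℝ) := Real.sqrt_pos.mpr hN0
  have hsN1 : 1 ≤ √(N:ℝ) := by rw [Real.one_le_sqrt]; linarith
  have hQ : 4 * Real.log N ^ 2 ≤ N / L ^ (b+2) := by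
    rw [le_div_iff₀ (by positivity), ← hL]
    calc 4 * L ^ 2 * L ^ (b+2) = 4 * L ^ (b+4) := by ring
      _ ≤ √(N:ℝ) := h2
      _ ≤ N := by nlinarith
  have hQN : (N:ℝ) / L ^ (b+2) ≤ N := div_le_self hN0.le (one_le_pow₀ hl)
  have h5 := hD g1 sqf_g1 p N (N / L ^ (b+2)) hN3 hp hpN hpl hQ hQN
  rw [← hL] at h5
  have h6 : (N:ℝ) / (160 * (2 * L) ^ (b+3)) ≤ N / (160 * (ll N : ℝ) ^ (b+3)) := by gcongr
  have h7 : C * √(N:ℝ) ≤ N / (320 * (2 * L) ^ (b+3)) := by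
    rw [le_div_iff₀ (by positivity), mul_pow]
    calc C * √(N:ℝ) * (320 * (2 ^ (b+3) * L ^ (b+3))) = √(N:ℝ) * (320 * C * 2 ^ (b+3) * L ^ (b+3)) := by ring
      _ ≤ √(N:ℝ) * √(N:ℝ) := by gcongr
      _ = N := hsN
  have h8 : (N:ℝ) / (160 * (2 * L) ^ (b+3)) = N / (320 * (2 * L) ^ (b+3)) + N / (320 * (2 * L) ^ (b+3)) := by
    field_simp; norm_num
  have h9 : (N:ℝ) / (320 * (2 * L) ^ (b+3)) ≤ 17 * L ^ 4 * D g1 N (N / L ^ (b+2)) := by linarith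
  have h10 : 17 * L ^ 4 * (N / L ^ (b+8)) ≤ N / (320 * (2 * L) ^ (b+3)) := by
    rw [mul_div_assoc', div_le_div_iff₀ (by positivity) (by positivity), mul_pow]
    calc 17 * L ^ 4 * N * (320 * (2 ^ (b+3) * L ^ (b+3))) = N * ((5440 * 2 ^ (b+3)) * L ^ (b+7)) := by ring
      _ ≤ N * (L * L ^ (b+7)) := by gcongr
      _ = N * L ^ (b+8) := by ring
  have h11 := h10.trans h9
  exact le_of_mul_le_mul_left h11 (by positivity)

end Pool.Agent.DEH
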